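import Pool.Agent.Helper93.VB.Fin

/-!
Internal algebraic operations.
-/

universe u v w

namespace Pool.Agent.Helper93.VB

set_option linter.unusedSectionVars false

noncomputable section

/-- internal addition -/
class IAdd (M : Type u) [LZ.Structure M] [ZM M] (α : Type v) [IType M α] [Add α] : Prop where
  im : IM M (fun p : α × α => p.1 + p.2)

/-- internal multiplication -/
class IMul (M : Type u) [LZ.Structure M] [ZM M] (α : Type v) [IType M α] [Mul α] : Prop where
  im : IM M (fun p : α × α => p.1 * p.2)

/-- internal scalar multiplication -/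
class ISMul (M : Type u) [LZ.Structure M] [ZM M] (R : Type v) (α : Type w) [IType M R] [IType M α]
    [SMul R α] : Prop where
  im : IM M (fun p : R × α => p.1 • p.2)

variable {M : Type u} [LZ.Structure M] {α β γ δ R : Type*} [IType M α] [IType M β] [IType M γ]
  [IType M δ] [IType M R] [hM : ZM M]

@[fun_prop] lemma im_add [Add β] [h : IAdd M β] {f g : α → β} (hf : IM M f) (hg : IM M g) :
    IM M (fun x => f x + g x) :=
  im_comp (g := fun p : β × β => p.1 + p.2) (f := fun x => (f x, g x)) h.im (im_pair hf hg)

@[fun_prop] lemma im_mul [Mul β] [h : IMul M β] {f g : α → β} (hf : IM M f) (hg : IM M g) :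
    IM M (fun x => f x * g x) :=
  im_comp (g := fun p : β × β => p.1 * p.2) (f := fun x => (f x, g x)) h.im (im_pair hf hg)

@[fun_prop] lemma im_smul [SMul R β] [h : ISMul M R β] {f : α → R} {g : α → β} (hf : IM M f)
    (hg : IM M g) : IM M (fun x => f x • g x) :=
  im_comp (g := fun p : R × β => p.1 • p.2) (f := fun x => (f x, g x)) h.im (im_pair hf hg)

@[fun_prop] lemma im_neg [AddCommGroup β] [h : IAdd M β] {f : α → β} (hf : IM M f) :
    IM M (fun x => - f x) := by
  apply im_of_graph
  have h1 : IM M (fun x : α × β => f x.1 + x.2 = 0) := by fun_prop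
  convert h1 using 2 with x
  constructor
  · intro h
    rw [← h]
    simp
  · intro h
    exact (eq_neg_of_add_eq_zero_right h).symm

@[fun_prop] lemma im_sub [AddCommGroup β] [h : IAdd M β] {f g : α → β} (hf : IM M f)
    (hg : IM M g) : IM M (fun x => f x - g x) := by
  have h1 : IM M (fun x : α => f x + (- g x)) := by fun_prop
  convert h1 using 2 with x
  exact sub_eq_add_neg _ _

@[fun_prop] lemma im_inv [Field β] [h : IMul M β] {f : α → β} (hf : IM M f) :
    IM M (fun x => (f x)⁻¹) := by
  apply im_of_graph
  have h1 : IM M (fun x : α × β => (f x.1 = 0 ∧ x.2 = 0) ∨ (f x.1 * x.2 = 1)) := by fun_prop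
  convert h1 using 2 with x
  constructor
  · intro h
    rw [← h]
    by_cases h0 : f x.1 = 0
    · left
      simp [h0]
    · right
      simp [h0]
  · rintro (⟨h, h'⟩ | h)
    · rw [h, h']
      simp
    · exact (eq_inv_of_mul_eq_one_right h).symm

@[fun_prop] lemma im_div [Field β] [h : IMul M β] {f g : α → β} (hf : IM M f) (hg : IM M g) :
    IM M (fun x => f x / g x) := by
  have h1 : IM M (fun x : α => f x * (g x)⁻¹) := by fun_prop
  convert h1 using 2 with x
  exact div_eq_mul_inv _ _

/-! ### Pointwise operations on internal maps -/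

instance instZeroIFun [Zero β] : Zero (IFun M α β) := ⟨lam (fun _ => 0) (by fun_prop)⟩
instance instOneIFun [One β] : One (IFun M α β) := ⟨lam (fun _ => 1) (by fun_prop)⟩
instance instAddIFun [Add β] [IAdd M β] : Add (IFun M α β) :=
  ⟨fun f g => lam (fun x => f.ev x + g.ev x) (by fun_prop)⟩
instance instMulIFun [Mul β] [IMul M β] : Mul (IFun M α β) :=
  ⟨fun f g => lam (fun x => f.ev x * g.ev x) (by fun_prop)⟩
instance instNegIFun [AddCommGroup β] [IAdd M β] : Neg (IFun M α β) :=
  ⟨fun f => lam (fun x => - f.ev x) (by fun_prop)⟩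
instance instSMulIFun [SMul R β] [ISMul M R β] : SMul R (IFun M α β) :=
  ⟨fun c f => lam (fun x => c • f.ev x) (by fun_prop)⟩

@[simp] lemma zero_ev [Zero β] (x : α) : (0 : IFun M α β).ev x = 0 := rfl
@[simp] lemma one_ev [One β] (x : α) : (1 : IFun M α β).ev x = 1 := rfl
@[simp] lemma add_ev [Add β] [IAdd M β] (f g : IFun M α β) (x : α) :
    (f + g).ev x = f.ev x + g.ev x := rfl
@[simp] lemma mul_ev [Mul β] [IMul M β] (f g : IFun M α β) (x : α) :
    (f * g).ev x = f.ev x * g.ev x := rfl
@[simp] lemma smul_ev [SMul R β] [ISMul M R β] (c : R) (f : IFun M α β) (x : α) :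
    (c • f).ev x = c • f.ev x := rfl

instance instAddCommGroupIFun [AddCommGroup β] [IAdd M β] : AddCommGroup (IFun M α β) where
  add_assoc f g h := by ext x; simp [add_assoc]
  zero_add f := by ext x; simp
  add_zero f := by ext x; simp
  nsmul := nsmulRec
  zsmul := zsmulRec
  neg_add_cancel f := by
    ext x
    show - f.ev x + f.ev x = 0
    simp
  add_comm f g := by ext x; simp [add_comm]

@[simp] lemma neg_ev [AddCommGroup β] [IAdd M β] (f : IFun M α β) (x : α) :
    (-f).ev x = - f.ev x := rfl

@[simp] lemma sub_ev [AddCommGroup β] [IAdd M β] (f g : IFun M α β) (x : α) :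
    (f - g).ev x = f.ev x - g.ev x := by
  rw [sub_eq_add_neg, sub_eq_add_neg]
  rfl

instance instCommRingIFun [CommRing β] [IAdd M β] [IMul M β] : CommRing (IFun M α β) where
  __ := instAddCommGroupIFun
  mul_assoc f g h := by ext x; simp [mul_assoc]
  one_mul f := by ext x; simp
  mul_one f := by ext x; simp
  left_distrib f g h := by ext x; simp [mul_add]
  right_distrib f g h := by ext x; simp [add_mul]
  zero_mul f := by ext x; simp
  mul_zero f := by ext x; simp
  mul_comm f g := by ext x; simp [mul_comm]

instance instModuleIFun [CommRing R] [AddCommGroup β] [Module R β] [IAdd M β] [ISMul M R β] :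
    Module R (IFun M α β) where
  one_smul f := by ext x; simp
  mul_smul c d f := by ext x; simp [mul_smul]
  smul_zero c := by ext x; simp
  smul_add c f g := by ext x; simp
  add_smul c d f := by ext x; simp [add_smul]
  zero_smul f := by ext x; simp

instance instIAddIFun [Add β] [IAdd M β] : IAdd M (IFun M α β) :=
  ⟨by
    show IM M (fun p : IFun M α β × IFun M α β => lam (fun x => p.1.ev x + p.2.ev x) _)
    fun_prop⟩

instance instIMulIFun [Mul β] [IMul M β] : IMul M (IFun M α β) :=
  ⟨by
    show IM M (fun p : IFun M α β × IFun M α β => lam (fun x => p.1.ev x * p.2.ev x) _)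
    fun_prop⟩

instance instISMulIFun [SMul R β] [ISMul M R β] : ISMul M R (IFun M α β) :=
  ⟨by
    show IM M (fun p : R × IFun M α β => lam (fun x => p.1 • p.2.ev x) _)
    fun_prop⟩

instance instISMulSelf [Mul β] [h : IMul M β] : ISMul M β β := ⟨h.im⟩

end

end Pool.Agent.Helper93.VB
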