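import Pool.Agent.Helper93.VB.Defs

/-!
Formulas with parameters, the separation schema in usable form, ordered pairs and products.
-/

universe u

namespace Pool.Agent.Helper93.VB

open FirstOrder Language

/-- Formulas with `n` free variables and parameters in `M`. -/
inductive Fm (M : Type u) : ℕ → Type u
  | mem {n : ℕ} (s t : Fin n ⊕ M) : Fm M n
  | set {n : ℕ} (s : Fin n ⊕ M) : Fm M n
  | eq {n : ℕ} (s t : Fin n ⊕ M) : Fm M n
  | fls {n : ℕ} : Fm M n
  | imp {n : ℕ} (f g : Fm M n) : Fm M n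
  | all {n : ℕ} (f : Fm M (n + 1)) : Fm M n

set_option linter.unusedSectionVars false

variable {M : Type u} [LZ.Structure M] {n : ℕ}

/-- The value of a term. -/
def tv (v : Fin n → M) : Fin n ⊕ M → M := Sum.elim v id

@[simp] lemma tv_inl (v : Fin n → M) (i : Fin n) : tv v (Sum.inl i) = v i := rfl
@[simp] lemma tv_inr (v : Fin n → M) (a : M) : tv v (Sum.inr a) = a := rfl

/-- Satisfaction. -/
def Fm.sat : {n : ℕ} → Fm M n → (Fin n → M) → Prop
  | _, .mem s t, v => Mem (tv v s) (tv v t)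
  | _, .set s, v => IsSet (tv v s)
  | _, .eq s t, v => tv v s = tv v t
  | _, .fls, _ => False
  | _, .imp f g, v => f.sat v → g.sat v
  | _, .all f, v => ∀ x : M, f.sat (Matrix.vecCons x v)

/-- The term of the language with parameters. -/
def tm (s : Fin n ⊕ M) : (LZ[[(Set.univ : Set M)]]).Term (Fin n) :=
  match s with
  | Sum.inl i => Term.var i
  | Sum.inr a => (LZ.con (⟨a, Set.mem_univ a⟩ : (Set.univ : Set M))).term

@[simp] lemma realize_tm (s : Fin n ⊕ M) (v : Fin n → M) : (tm s).realize v = tv v s := by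
  cases s with
  | inl i => simp [tm]
  | inr a => simp [tm]

lemma Fm.definable {n : ℕ} (f : Fm M n) :
    (Set.univ : Set M).Definable LZ {v : Fin n → M | f.sat v} := by
  induction f with
  | mem s t =>
    refine ⟨Relations.formula₂ (L := LZ[[(Set.univ : Set M)]]) (Sum.inl SRel.mem) (tm s) (tm t), ?_⟩
    ext v
    simp only [Set.mem_ofPred_eq, Formula.realize_rel₂, realize_tm]
    rfl
  | set s =>
    refine ⟨Relations.formula₁ (L := LZ[[(Set.univ : Set M)]]) (Sum.inl SRel.isSet) (tm s), ?_⟩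
    ext v
    simp only [Set.mem_ofPred_eq, Formula.realize_rel₁, realize_tm]
    rfl
  | eq s t =>
    refine ⟨Term.equal (tm s) (tm t), ?_⟩
    ext v
    simp [Fm.sat]
  | fls =>
    convert Set.definable_empty (A := (Set.univ : Set M)) (L := LZ)
    simp [Fm.sat]
  | imp f g hf hg =>
    convert hf.compl.union hg
    ext v
    simp [Fm.sat, imp_iff_not_or]
  | @all n f hf =>
    have h := (hf.compl.image_comp (Fin.succ : Fin n → Fin (n + 1))).compl
    convert h
    ext v
    simp only [Fm.sat, Set.mem_ofPred_eq, Set.mem_compl_iff, Set.mem_image, not_exists, not_and]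
    constructor
    · intro hv w hw hwv
      apply hw
      have := hv (w 0)
      have e : Matrix.vecCons (w 0) v = w := by
        ext i
        refine Fin.cases ?_ (fun j => ?_) i
        · simp
        · simp [← hwv]
      rwa [e] at this
    · intro hv x
      by_contra hx
      exact hv (Matrix.vecCons x v) hx (by ext i; simp)

/-- abbreviations for building formulas -/
def Fm.neg {n : ℕ} (f : Fm M n) : Fm M n := .imp f .fls
def Fm.and {n : ℕ} (f g : Fm M n) : Fm M n := (Fm.imp f g.neg).neg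
def Fm.or {n : ℕ} (f g : Fm M n) : Fm M n := Fm.imp f.neg g
def Fm.iff {n : ℕ} (f g : Fm M n) : Fm M n := (Fm.imp f g).and (Fm.imp g f)
def Fm.ex {n : ℕ} (f : Fm M (n + 1)) : Fm M n := f.neg.all.neg

@[simp] lemma sat_mem (s t : Fin n ⊕ M) (v) : (Fm.mem s t).sat v ↔ Mem (tv v s) (tv v t) := Iff.rfl
@[simp] lemma sat_set (s : Fin n ⊕ M) (v) : (Fm.set s).sat v ↔ IsSet (tv v s) := Iff.rfl
@[simp] lemma sat_eq (s t : Fin n ⊕ M) (v) : (Fm.eq s t).sat v ↔ tv v s = tv v t := Iff.rfl
@[simp] lemma sat_fls (v : Fin n → M) : (Fm.fls).sat v ↔ False := Iff.rfl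
@[simp] lemma sat_imp (f g : Fm M n) (v) : (Fm.imp f g).sat v ↔ (f.sat v → g.sat v) := Iff.rfl
@[simp] lemma sat_all (f : Fm M (n + 1)) (v) :
    (Fm.all f).sat v ↔ ∀ x, f.sat (Matrix.vecCons x v) := Iff.rfl
@[simp] lemma sat_neg (f : Fm M n) (v) : f.neg.sat v ↔ ¬ f.sat v := Iff.rfl
@[simp] lemma sat_and (f g : Fm M n) (v) : (f.and g).sat v ↔ f.sat v ∧ g.sat v := by
  simp [Fm.and]
@[simp] lemma sat_or (f g : Fm M n) (v) : (f.or g).sat v ↔ f.sat v ∨ g.sat v := by
  simp [Fm.or, or_iff_not_imp_left]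
@[simp] lemma sat_iff (f g : Fm M n) (v) : (f.iff g).sat v ↔ (f.sat v ↔ g.sat v) := by
  simp [Fm.iff, iff_def]
@[simp] lemma sat_ex (f : Fm M (n + 1)) (v) :
    (Fm.ex f).sat v ↔ ∃ x, f.sat (Matrix.vecCons x v) := by
  simp [Fm.ex]

/-- Shift a term under a quantifier. -/
def sh (s : Fin n ⊕ M) : Fin (n + 1) ⊕ M := Sum.map Fin.succ id s

@[simp] lemma tv_sh (s : Fin n ⊕ M) (v : Fin n → M) (x : M) :
    tv (Matrix.vecCons x v) (sh s) = tv v s := by
  cases s <;> simp [sh]

@[simp] lemma tv_zero (v : Fin n → M) (x : M) :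
    tv (Matrix.vecCons x v) (Sum.inl 0) = x := rfl

/-- `z = {x, y}`. -/
def fUPair (z x y : Fin n ⊕ M) : Fm M n :=
  (Fm.set z).and (Fm.all ((Fm.mem (.inl 0) (sh z)).iff
    ((Fm.eq (.inl 0) (sh x)).or (Fm.eq (.inl 0) (sh y)))))

@[simp] lemma sat_fUPair (z x y : Fin n ⊕ M) (v : Fin n → M) :
    (fUPair z x y).sat v ↔ IsUPair (tv v z) (tv v x) (tv v y) := by
  simp [fUPair, IsUPair]

/-- `p = (x, y)`. -/
def fPair (p x y : Fin n ⊕ M) : Fm M n :=
  (Fm.set p).and (Fm.all ((Fm.mem (.inl 0) (sh p)).iff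
    ((fUPair (.inl 0) (sh x) (sh x)).or (fUPair (.inl 0) (sh x) (sh y)))))

@[simp] lemma sat_fPair (p x y : Fin n ⊕ M) (v : Fin n → M) :
    (fPair p x y).sat v ↔ IsPair (tv v p) (tv v x) (tv v y) := by
  simp [fPair, IsPair]

/-- `(x, y) ∈ f`. -/
def fApp (f x y : Fin n ⊕ M) : Fm M n :=
  Fm.ex ((fPair (.inl 0) (sh x) (sh y)).and (Fm.mem (.inl 0) (sh f)))

@[simp] lemma sat_fApp (f x y : Fin n ⊕ M) (v : Fin n → M) :
    (fApp f x y).sat v ↔ App (tv v f) (tv v x) (tv v y) := by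
  simp [fApp, App]

/-- The class version of the hypothesis that `M` is a model of ZFA. -/
class ZM (M : Type u) [LZ.Structure M] : Prop where
  zfa : ZFA M

section
variable [hM : ZM M]

lemma mem_isSet {x y : M} (h : Mem x y) : IsSet y := hM.zfa.atom x y h

lemma set_ext {a b : M} (ha : IsSet a) (hb : IsSet b) (h : ∀ x, Mem x a ↔ Mem x b) : a = b :=
  hM.zfa.ext a b ha hb h

/-- Separation for formulas. -/
lemma sep (f : Fm M 1) (a : M) : ∃ b, IsSet b ∧ ∀ x, Mem x b ↔ Mem x a ∧ f.sat ![x] := by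
  refine hM.zfa.separation (fun x => f.sat ![x]) ?_ a
  have := f.definable
  unfold Set.Definable₁
  convert this using 3 with v
  have e : ![v 0] = v := by
    ext i
    fin_cases i
    rfl
  simp only [Set.mem_ofPred_eq, e]

variable (M) in
lemma exists_empty : ∃ e : M, IsSet e ∧ ∀ x, ¬ Mem x e := by
  obtain ⟨a, ⟨e, he, h, _⟩, _⟩ := hM.zfa.infinity
  exact ⟨e, he, h⟩

lemma exists_upair (x y : M) : ∃ z, IsUPair z x y := by
  obtain ⟨a, ha, h⟩ := hM.zfa.pairing x y
  exact ⟨a, ha, h⟩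

lemma upair_unique {x y z z' : M} (h : IsUPair z x y) (h' : IsUPair z' x y) : z = z' :=
  set_ext h.1 h'.1 (fun w => by rw [h.2, h'.2])

lemma exists_pair (x y : M) : ∃ p, IsPair p x y := by
  obtain ⟨a, ha⟩ := exists_upair x x
  obtain ⟨b, hb⟩ := exists_upair x y
  obtain ⟨p, hp, h⟩ := hM.zfa.pairing a b
  refine ⟨p, hp, fun z => ?_⟩
  rw [h]
  constructor
  · rintro (rfl | rfl)
    · exact Or.inl ha
    · exact Or.inr hb
  · rintro (h | h)
    · exact Or.inl (upair_unique h ha)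
    · exact Or.inr (upair_unique h hb)

/-- The ordered pair. -/
noncomputable def opair (x y : M) : M := (exists_pair x y).choose

lemma isPair_opair (x y : M) : IsPair (opair x y) x y := (exists_pair x y).choose_spec

lemma isPair_iff {p x y : M} : IsPair p x y ↔ p = opair x y := by
  constructor
  · intro h
    refine set_ext h.1 (isPair_opair x y).1 (fun z => ?_)
    rw [h.2, (isPair_opair x y).2]
  · rintro rfl
    exact isPair_opair x y

lemma opair_inj {x y x' y' : M} : opair x y = opair x' y' ↔ x = x' ∧ y = y' := by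
  constructor
  · intro h
    have hp := isPair_opair x y
    have hp' := isPair_opair x' y'
    rw [h] at hp
    have key : ∀ z, (IsUPair z x x ∨ IsUPair z x y) ↔ (IsUPair z x' x' ∨ IsUPair z x' y') :=
      fun z => by rw [← hp.2, ← hp'.2]
    obtain ⟨a, ha⟩ := exists_upair x x
    obtain ⟨b, hb⟩ := exists_upair x y
    obtain ⟨a', ha'⟩ := exists_upair x' x'
    obtain ⟨b', hb'⟩ := exists_upair x' y'
    have hx : x = x' := by
      rcases (key a).1 (Or.inl ha) with h1 | h1
      · have := (ha.2 x').1 ((h1.2 x').2 (Or.inl rfl))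
        simpa [eq_comm] using this
      · have := (ha.2 x').1 ((h1.2 x').2 (Or.inl rfl))
        simpa [eq_comm] using this
    subst hx
    refine ⟨rfl, ?_⟩
    rcases (key b).1 (Or.inr hb) with h1 | h1
    · have hy : y = x := by
        have := (h1.2 y).1 ((hb.2 y).2 (Or.inr rfl))
        simpa using this
      rcases (key b').2 (Or.inr hb') with h2 | h2
      · have := (h2.2 y').1 ((hb'.2 y').2 (Or.inr rfl))
        have : y' = x := by simpa using this
        rw [hy, this]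
      · have := (h2.2 y').1 ((hb'.2 y').2 (Or.inr rfl))
        rcases this with h3 | h3
        · rw [hy, h3]
        · exact h3.symm
    · have h2 := (h1.2 y).1 ((hb.2 y).2 (Or.inr rfl))
      rcases h2 with h3 | h3
      · subst h3
        have h4 := (hb.2 y').1 ((h1.2 y').2 (Or.inr rfl))
        rcases h4 with h5 | h5 <;> exact h5.symm
      · exact h3
  · rintro ⟨rfl, rfl⟩
    rfl

lemma app_iff {f x y : M} : App f x y ↔ Mem (opair x y) f := by
  unfold App
  constructor
  · rintro ⟨p, hp, h⟩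
    rw [isPair_iff] at hp
    rwa [← hp]
  · intro h
    exact ⟨_, isPair_opair x y, h⟩

/-- Cartesian products. -/
lemma exists_prod (a b : M) : ∃ c, IsSet c ∧
    ∀ p, Mem p c ↔ ∃ x y, Mem x a ∧ Mem y b ∧ p = opair x y := by
  -- a ∪ b
  obtain ⟨q, hq, hq'⟩ := hM.zfa.pairing a b
  obtain ⟨s, hs, hs'⟩ := hM.zfa.union q
  obtain ⟨t, ht, ht'⟩ := hM.zfa.power s
  obtain ⟨r, hr, hr'⟩ := hM.zfa.power t
  obtain ⟨c, hc, hc'⟩ := sep (Fm.ex (Fm.ex ((Fm.mem (.inl 1) (.inr a)).and
    ((Fm.mem (.inl 0) (.inr b)).and (fPair (.inl 2) (.inl 1) (.inl 0)))))) r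
  refine ⟨c, hc, fun p => ?_⟩
  rw [hc']
  simp only [sat_ex, sat_and, sat_mem, tv_inl, tv_inr, sat_fPair, isPair_iff]
  have e : ∀ x y : M, (Matrix.vecCons y (Matrix.vecCons x ![p])) 2 = p := fun x y => rfl
  have e1 : ∀ x y : M, (Matrix.vecCons y (Matrix.vecCons x ![p])) 1 = x := fun x y => rfl
  have e0 : ∀ x y : M, (Matrix.vecCons y (Matrix.vecCons x ![p])) 0 = y := fun x y => rfl
  simp only [e, e1, e0]
  constructor
  · rintro ⟨_, x, y, hx, hy, h⟩
    exact ⟨x, y, hx, hy, h⟩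
  · rintro ⟨x, y, hx, hy, h⟩
    refine ⟨?_, x, y, hx, hy, h⟩
    have hp : IsPair p x y := isPair_iff.2 h
    have hxs : Mem x s := (hs' x).2 ⟨a, (hq' a).2 (Or.inl rfl), hx⟩
    have hys : Mem y s := (hs' y).2 ⟨b, (hq' b).2 (Or.inr rfl), hy⟩
    rw [hr']
    refine ⟨hp.1, fun w hw => ?_⟩
    rw [ht']
    rcases (hp.2 w).1 hw with h1 | h1
    · refine ⟨h1.1, fun z hz => ?_⟩
      rcases (h1.2 z).1 hz with rfl | rfl <;> exact hxs
    · refine ⟨h1.1, fun z hz => ?_⟩
      rcases (h1.2 z).1 hz with rfl | rfl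
      · exact hxs
      · exact hys

end

end Pool.Agent.Helper93.VB
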