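import Pool.Agent.Helper93.VB.Bridge

/-!
Coordinates with respect to an internal basis.
-/

universe u v w

namespace Pool.Agent.Helper93.VB

set_option linter.unusedSectionVars false

noncomputable section

variable {M : Type u} [LZ.Structure M] [hM : ZM M] {K V : Type*} [IType M K] [IType M V]
  [Field K] [IAdd M K] [IMul M K] [AddCommGroup V] [IAdd M V] [Module K V] [ISMul M K V]

lemma ISub.neg {W : IPow M V} (hW : ISub K W) {v : V} (hv : v ∈ W) : -v ∈ W := by
  have := hW.2.2 (-1) v hv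
  simpa using this

lemma ISub.sub {W : IPow M V} (hW : ISub K W) {v w : V} (hv : v ∈ W) (hw : w ∈ W) : v - w ∈ W := by
  rw [sub_eq_add_neg]
  exact hW.2.1 _ _ hv (hW.neg hw)

lemma isub_line (T : IPow M V) (b : V) (im : IM M (fun v => ∃ c : K, v - c • b ∈ spn K T)) :
    ISub K (cmp (fun v => ∃ c : K, v - c • b ∈ spn K T) im) := by
  have h := isub_spn (K := K) T
  refine ⟨⟨0, ?_⟩, ?_, ?_⟩
  · simpa using h.1
  · rintro v w ⟨c, hc⟩ ⟨d, hd⟩
    refine ⟨c + d, ?_⟩
    have := h.2.1 _ _ hc hd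
    convert this using 1
    rw [add_smul]
    abel
  · rintro c v ⟨d, hd⟩
    refine ⟨c * d, ?_⟩
    have := h.2.2 c _ hd
    convert this using 1
    rw [smul_sub, mul_smul]

lemma spn_insert {T : IPow M V} {b v : V} (hv : v ∈ spn K (insert b T)) :
    ∃ c : K, v - c • b ∈ spn K T := by
  have im : IM M (fun v => ∃ c : K, v - c • b ∈ spn K T) := by fun_prop
  refine hv _ (isub_line T b im) ?_
  rintro x (rfl | hx)
  · refine ⟨1, ?_⟩
    rw [one_smul, sub_self]
    exact (isub_spn (K := K) T).1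
  · refine ⟨0, ?_⟩
    rw [zero_smul, sub_zero]
    exact subset_spn T x hx

variable (K) in
/-- The coordinate of `v` at the element `b` of the basis `B`. -/
def coord (B : IPow M V) (b v : V) : K :=
  the (cmp (fun c : K => v - c • b ∈ spn K (B \ {b})) (by fun_prop) : IPow M K)

@[fun_prop] lemma im_coord {α : Type*} [IType M α] {f : α → IPow M V} {g h : α → V}
    (hf : IM M f) (hg : IM M g) (hh : IM M h) :
    IM M (fun x => coord K (f x) (g x) (h x)) := by
  unfold coord
  fun_prop

variable {W B : IPow M V}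

lemma coord_eq (hB : IBas K W B) {b v : V} (hb : b ∈ B) {c : K}
    (h : v - c • b ∈ spn K (B \ {b})) : coord K B b v = c := by
  unfold coord
  refine the_eq h ?_
  intro d hd
  have hd' : v - d • b ∈ spn K (B \ {b}) := hd
  by_contra hne
  apply hB.2 b hb
  have hs := isub_spn (K := K) (B \ {b})
  have h1 := hs.sub h hd'
  have h2 : (v - c • b) - (v - d • b) = (d - c) • b := by
    rw [sub_smul]
    abel
  rw [h2] at h1
  have h3 := hs.2.2 (d - c)⁻¹ _ h1
  rwa [smul_smul, inv_mul_cancel₀ (sub_ne_zero.2 hne), one_smul] at h3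

lemma IBas.sub (hB : IBas K W B) : B ⊆ W := by
  rw [← hB.1]
  exact subset_spn B

lemma IBas.isub (hB : IBas K W B) : ISub K W := by
  rw [← hB.1]
  exact isub_spn B

lemma insert_sdiff {B : IPow M V} {b : V} (hb : b ∈ B) : insert b (B \ {b}) = B := by
  ext x
  simp only [mem_insert, mem_sdiff, mem_singleton]
  constructor
  · rintro (rfl | h)
    · exact hb
    · exact h.1
  · intro h
    by_cases hx : x = b
    · exact Or.inl hx
    · exact Or.inr ⟨h, hx⟩

lemma coord_spec (hB : IBas K W B) {b v : V} (hb : b ∈ B) (hv : v ∈ W) :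
    v - coord K B b v • b ∈ spn K (B \ {b}) := by
  rw [← hB.1, ← insert_sdiff hb] at hv
  obtain ⟨c, hc⟩ := spn_insert hv
  have hc' : coord K B b v = c := coord_eq hB hb hc
  rw [hc']
  exact hc

lemma coord_add (hB : IBas K W B) {b v w : V} (hb : b ∈ B) (hv : v ∈ W) (hw : w ∈ W) :
    coord K B b (v + w) = coord K B b v + coord K B b w := by
  apply coord_eq hB hb
  have := (isub_spn (K := K) (B \ {b})).2.1 _ _ (coord_spec hB hb hv) (coord_spec hB hb hw)
  convert this using 1
  rw [add_smul]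
  abel

lemma coord_smul (hB : IBas K W B) {b v : V} (hb : b ∈ B) (hv : v ∈ W) (c : K) :
    coord K B b (c • v) = c * coord K B b v := by
  apply coord_eq hB hb
  have := (isub_spn (K := K) (B \ {b})).2.2 c _ (coord_spec hB hb hv)
  convert this using 1
  rw [smul_sub, smul_smul]

lemma coord_of_mem_spn (hB : IBas K W B) {b v : V} (hb : b ∈ B)
    (hv : v ∈ spn K (B \ {b})) : coord K B b v = 0 := by
  apply coord_eq hB hb
  rwa [zero_smul, sub_zero]

lemma coord_self (hB : IBas K W B) {b : V} (hb : b ∈ B) : coord K B b b = 1 := by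
  apply coord_eq hB hb
  rw [one_smul, sub_self]
  exact (isub_spn (K := K) _).1

lemma coord_ne (hB : IBas K W B) {b b' : V} (hb : b ∈ B) (hb' : b' ∈ B) (hne : b' ≠ b) :
    coord K B b b' = 0 :=
  coord_of_mem_spn hB hb (subset_spn _ _ ⟨hb', hne⟩)

lemma coord_zero (hB : IBas K W B) {b : V} (hb : b ∈ B) : coord K B b 0 = 0 :=
  coord_of_mem_spn hB hb (isub_spn (K := K) _).1

variable (K) in
/-- The support of `v` in the basis `B`. -/
def supp (B : IPow M V) (v : V) : IPow M V :=
  cmp (fun b => b ∈ B ∧ ¬ coord K B b v = 0) (by fun_prop)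

lemma mem_supp {b v : V} : b ∈ supp K B v ↔ b ∈ B ∧ ¬ coord K B b v = 0 := Iff.rfl

@[fun_prop] lemma im_supp {α : Type*} [IType M α] {f : α → IPow M V} {g : α → V}
    (hf : IM M f) (hg : IM M g) : IM M (fun x => supp K (f x) (g x)) := by
  unfold supp
  fun_prop

lemma supp_sub {v : V} : supp K B v ⊆ B := fun _ h => h.1

/-- If the supports of the generators lie in `T`, so does the support of every element of their
span. -/
lemma supp_spn (hB : IBas K W B) {S T : IPow M V} (hS : S ⊆ W)
    (h : ∀ v, v ∈ S → supp K B v ⊆ T) {v : V} (hv : v ∈ spn K S) : supp K B v ⊆ T := by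
  have im : IM M (fun v => v ∈ W ∧ supp K B v ⊆ T) := by fun_prop
  have hsub : ISub K (cmp (fun v => v ∈ W ∧ supp K B v ⊆ T) im) := by
    refine ⟨⟨hB.isub.1, ?_⟩, ?_, ?_⟩
    · intro b hb
      exact absurd (coord_zero hB hb.1) hb.2
    · rintro v w ⟨hv, hv'⟩ ⟨hw, hw'⟩
      refine ⟨hB.isub.2.1 _ _ hv hw, ?_⟩
      intro b hb
      by_cases h0 : coord K B b v = 0
      · apply hw'
        refine ⟨hb.1, fun h1 => hb.2 ?_⟩
        rw [coord_add hB hb.1 hv hw, h0, h1, add_zero]
      · exact hv' b ⟨hb.1, h0⟩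
    · rintro c v ⟨hv, hv'⟩
      refine ⟨hB.isub.2.2 _ _ hv, ?_⟩
      intro b hb
      apply hv'
      refine ⟨hb.1, fun h1 => hb.2 ?_⟩
      rw [coord_smul hB hb.1 hv, h1, mul_zero]
  exact (hv _ hsub (fun v hv => ⟨hS v hv, h v hv⟩)).2

lemma supp_finite (hB : IBas K W B) {v : V} (hv : v ∈ W) : IFin (supp K B v) := by
  have im : IM M (fun v => v ∈ W ∧ IFin (supp K B v)) := by fun_prop
  have hsub : ISub K (cmp (fun v => v ∈ W ∧ IFin (supp K B v)) im) := by
    refine ⟨⟨hB.isub.1, ?_⟩, ?_, ?_⟩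
    · refine ifin_empty.subset ?_
      intro b hb
      exact absurd (coord_zero hB hb.1) hb.2
    · rintro v w ⟨hv, hv'⟩ ⟨hw, hw'⟩
      refine ⟨hB.isub.2.1 _ _ hv hw, ?_⟩
      refine (hv'.union hw').subset ?_
      intro b hb
      by_cases h0 : coord K B b v = 0
      · right
        refine ⟨hb.1, fun h1 => hb.2 ?_⟩
        rw [coord_add hB hb.1 hv hw, h0, h1, add_zero]
      · exact Or.inl ⟨hb.1, h0⟩
    · rintro c v ⟨hv, hv'⟩
      refine ⟨hB.isub.2.2 _ _ hv, ?_⟩
      refine hv'.subset ?_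
      intro b hb
      refine ⟨hb.1, fun h1 => hb.2 ?_⟩
      rw [coord_smul hB hb.1 hv, h1, mul_zero]
  rw [← hB.1] at hv
  refine (hv _ hsub ?_).2
  intro b hb
  refine ⟨hB.sub b hb, ?_⟩
  refine (ifin_singleton b).subset ?_
  intro b' hb'
  by_contra hne
  exact hb'.2 (coord_ne hB hb'.1 hb (fun h => hne h.symm))

lemma eq_zero_of_coord (hB : IBas K W B) {v : V} (hv : v ∈ W)
    (h : ∀ b, b ∈ B → coord K B b v = 0) : v = 0 := by
  -- `v` lies in the span of a finite subset
  have im : IM M (fun v => v ∈ W ∧ ∃ T : IPow M V, IFin T ∧ T ⊆ B ∧ v ∈ spn K T) := by fun_prop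
  have hsub : ISub K (cmp (fun v => v ∈ W ∧ ∃ T : IPow M V, IFin T ∧ T ⊆ B ∧ v ∈ spn K T) im) := by
    refine ⟨⟨hB.isub.1, ∅, ifin_empty, fun _ h => absurd h (notMem_empty _),
      (isub_spn (K := K) _).1⟩, ?_, ?_⟩
    · rintro v w ⟨hv, T, hT, hTB, hvT⟩ ⟨hw, T', hT', hTB', hvT'⟩
      refine ⟨hB.isub.2.1 _ _ hv hw, T ∪ T', hT.union hT', ?_, ?_⟩
      · rintro x (hx | hx)
        · exact hTB x hx
        · exact hTB' x hx
      · exact (isub_spn (K := K) _).2.1 _ _ (spn_mono (fun x hx => Or.inl hx) _ hvT)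
          (spn_mono (fun x hx => Or.inr hx) _ hvT')
    · rintro c v ⟨hv, T, hT, hTB, hvT⟩
      exact ⟨hB.isub.2.2 _ _ hv, T, hT, hTB, (isub_spn (K := K) _).2.2 _ _ hvT⟩
  have hv' := hv
  rw [← hB.1] at hv'
  obtain ⟨T, hT, hTB, hvT⟩ := (hv' _ hsub (fun b hb => ⟨hB.sub b hb, {b}, ifin_singleton b,
    fun x hx => by rw [mem_singleton] at hx; rwa [hx], subset_spn _ _ rfl⟩)).2
  -- induction on the finite set
  have key : T ⊆ B → ∀ v, v ∈ spn K T → (∀ b, b ∈ B → coord K B b v = 0) → v = 0 := by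
    refine IFin.induction (p := fun T => T ⊆ B → ∀ v, v ∈ spn K T →
      (∀ b, b ∈ B → coord K B b v = 0) → v = 0) (by fun_prop) ?_ ?_ hT
    · intro _ v hv _
      have h0 : ISub K ({(0 : V)} : IPow M V) := by
        refine ⟨rfl, ?_, ?_⟩
        · intro v w hv hw
          rw [mem_singleton] at hv hw ⊢
          rw [hv, hw, add_zero]
        · intro c v hv
          rw [mem_singleton] at hv ⊢
          rw [hv, smul_zero]
      exact hv _ h0 (fun _ h => absurd h (notMem_empty _))
    · intro T b _ ih hTB v hv hv0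
      have hb : b ∈ B := hTB b (Or.inl rfl)
      have hTB' : T ⊆ B := fun x hx => hTB x (Or.inr hx)
      obtain ⟨c, hc⟩ := spn_insert hv
      by_cases hbT : b ∈ T
      · have : insert b T = T := by
          ext x
          simp only [mem_insert]
          constructor
          · rintro (rfl | h)
            · exact hbT
            · exact h
          · exact Or.inr
        rw [this] at hv
        exact ih hTB' v hv hv0
      · have hT1 : T ⊆ B \ {b} := by
          intro x hx
          refine ⟨hTB' x hx, ?_⟩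
          intro h
          rw [mem_singleton] at h
          rw [h] at hx
          exact hbT hx
        have h1 : coord K B b v = c := coord_eq hB hb (spn_mono hT1 _ hc)
        rw [hv0 b hb] at h1
        rw [← h1, zero_smul, sub_zero] at hc
        exact ih hTB' v hc hv0
  exact key hTB v hvT h

lemma exists_ind (hB : IBas K W B) {T : IPow M V} (hT : IFin T) (hTB : T ⊆ B) :
    ∃ s, s ∈ W ∧ (∀ b, b ∈ T → coord K B b s = 1) ∧
      ∀ b, b ∈ B → ¬ b ∈ T → coord K B b s = 0 := by
  have key : T ⊆ B → ∃ s, s ∈ W ∧ (∀ b, b ∈ T → coord K B b s = 1) ∧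
      ∀ b, b ∈ B → ¬ b ∈ T → coord K B b s = 0 := by
    refine IFin.induction (p := fun T => T ⊆ B → ∃ s, s ∈ W ∧ (∀ b, b ∈ T → coord K B b s = 1) ∧
      ∀ b, b ∈ B → ¬ b ∈ T → coord K B b s = 0) (by fun_prop) ?_ ?_ hT
    · intro _
      exact ⟨0, hB.isub.1, fun b hb => absurd hb (notMem_empty b), fun b hb _ => coord_zero hB hb⟩
    · intro T b _ ih hTB
      have hb : b ∈ B := hTB b (Or.inl rfl)
      obtain ⟨s, hs, h1, h2⟩ := ih (fun x hx => hTB x (Or.inr hx))
      by_cases hbT : b ∈ T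
      · refine ⟨s, hs, ?_, ?_⟩
        · rintro x (rfl | hx)
          · exact h1 _ hbT
          · exact h1 _ hx
        · intro x hx hx'
          exact h2 x hx (fun h => hx' (Or.inr h))
      · refine ⟨s + b, hB.isub.2.1 _ _ hs (hB.sub b hb), ?_, ?_⟩
        · rintro x (rfl | hx)
          · rw [coord_add hB hb hs (hB.sub _ hb), h2 _ hb hbT, coord_self hB hb, zero_add]
          · have hxB : x ∈ B := hTB x (Or.inr hx)
            have hne : b ≠ x := fun h => hbT (by rwa [h])
            rw [coord_add hB hxB hs (hB.sub _ hb), h1 _ hx, coord_ne hB hxB hb hne, add_zero]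
        · intro x hx hx'
          have hne : b ≠ x := fun h => hx' (Or.inl h.symm)
          rw [coord_add hB hx hs (hB.sub _ hb), h2 _ hx (fun h => hx' (Or.inr h)),
            coord_ne hB hx hb hne, add_zero]
  exact key hTB

end

end Pool.Agent.Helper93.VB
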