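import Pool.Agent.Helper93.VB.Poly
import Pool.Agent.Helper93.VB.LinAlg

/-!
Blass: the existence of bases implies the axiom of multiple choice (also in the presence of atoms).
-/

universe u v w

namespace Pool.Agent.Helper93.VB

set_option linter.unusedSectionVars false

noncomputable section

variable {M : Type u} [LZ.Structure M] [hM : ZM M] {X : Type v} {I : Type w} [IType M X] [IType M I]

/-- Composition with a self-map of the set of assignments. -/
def cpA (p : Fn M X) (g : IFun M (As M X) (As M X)) : Fn M X :=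
  lam (fun a => p.ev (g.ev a)) (by fun_prop)

@[simp] lemma cpA_ev (p : Fn M X) (g : IFun M (As M X) (As M X)) (a : As M X) :
    (cpA p g).ev a = p.ev (g.ev a) := rfl

@[fun_prop] lemma im_cpA {α : Type*} [IType M α] {f : α → Fn M X}
    {g : α → IFun M (As M X) (As M X)} (hf : IM M f) (hg : IM M g) :
    IM M (fun x => cpA (f x) (g x)) := by
  unfold cpA
  fun_prop

/-- admissible substitutions -/
def Adm (g : IFun M (As M X) (As M X)) : Prop :=
  (∀ x, lam (fun a => (g.ev a).ev x) (by fun_prop) ∈ Rset M X) ∧ ∀ a, ∃ a', g.ev a' = a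

lemma cpA_mem {g : IFun M (As M X) (As M X)} (hg : Adm g) {p : Fn M X} (hp : p ∈ Rset M X) :
    cpA p g ∈ Rset M X := by
  refine Rset_ind (P := fun p => cpA p g ∈ Rset M X) (by fun_prop) ?_ ?_ ?_ ?_ hp
  · exact fun c => isSR_Rset.1 c
  · exact fun x => hg.1 x
  · exact fun p q _ _ h1 h2 => isSR_Rset.2.2.1 _ _ h1 h2
  · exact fun p q _ _ h1 h2 => isSR_Rset.2.2.2 _ _ h1 h2

/-- The endomorphism of the ring of polynomial functions given by a substitution. -/
def subR (g : IFun M (As M X) (As M X)) (hg : Adm g) : RT M X →+* RT M X where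
  toFun p := ⟨cpA p.1 g, cpA_mem hg p.2⟩
  map_one' := rfl
  map_mul' _ _ := rfl
  map_zero' := rfl
  map_add' _ _ := rfl

@[simp] lemma subR_ev (g : IFun M (As M X) (As M X)) (hg : Adm g) (p : RT M X) (a : As M X) :
    (subR g hg p).1.ev a = p.1.ev (g.ev a) := rfl

lemma subR_inj (g : IFun M (As M X) (As M X)) (hg : Adm g) :
    Function.Injective (subR g hg) := by
  intro p q h
  apply Subtype.ext
  ext a
  obtain ⟨a', rfl⟩ := hg.2 a
  have := congrArg (fun r : RT M X => r.1.ev a') h
  simpa using this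

variable (M X) in
/-- The field of rational functions. -/
abbrev KX := FractionRing (RT M X)

/-- The endomorphism of the field of rational functions given by a substitution. -/
def subK (g : IFun M (As M X) (As M X)) (hg : Adm g) : KX M X →+* KX M X :=
  IsFractionRing.lift (g := (algebraMap (RT M X) (KX M X)).comp (subR g hg))
    ((IsFractionRing.injective (RT M X) (KX M X)).comp (subR_inj g hg))

lemma subK_am (g : IFun M (As M X) (As M X)) (hg : Adm g) (p : RT M X) :
    subK g hg (algebraMap _ _ p) = algebraMap _ _ (subR g hg p) :=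
  IsFractionRing.lift_algebraMap _ _

lemma subK_frq (g : IFun M (As M X) (As M X)) (hg : Adm g) (p : RT M X × RT M X) :
    subK g hg (frq p) = frq (subR g hg p.1, subR g hg p.2) := by
  unfold frq
  rw [map_div₀, subK_am, subK_am]

@[fun_prop] lemma im_subK {α : Type*} [IType M α] {g : α → IFun M (As M X) (As M X)}
    {hg : ∀ x, Adm (g x)} {z : α → KX M X} (h1 : IM M g) (h2 : IM M z) :
    IM M (fun x => subK (g x) (hg x) (z x)) := by
  apply im_of_graph
  have h : IM M (fun x : α × KX M X => ∃ p q r s : RT M X, ¬ q = 0 ∧ frq (p, q) = z x.1 ∧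
      r.1 = cpA p.1 (g x.1) ∧ s.1 = cpA q.1 (g x.1) ∧ frq (r, s) = x.2) := by fun_prop
  convert h using 2 with x
  constructor
  · intro hx
    obtain ⟨⟨p, q⟩, hq, hz⟩ := frq_surj (z x.1)
    refine ⟨p, q, subR _ (hg x.1) p, subR _ (hg x.1) q, hq, hz, rfl, rfl, ?_⟩
    rw [← hx, ← hz, subK_frq]
  · rintro ⟨p, q, r, s, hq, hz, hr, hs, hx⟩
    rw [← hx, ← hz, subK_frq]
    congr 2
    · exact Subtype.ext hr.symm
    · exact Subtype.ext hs.symm

/-- translations -/
def tau (v : As M X) : IFun M (As M X) (As M X) := lam (fun a => a + v) (by fun_prop)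

@[simp] lemma tau_ev (v a : As M X) : (tau v).ev a = a + v := rfl

@[fun_prop] lemma im_tau {α : Type*} [IType M α] {f : α → As M X} (hf : IM M f) :
    IM M (fun x => tau (f x)) := by
  unfold tau
  fun_prop

lemma adm_tau (v : As M X) : Adm (tau v) := by
  refine ⟨fun x => ?_, fun a => ⟨a - v, by simp⟩⟩
  exact isSR_Rset.2.2.1 _ _ (isSR_Rset.2.1 x) (isSR_Rset.1 (v.ev x))

open Classical in
/-- sign change in a block of variables -/
def sig (π : IFun M X I) (i : I) : IFun M (As M X) (As M X) :=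
  lam (fun a => lam (fun x => if π.ev x = i then - a.ev x else a.ev x) (by fun_prop))
    (by fun_prop)

lemma sig_ev_pos {π : IFun M X I} {i : I} {a : As M X} {x : X} (h : π.ev x = i) :
    ((sig π i).ev a).ev x = - a.ev x := if_pos h

lemma sig_ev_neg {π : IFun M X I} {i : I} {a : As M X} {x : X} (h : ¬ π.ev x = i) :
    ((sig π i).ev a).ev x = a.ev x := if_neg h

@[fun_prop] lemma im_sig {α : Type*} [IType M α] {π : IFun M X I} {f : α → I} (hf : IM M f) :
    IM M (fun x => sig π (f x)) := by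
  unfold sig
  fun_prop

lemma adm_sig (π : IFun M X I) (i : I) : Adm (sig π i) := by
  constructor
  · intro x
    by_cases h : π.ev x = i
    · have h1 := isSR_Rset.2.2.2 _ _ (isSR_Rset.1 (-1)) ((isSR_Rset (M := M)).2.1 x)
      convert h1 using 1
      ext a
      simp [sig_ev_pos h]
    · have h1 := (isSR_Rset (M := M)).2.1 x
      convert h1 using 1
      ext a
      simp [sig_ev_neg h]
  · intro a
    refine ⟨(sig π i).ev a, ?_⟩
    ext x
    by_cases h : π.ev x = i
    · rw [sig_ev_pos h, sig_ev_pos h, neg_neg]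
    · rw [sig_ev_neg h, sig_ev_neg h]

/-- The field of rational functions that are even in each block. -/
def K0 (π : IFun M X I) : Subfield (KX M X) where
  carrier := {z | ∀ i, subK (sig π i) (adm_sig π i) z = z}
  mul_mem' := fun {a b} ha hb i => by rw [map_mul, ha i, hb i]
  one_mem' := fun i => map_one _
  add_mem' := fun {a b} ha hb i => by rw [map_add, ha i, hb i]
  zero_mem' := fun i => map_zero _
  neg_mem' := fun {a} ha i => by rw [map_neg, ha i]
  inv_mem' := fun a ha i => by rw [map_inv₀, ha i]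

/-- The field of rational functions that are even in each block. -/
def K0s (π : IFun M X I) : IPow M (KX M X) :=
  cmp (fun z => ∀ i, subK (sig π i) (adm_sig π i) z = z) (by fun_prop)

/-- The field of rational functions that are even in each block. -/
abbrev K0T (π : IFun M X I) := {z : KX M X // z ∈ K0s π}

instance (π : IFun M X I) : Field (K0T π) := inferInstanceAs (Field (K0 π))

instance (π : IFun M X I) : Module (K0T π) (KX M X) := inferInstanceAs (Module (K0 π) (KX M X))

lemma k0_smul (π : IFun M X I) (c : K0T π) (z : KX M X) : c • z = c.1 * z := rfl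

instance (π : IFun M X I) : IAdd M (K0T π) := ⟨by
  apply im_of_graph
  have h : IM M (fun x : (K0T π × K0T π) × K0T π => x.1.1.1 + x.1.2.1 = x.2.1) := by fun_prop
  convert h using 2 with x
  exact Subtype.ext_iff⟩

instance (π : IFun M X I) : IMul M (K0T π) := ⟨by
  apply im_of_graph
  have h : IM M (fun x : (K0T π × K0T π) × K0T π => x.1.1.1 * x.1.2.1 = x.2.1) := by fun_prop
  convert h using 2 with x
  exact Subtype.ext_iff⟩

instance (π : IFun M X I) : ISMul M (K0T π) (KX M X) := ⟨by
  simp only [k0_smul]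
  fun_prop⟩

/-- the variables, as rational functions -/
def xi (x : X) : KX M X := algebraMap (RT M X) (KX M X) ⟨crd M x, isSR_Rset.2.1 x⟩

@[fun_prop] lemma im_xi {α : Type*} [IType M α] {f : α → X} (hf : IM M f) :
    IM M (fun x => (xi (f x) : KX M X)) := by
  unfold xi
  fun_prop

lemma xi_ne (x : X) : (xi x : KX M X) ≠ 0 := by
  unfold xi
  rw [Ne, am_zero]
  intro h
  have h1 := congrArg (fun p : RT M X => p.1.ev (lam (fun _ => 1) (by fun_prop))) h
  simp at h1

lemma subK_xi (π : IFun M X I) (i : I) (x : X) :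
    (π.ev x = i → subK (sig π i) (adm_sig π i) (xi x) = - xi x) ∧
      (¬ π.ev x = i → subK (sig π i) (adm_sig π i) (xi x) = xi x) := by
  constructor
  · intro h
    unfold xi
    rw [subK_am, ← map_neg]
    congr 1
    apply Subtype.ext
    ext a
    rw [subR_ev, crd_ev, sig_ev_pos h, rt_neg, neg_ev, crd_ev]
  · intro h
    unfold xi
    rw [subK_am]
    congr 1
    apply Subtype.ext
    ext a
    rw [subR_ev, crd_ev, sig_ev_neg h, crd_ev]

lemma ratio_mem (π : IFun M X I) {x y : X} (h : π.ev x = π.ev y) : xi y / xi x ∈ K0s π := by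
  intro i
  rw [map_div₀]
  by_cases hx : π.ev x = i
  · rw [(subK_xi π i x).1 hx, (subK_xi π i y).1 (h ▸ hx), neg_div_neg_eq]
  · rw [(subK_xi π i x).2 hx, (subK_xi π i y).2 (h ▸ hx)]

open Classical in
/-- the assignment with value `c` at `x` and `0` elsewhere -/
def dlt (c : ZZ M) (x : X) : As M X := lam (fun y => if y = x then c else 0) (by fun_prop)

lemma dlt_self (c : ZZ M) (x : X) : (dlt c x).ev x = c := if_pos rfl
lemma dlt_ne (c : ZZ M) {x y : X} (h : y ≠ x) : (dlt c x).ev y = 0 := if_neg h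

@[fun_prop] lemma im_dlt {α : Type*} [IType M α] {f : α → ZZ M} {g : α → X} (hf : IM M f)
    (hg : IM M g) : IM M (fun x => dlt (f x) (g x)) := by
  unfold dlt
  fun_prop

/-- `z` depends on the variable `x`. -/
def dep (z : KX M X) (x : X) : Prop := ∃ c : ZZ M, ¬ subK (tau (dlt c x)) (adm_tau _) z = z

@[fun_prop] lemma im_dep {α : Type*} [IType M α] {f : α → KX M X} {g : α → X} (hf : IM M f)
    (hg : IM M g) : IM M (fun x => dep (f x) (g x)) := by
  unfold dep
  fun_prop

lemma exists_rep (z : KX M X) : ∃ (p q : RT M X) (Y : IPow M X), q ≠ 0 ∧ frq (p, q) = z ∧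
    IFin Y ∧ (∀ a a' : As M X, (∀ x, x ∈ Y → a.ev x = a'.ev x) → p.1.ev a = p.1.ev a') ∧
      ∀ a a' : As M X, (∀ x, x ∈ Y → a.ev x = a'.ev x) → q.1.ev a = q.1.ev a' := by
  obtain ⟨⟨p, q⟩, hq, hz⟩ := frq_surj z
  obtain ⟨Y, hY, h1⟩ := finite_dep p.2
  obtain ⟨Y', hY', h2⟩ := finite_dep q.2
  exact ⟨p, q, Y ∪ Y', hq, hz, hY.union hY', fun a a' h => h1 a a' (fun x hx => h x (Or.inl hx)),
    fun a a' h => h2 a a' (fun x hx => h x (Or.inr hx))⟩

lemma dep_finite (z : KX M X) : IFin (cmp (fun x => dep z x) (by fun_prop) : IPow M X) := by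
  obtain ⟨p, q, Y, hq, hz, hY, h1, h2⟩ := exists_rep z
  refine hY.subset ?_
  rintro x ⟨c, hc⟩
  by_contra hx
  apply hc
  rw [← hz, subK_frq]
  have key : ∀ a : As M X, ∀ y, y ∈ Y → (a + dlt c x).ev y = a.ev y := by
    intro a y hy
    have : y ≠ x := fun h => hx (by rwa [← h])
    rw [add_ev, dlt_ne c this, add_zero]
  congr 2
  · apply Subtype.ext
    ext a
    rw [subR_ev, tau_ev]
    exact h1 _ _ (key a)
  · apply Subtype.ext
    ext a
    rw [subR_ev, tau_ev]
    exact h2 _ _ (key a)

lemma inv_translation {z : KX M X} {S : IPow M X} (hS : ∀ x, x ∈ S → ¬ dep z x) {Y : IPow M X}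
    (hY : IFin Y) : Y ⊆ S → ∀ v : As M X, (∀ x, ¬ x ∈ Y → v.ev x = 0) →
      subK (tau v) (adm_tau v) z = z := by
  refine IFin.induction (p := fun Y => Y ⊆ S → ∀ v : As M X, (∀ x, ¬ x ∈ Y → v.ev x = 0) →
      subK (tau v) (adm_tau v) z = z) (by fun_prop) ?_ ?_ hY
  · intro _ v hv
    obtain ⟨⟨p, q⟩, hq, rfl⟩ := frq_surj z
    rw [subK_frq]
    have hv0 : ∀ a : As M X, a + v = a := by
      intro a
      ext x
      rw [add_ev, hv x (notMem_empty x), add_zero]
    congr 2
    · apply Subtype.ext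
      ext a
      rw [subR_ev, tau_ev, hv0]
    · apply Subtype.ext
      ext a
      rw [subR_ev, tau_ev, hv0]
  · intro Y x _ ih hYS v hv
    have hx : ¬ dep z x := hS x (hYS x (Or.inl rfl))
    unfold dep at hx
    push Not at hx
    have hx' := hx (v.ev x)
    let v' : As M X := v - dlt (v.ev x) x
    have hv' : ∀ y, ¬ y ∈ Y → v'.ev y = 0 := by
      intro y hy
      by_cases hyx : y = x
      · rw [hyx]
        show (v - dlt (v.ev x) x).ev x = 0
        rw [sub_ev, dlt_self, sub_self]
      · show (v - dlt (v.ev x) x).ev y = 0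
        rw [sub_ev, dlt_ne _ hyx, sub_zero]
        apply hv
        rintro (h | h)
        · exact hyx h
        · exact hy h
    have h1 := ih (fun y hy => hYS y (Or.inr hy)) v' hv'
    -- composition of translations
    have h2 : subK (tau v) (adm_tau v) z =
        subK (tau (dlt (v.ev x) x)) (adm_tau _) (subK (tau v') (adm_tau v') z) := by
      obtain ⟨⟨p, q⟩, hq, rfl⟩ := frq_surj z
      rw [subK_frq, subK_frq, subK_frq]
      have hvv : ∀ a : As M X, a + dlt (v.ev x) x + v' = a + v := by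
        intro a
        show a + dlt (v.ev x) x + (v - dlt (v.ev x) x) = a + v
        abel
      congr 2
      · apply Subtype.ext
        ext a
        rw [subR_ev, subR_ev, subR_ev, tau_ev, tau_ev, tau_ev, hvv]
      · apply Subtype.ext
        ext a
        rw [subR_ev, subR_ev, subR_ev, tau_ev, tau_ev, tau_ev, hvv]
    rw [h2, h1, hx']

open Classical in
lemma inv_sig (π : IFun M X I) (i : I) {z : KX M X} (hz : ∀ x, π.ev x = i → ¬ dep z x) :
    subK (sig π i) (adm_sig π i) z = z := by
  obtain ⟨p, q, Y, hq, hzf, hY, h1, h2⟩ := exists_rep z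
  let S : IPow M X := cmp (fun x => π.ev x = i) (by fun_prop)
  have hS : ∀ x, x ∈ S → ¬ dep z x := fun x hx => hz x hx
  have hYS : IFin (Y ∩ S) := hY.subset (fun x hx => hx.1)
  have key : ∀ v : As M X, (∀ x, ¬ x ∈ Y ∩ S → v.ev x = 0) → ∀ a,
      p.1.ev (a + v) * q.1.ev a = p.1.ev a * q.1.ev (a + v) := by
    intro v hv a
    have h := inv_translation hS hYS (fun x hx => hx.2) v hv
    rw [← hzf, subK_frq, frq_eq] at h
    · have h' := congrArg (fun r : RT M X => r.1.ev a) h
      simpa using h'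
    · intro h0
      apply hq
      apply subR_inj _ (adm_tau v)
      rw [map_zero]
      exact h0
    · exact hq
  rw [← hzf, subK_frq, frq_eq]
  · apply Subtype.ext
    ext a
    let v : As M X := lam (fun x => if x ∈ Y ∩ S then -2 * a.ev x else 0) (by fun_prop)
    have hv : ∀ x, ¬ x ∈ Y ∩ S → v.ev x = 0 := fun x hx => if_neg hx
    have hav : ∀ x, x ∈ Y → (a + v).ev x = ((sig π i).ev a).ev x := by
      intro x hx
      by_cases hxi : π.ev x = i
      · rw [sig_ev_pos hxi, add_ev]
        have : v.ev x = -2 * a.ev x := if_pos ⟨hx, hxi⟩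
        rw [this]
        ring
      · rw [sig_ev_neg hxi, add_ev, hv x (fun h => hxi h.2), add_zero]
    have h3 := key v hv a
    rw [h1 _ _ hav, h2 _ _ hav] at h3
    simpa using h3
  · intro h0
    apply hq
    apply subR_inj _ (adm_sig π i)
    rw [map_zero]
    exact h0
  · exact hq

lemma two_ne : (2 : KX M X) ≠ 0 := by
  intro h
  have h1 : algebraMap (RT M X) (KX M X) 2 = 0 := by rw [map_ofNat]; exact h
  rw [am_zero] at h1
  have h2 := congrArg (fun p : RT M X => p.1.ev 0) h1
  have h3 : (1 + 1 : RT M X).1.ev 0 = 0 := by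
    rw [one_add_one_eq_two]
    exact h2
  rw [rt_add, rt_one, add_ev, one_ev, one_add_one_eq_two] at h3
  exact two_ne_zero h3

/-- Multiple choice for the fibres of an internal map. -/
theorem mc_fibres (hVB : VB M) (π : IFun M X I) : ∃ F : IPow M X,
    (∀ x, IFin (F ∩ cmp (fun y => π.ev y = π.ev x) (by fun_prop))) ∧
      ∀ x, ∃ y, y ∈ F ∧ π.ev y = π.ev x := by
  obtain ⟨B, hB⟩ := exists_ibas (K := K0T π) (V := KX M X) hVB
    (cmp (fun _ => True) (by fun_prop)) ⟨trivial, fun _ _ _ _ => trivial, fun _ _ _ => trivial⟩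
  let γ : KX M X → X → KX M X := fun b x => (coord (K0T π) B b (xi x)).1 / xi x
  have hγ : IM M (fun p : KX M X × X => γ p.1 p.2) := by
    show IM M (fun p : KX M X × X => (coord (K0T π) B p.1 (xi p.2)).1 / xi p.2)
    fun_prop
  have hdep : IM M (fun x : X => ∃ b, b ∈ B ∧ dep (γ b x) x) := by
    show IM M (fun x : X => ∃ b, b ∈ B ∧ dep ((coord (K0T π) B b (xi x)).1 / xi x) x)
    fun_prop
  -- the ratios do not depend on the point of the block
  have hconst : ∀ b, b ∈ B → ∀ x y, π.ev x = π.ev y → γ b x = γ b y := by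
    intro b hb x y hxy
    have h1 : xi y = (⟨xi y / xi x, ratio_mem π hxy⟩ : K0T π) • (xi x : KX M X) := by
      rw [k0_smul]
      exact (div_mul_cancel₀ _ (xi_ne x)).symm
    have h2 := coord_smul (K := K0T π) hB hb (v := xi x) trivial ⟨xi y / xi x, ratio_mem π hxy⟩
    rw [← h1] at h2
    show (coord (K0T π) B b (xi x)).1 / xi x = (coord (K0T π) B b (xi y)).1 / xi y
    rw [h2]
    have h3 : ((⟨xi y / xi x, ratio_mem π hxy⟩ : K0T π) * coord (K0T π) B b (xi x)).1 =
      xi y / xi x * (coord (K0T π) B b (xi x)).1 := rfl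
    rw [h3]
    have hx := xi_ne (M := M) x
    have hy := xi_ne (M := M) y
    field_simp
  refine ⟨cmp (fun x => ∃ b, b ∈ B ∧ dep (γ b x) x) hdep, ?_, ?_⟩
  · intro x
    have hfin : IFin (bUn (supp (K0T π) B (xi x)) (fun b => cmp (fun y => dep (γ b x) y) (by
        show IM M (fun y => dep ((coord (K0T π) B b (xi x)).1 / xi x) y)
        fun_prop)) (by
        show IM M (fun b => cmp (fun y => dep ((coord (K0T π) B b (xi x)).1 / xi x) y) _)
        fun_prop)) := by
      refine IFin.bUn (supp_finite hB trivial) ?_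
      intro b _
      exact dep_finite _
    refine hfin.subset ?_
    rintro y ⟨⟨b, hb, hd⟩, hy⟩
    have hy' : π.ev y = π.ev x := hy
    rw [hconst b hb y x hy'] at hd
    refine ⟨b, ⟨hb, ?_⟩, hd⟩
    intro h0
    obtain ⟨c, hc⟩ := hd
    apply hc
    have h1 : γ b x = 0 := by
      show (coord (K0T π) B b (xi x)).1 / xi x = 0
      rw [h0]
      show (0 : KX M X) / xi x = 0
      simp
    rw [h1, map_zero]
  · intro x
    -- the support of `xi x` is nonempty
    have h1 : ∃ b, b ∈ B ∧ ¬ coord (K0T π) B b (xi x) = 0 := by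
      by_contra hcon
      push Not at hcon
      exact xi_ne (M := M) x (eq_zero_of_coord hB trivial hcon)
    obtain ⟨b, hb, hb0⟩ := h1
    by_contra hcon
    have h2 : ∀ y, π.ev y = π.ev x → ¬ dep (γ b x) y := by
      intro y hy hd
      apply hcon
      refine ⟨y, ⟨b, hb, ?_⟩, hy⟩
      rw [hconst b hb y x hy]
      exact hd
    have h3 := inv_sig π (π.ev x) h2
    have h4 : subK (sig π (π.ev x)) (adm_sig π (π.ev x)) (γ b x) = - γ b x := by
      show subK (sig π (π.ev x)) (adm_sig π (π.ev x))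
        ((coord (K0T π) B b (xi x)).1 / xi x) = - ((coord (K0T π) B b (xi x)).1 / xi x)
      rw [map_div₀, (subK_xi π _ x).1 rfl, (coord (K0T π) B b (xi x)).2 (π.ev x), div_neg]
    rw [h3] at h4
    have h5 : (2 : KX M X) * γ b x = 0 := by linear_combination h4
    rcases mul_eq_zero.1 h5 with h6 | h6
    · exact two_ne h6
    · apply hb0
      have h7 : (coord (K0T π) B b (xi x)).1 / xi x = 0 := h6
      rw [div_eq_zero_iff] at h7
      rcases h7 with h7 | h7
      · exact Subtype.ext h7
      · exact absurd h7 (xi_ne x)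

/-- The axiom of multiple choice. -/
theorem exists_mc (hVB : VB M) (α : Type v) [IType M α] :
    ∃ mc : IFun M (IPow M α) (IPow M α), ∀ S, (∃ x, x ∈ S) →
      mc.ev S ⊆ S ∧ IFin (mc.ev S) ∧ ∃ x, x ∈ mc.ev S := by
  let E : IPow M (IPow M α × α) := cmp (fun p => p.2 ∈ p.1) (by fun_prop)
  obtain ⟨F, h1, h2⟩ := mc_fibres (X := {p : IPow M α × α // p ∈ E}) (I := IPow M α) hVB
    (lam (fun p => p.1.1) (by fun_prop))
  let mc : IFun M (IPow M α) (IPow M α) := lam (fun S =>
    cmp (fun x => ∃ p, p ∈ F ∧ p.1.1 = S ∧ p.1.2 = x) (by fun_prop)) (by fun_prop)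
  refine ⟨mc, fun S hS => ?_⟩
  obtain ⟨x, hx⟩ := hS
  refine ⟨?_, ?_, ?_⟩
  · rintro y ⟨p, _, hpS, rfl⟩
    rw [← hpS]
    exact p.2
  · have h3 := (h1 ⟨(S, x), hx⟩).img (f := fun p => p.1.2) (hf := by fun_prop)
    refine h3.subset ?_
    rintro y ⟨p, hp, hpS, rfl⟩
    exact ⟨p, ⟨hp, hpS⟩, rfl⟩
  · obtain ⟨p, hp, hpS⟩ := h2 ⟨(S, x), hx⟩
    exact ⟨p.1.2, p, hp, hpS, rfl⟩

end

end Pool.Agent.Helper93.VB
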