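import Pool.Agent.Helper93.VB.Alg

/-!
Linear subspaces and bases of internal vector spaces, and the consequence of `VB M` for them.
-/

universe u v w

namespace Pool.Agent.Helper93.VB

set_option linter.unusedSectionVars false

noncomputable section

section

variable {M : Type u} [LZ.Structure M] {α β γ δ : Type*} [IType M α] [IType M β] [IType M γ]
  [IType M δ] [hM : ZM M]

lemma op_gr (f : IFun M (α × β) γ) (x y z : M) :
    Op f.gr x y z ↔ ∃ a b, cd M a = x ∧ cd M b = y ∧ cd M (f.ev (a, b)) = z := by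
  unfold Op
  simp only [isPair_iff, exists_eq_left, app_iff, f.mem_gr]
  constructor
  · rintro ⟨⟨⟨a, b⟩, c⟩, h, h'⟩
    rw [cd_prod, opair_inj, cd_prod, opair_inj] at h'
    have h1 : f.ev (a, b) = c := h
    exact ⟨a, b, h'.1.1, h'.1.2, by rw [h1]; exact h'.2⟩
  · rintro ⟨a, b, rfl, rfl, rfl⟩
    exact ⟨((a, b), f.ev (a, b)), rfl, rfl⟩

lemma op_gr' (f : IFun M (α × β) γ) (a : α) (b : β) (c : γ) :
    Op f.gr (cd M a) (cd M b) (cd M c) ↔ f.ev (a, b) = c := by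
  rw [op_gr]
  constructor
  · rintro ⟨a', b', h1, h2, h3⟩
    rw [cd_inj] at h1 h2 h3
    rw [← h1, ← h2, h3]
  · rintro rfl
    exact ⟨a, b, rfl, rfl, rfl⟩

lemma isOp_gr (f : IFun M (α × β) γ) : IsOp f.gr (cr M α) (cr M β) (cr M γ) := by
  refine ⟨f.isSet_gr, ?_, ?_⟩
  · intro p hp
    obtain ⟨⟨⟨a, b⟩, c⟩, h, rfl⟩ := f.mem_gr.1 hp
    exact ⟨_, _, _, _, cd_mem a, cd_mem b, cd_mem c, isPair_opair _ _, isPair_opair _ _⟩
  · intro x y hx hy
    obtain ⟨a, rfl⟩ := mem_cr.1 hx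
    obtain ⟨b, rfl⟩ := mem_cr.1 hy
    refine ⟨_, (op_gr' f a b _).2 rfl, fun z hz => ?_⟩
    obtain ⟨a', b', h1, h2, h3⟩ := (op_gr _ _ _ _).1 hz
    rw [cd_inj] at h1 h2
    rw [← h3, h1, h2]

variable (M) in
/-- the code of addition -/
def addc (V : Type*) [IType M V] [Add V] [IAdd M V] : M :=
  (lam (fun p : V × V => p.1 + p.2) (by fun_prop) : IFun M (V × V) V).gr

variable (M) in
/-- the code of multiplication -/
def mulc (V : Type*) [IType M V] [Mul V] [IMul M V] : M :=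
  (lam (fun p : V × V => p.1 * p.2) (by fun_prop) : IFun M (V × V) V).gr

variable (M) in
/-- the code of scalar multiplication -/
def smulc (K V : Type*) [IType M K] [IType M V] [SMul K V] [ISMul M K V] : M :=
  (lam (fun p : K × V => p.1 • p.2) (by fun_prop) : IFun M (K × V) V).gr

end

section

variable {M : Type u} [LZ.Structure M] [hM : ZM M] {K V : Type*} [IType M K] [IType M V]

section
variable [AddCommGroup V] [IAdd M V]

lemma addc_iff {x y z : V} : Op (addc M V) (cd M x) (cd M y) (cd M z) ↔ x + y = z := op_gr' _ _ _ _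

lemma addc_cd {x y z : M} (h : Op (addc M V) x y z) :
    ∃ a b : V, cd M a = x ∧ cd M b = y ∧ cd M (a + b) = z := (op_gr _ _ _ _).1 h

lemma isZero_iff {z : M} : IsZero (cr M V) (addc M V) z ↔ z = cd M (0 : V) := by
  constructor
  · rintro ⟨h1, h2⟩
    obtain ⟨a, rfl⟩ := mem_cr.1 h1
    have := h2 (cd M (0 : V)) (cd_mem _)
    rw [addc_iff] at this
    rw [zero_add] at this
    rw [this]
  · rintro rfl
    refine ⟨cd_mem _, fun x hx => ?_⟩
    obtain ⟨a, rfl⟩ := mem_cr.1 hx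
    rw [addc_iff, add_zero]

lemma isAbGroup : IsAbGroup (cr M V) (addc M V) where
  isSet := IType.isSet_car
  isOp := isOp_gr _
  comm := by
    intro x y z h
    obtain ⟨a, b, rfl, rfl, rfl⟩ := addc_cd h
    rw [addc_iff, add_comm]
  assoc := by
    intro x y z xy yz w h1 h2 h3
    obtain ⟨a, b, rfl, rfl, rfl⟩ := addc_cd h1
    obtain ⟨d, e, h4, rfl, rfl⟩ := addc_cd h2
    obtain ⟨f, g, h5, h6, rfl⟩ := addc_cd h3
    rw [cd_inj] at h4 h5 h6
    subst h4 h5 h6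
    rw [addc_iff]
    abel
  zero := ⟨_, isZero_iff.2 rfl⟩
  neg := by
    intro z hz x hx
    rw [isZero_iff] at hz
    obtain ⟨a, rfl⟩ := mem_cr.1 hx
    subst hz
    exact ⟨cd M (-a), cd_mem _, by rw [addc_iff, add_neg_cancel]⟩

end

variable [Field K] [IAdd M K] [IMul M K]

lemma mulc_iff {x y z : K} : Op (mulc M K) (cd M x) (cd M y) (cd M z) ↔ x * y = z := op_gr' _ _ _ _

lemma mulc_cd {x y z : M} (h : Op (mulc M K) x y z) :
    ∃ a b : K, cd M a = x ∧ cd M b = y ∧ cd M (a * b) = z := (op_gr _ _ _ _).1 h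

lemma isUnit_iff {z : M} : IsUnitElt (cr M K) (mulc M K) z ↔ z = cd M (1 : K) := by
  constructor
  · rintro ⟨h1, h2⟩
    obtain ⟨a, rfl⟩ := mem_cr.1 h1
    have := h2 (cd M (1 : K)) (cd_mem _)
    rw [mulc_iff] at this
    rw [one_mul] at this
    rw [this]
  · rintro rfl
    refine ⟨cd_mem _, fun x hx => ?_⟩
    obtain ⟨a, rfl⟩ := mem_cr.1 hx
    rw [mulc_iff, mul_one]

lemma isFld : IsFld (cr M K) (addc M K) (mulc M K) where
  add := isAbGroup
  isOp := isOp_gr _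
  comm := by
    intro x y z h
    obtain ⟨a, b, rfl, rfl, rfl⟩ := mulc_cd h
    rw [mulc_iff, mul_comm]
  assoc := by
    intro x y z xy yz w h1 h2 h3
    obtain ⟨a, b, rfl, rfl, rfl⟩ := mulc_cd h1
    obtain ⟨d, e, h4, rfl, rfl⟩ := mulc_cd h2
    obtain ⟨f, g, h5, h6, rfl⟩ := mulc_cd h3
    rw [cd_inj] at h4 h5 h6
    subst h4 h5 h6
    rw [mulc_iff]
    ring
  distrib := by
    intro x y z yz w xy xz h1 h2 h3 h4
    obtain ⟨a, b, rfl, rfl, rfl⟩ := addc_cd h1
    obtain ⟨d, e, rfl, h5, rfl⟩ := mulc_cd h2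
    obtain ⟨f, g, h6, h7, rfl⟩ := mulc_cd h3
    obtain ⟨p, q, h8, h9, rfl⟩ := mulc_cd h4
    rw [cd_inj] at h5 h6 h7 h8 h9
    subst h5 h6 h7 h8 h9
    rw [addc_iff]
    ring
  one := by
    refine ⟨_, isUnit_iff.2 rfl, ?_⟩
    rw [isZero_iff, cd_inj]
    exact one_ne_zero
  inv := by
    intro e he x hx hx0
    rw [isUnit_iff] at he
    subst he
    obtain ⟨a, rfl⟩ := mem_cr.1 hx
    rw [isZero_iff, cd_inj] at hx0
    exact ⟨cd M a⁻¹, cd_mem _, by rw [mulc_iff, mul_inv_cancel₀ hx0]⟩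

variable [AddCommGroup V] [IAdd M V] [Module K V] [ISMul M K V]

lemma smulc_iff {x : K} {y z : V} :
    Op (smulc M K V) (cd M x) (cd M y) (cd M z) ↔ x • y = z := op_gr' _ _ _ _

lemma smulc_cd {x y z : M} (h : Op (smulc M K V) x y z) :
    ∃ (a : K) (b : V), cd M a = x ∧ cd M b = y ∧ cd M (a • b) = z := (op_gr _ _ _ _).1 h

lemma isVSpace : IsVSpace (cr M K) (addc M K) (mulc M K) (cr M V) (addc M V) (smulc M K V) where
  add := isAbGroup
  isOp := isOp_gr _
  add_smul := by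
    intro x y xy v w xv yv h1 h2 h3 h4
    obtain ⟨a, b, rfl, rfl, rfl⟩ := addc_cd h1
    obtain ⟨d, e, h5, rfl, rfl⟩ := smulc_cd h2
    obtain ⟨f, g, h6, h7, rfl⟩ := smulc_cd h3
    obtain ⟨p, q, h8, h9, rfl⟩ := smulc_cd h4
    rw [cd_inj] at h5 h6 h7 h8 h9
    subst h5 h6 h7 h8 h9
    rw [addc_iff, add_smul]
  smul_add := by
    intro x v w vw u xv xw h1 h2 h3 h4
    obtain ⟨a, b, rfl, rfl, rfl⟩ := addc_cd h1
    obtain ⟨d, e, rfl, h5, rfl⟩ := smulc_cd h2
    obtain ⟨f, g, h6, h7, rfl⟩ := smulc_cd h3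
    obtain ⟨p, q, h8, h9, rfl⟩ := smulc_cd h4
    rw [cd_inj] at h5 h6 h7 h8 h9
    subst h5 h6 h7 h8 h9
    rw [addc_iff, smul_add]
  mul_smul := by
    intro x y xy v u yv h1 h2 h3
    obtain ⟨a, b, rfl, rfl, rfl⟩ := mulc_cd h1
    obtain ⟨d, e, h5, rfl, rfl⟩ := smulc_cd h2
    obtain ⟨f, g, h6, h7, rfl⟩ := smulc_cd h3
    rw [cd_inj] at h5 h6 h7
    subst h5 h6 h7
    rw [smulc_iff, mul_smul]
  one_smul := by
    intro e he v hv
    rw [isUnit_iff] at he
    subst he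
    obtain ⟨a, rfl⟩ := mem_cr.1 hv
    rw [smulc_iff, one_smul]

variable (K) in
/-- internal linear subspaces -/
def ISub (W : IPow M V) : Prop :=
  (0 : V) ∈ W ∧ (∀ v w, v ∈ W → w ∈ W → v + w ∈ W) ∧ ∀ (c : K) v, v ∈ W → c • v ∈ W

@[fun_prop] lemma im_isub {α : Type*} [IType M α] {f : α → IPow M V} (hf : IM M f) :
    IM M (fun x => ISub K (f x)) := by
  unfold ISub
  fun_prop

variable (K) in
/-- the internal linear span -/
def spn (S : IPow M V) : IPow M V :=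
  cmp (fun v => ∀ W : IPow M V, ISub K W → S ⊆ W → v ∈ W) (by fun_prop)

@[fun_prop] lemma im_spn {α : Type*} [IType M α] {f : α → IPow M V} (hf : IM M f) :
    IM M (fun x => spn K (f x)) := by
  unfold spn
  fun_prop

lemma spn_min {S W : IPow M V} (hW : ISub K W) (h : S ⊆ W) : spn K S ⊆ W :=
  fun _ hv => hv W hW h

lemma subset_spn (S : IPow M V) : S ⊆ spn K S := fun v hv _ _ h => h v hv

lemma isub_spn (S : IPow M V) : ISub K (spn K S) :=
  ⟨fun _ hW _ => hW.1, fun _ _ hv hw W hW h => hW.2.1 _ _ (hv W hW h) (hw W hW h),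
    fun _ _ hv W hW h => hW.2.2 _ _ (hv W hW h)⟩

lemma spn_mono {S T : IPow M V} (h : S ⊆ T) : spn K S ⊆ spn K T :=
  spn_min (isub_spn T) (fun v hv => subset_spn T v (h v hv))

variable (K) in
/-- `B` is a basis of the subspace `W`. -/
def IBas (W B : IPow M V) : Prop :=
  spn K B = W ∧ ∀ b, b ∈ B → ¬ b ∈ spn K (B \ {b})

@[fun_prop] lemma im_ibas {α : Type*} [IType M α] {f g : α → IPow M V} (hf : IM M f)
    (hg : IM M g) : IM M (fun x => IBas K (f x) (g x)) := by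
  unfold IBas
  fun_prop

lemma isSubsp_of {W : IPow M V} (hW : ISub K W) : ∃ w : M,
    IsSubsp (cr M K) (cr M V) (addc M V) (smulc M K V) w ∧ ∀ v : V, Mem (cd M v) w ↔ v ∈ W := by
  obtain ⟨w, hw, hw'⟩ := (IM.pred_iff.1 W.im).exists_code
  have key : ∀ v : V, Mem (cd M v) w ↔ v ∈ W := by
    intro v
    rw [hw']
    constructor
    · rintro ⟨a, h1, h2⟩
      rw [cd_inj] at h2
      rwa [← h2]
    · intro h
      exact ⟨v, h, rfl⟩
  refine ⟨w, ⟨hw, ?_, ?_, ?_, ?_⟩, key⟩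
  · intro v hv
    obtain ⟨a, h1, rfl⟩ := (hw' v).1 hv
    exact cd_mem a
  · intro z hz
    rw [isZero_iff] at hz
    subst hz
    exact (key _).2 hW.1
  · intro v x y hv hx h
    obtain ⟨a, b, rfl, rfl, rfl⟩ := addc_cd h
    rw [key] at hv hx ⊢
    exact hW.2.1 _ _ hv hx
  · intro x v y _ hv h
    obtain ⟨a, b, rfl, rfl, rfl⟩ := smulc_cd h
    rw [key] at hv ⊢
    exact hW.2.2 _ _ hv

lemma isub_of {w : M} (hw : IsSubsp (cr M K) (cr M V) (addc M V) (smulc M K V) w) :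
    ∃ W : IPow M V, ISub K W ∧ ∀ v : V, Mem (cd M v) w ↔ v ∈ W := by
  refine ⟨cmp (fun v => Mem (cd M v) w) (IM.pred_iff.2 ⟨w, fun _ => Iff.rfl⟩), ⟨?_, ?_, ?_⟩,
    fun v => Iff.rfl⟩
  · exact hw.zero _ (isZero_iff.2 rfl)
  · intro v x hv hx
    exact hw.add _ _ _ hv hx (addc_iff.2 rfl)
  · intro c v hv
    exact hw.smul _ _ _ (cd_mem c) hv (smulc_iff.2 rfl)

/-- `VB M` for internal vector spaces. -/
lemma exists_ibas_univ (hVB : VB M) (W : IPow M V) (hW : ∀ v, v ∈ W) :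
    ∃ B : IPow M V, IBas K W B := by
  obtain ⟨b, hb⟩ := hVB _ _ _ _ _ _ isFld (isVSpace (K := K) (V := V) (M := M))
  let B : IPow M V := cmp (fun v => Mem (cd M v) b) (IM.pred_iff.2 ⟨b, fun _ => Iff.rfl⟩)
  refine ⟨B, ?_, ?_⟩
  · ext v
    refine ⟨fun _ => hW v, fun _ => ?_⟩
    intro W' hW' hBW'
    obtain ⟨w, hw, hw'⟩ := isSubsp_of hW'
    rw [← hw']
    refine hb.span w hw ?_ _ (cd_mem v)
    intro x hx
    obtain ⟨y, rfl⟩ := mem_cr.1 (hb.subset x hx)
    rw [hw']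
    exact hBW' y hx
  · intro v hv
    obtain ⟨w, hw, h1, h2⟩ := hb.indep _ hv
    obtain ⟨W', hW', h3⟩ := isub_of hw
    rw [h3] at h2
    intro h4
    apply h2
    refine h4 W' hW' ?_
    intro x hx
    rw [← h3]
    refine h1 _ hx.1 ?_
    rw [Ne, cd_inj]
    exact hx.2

/-- `VB M` for subspaces of internal vector spaces. -/
theorem exists_ibas (hVB : VB M) (W : IPow M V) (hW : ISub K W) :
    ∃ B : IPow M V, IBas K W B := by
  let W' : Submodule K V :=
    { carrier := {v | v ∈ W}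
      add_mem' := fun {a b} ha hb => hW.2.1 a b ha hb
      zero_mem' := hW.1
      smul_mem' := fun c v hv => hW.2.2 c v hv }
  let iT : IType M W' := IType.ofInj (fun x : W' => x.1) Subtype.val_injective W
    (fun x => ⟨fun h => ⟨⟨x, h⟩, rfl⟩, fun ⟨b, h⟩ => h ▸ b.2⟩)
  have him : IM M (fun x : W' => x.1) := im_ofInj _ _ _ _
  have iA : IAdd M W' := ⟨by
    apply im_of_graph
    have h : IM M (fun x : (W' × W') × W' => x.1.1.1 + x.1.2.1 = x.2.1) := by
      apply im_eq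
      · apply im_add
        · exact im_comp him (by fun_prop)
        · exact im_comp him (by fun_prop)
      · exact im_comp him (by fun_prop)
    convert h using 2 with x
    exact Subtype.ext_iff⟩
  have iS : ISMul M K W' := ⟨by
    apply im_of_graph
    have h : IM M (fun x : (K × W') × W' => x.1.1 • x.1.2.1 = x.2.1) := by
      apply im_eq
      · apply im_smul
        · fun_prop
        · exact im_comp him (by fun_prop)
      · exact im_comp him (by fun_prop)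
    convert h using 2 with x
    exact Subtype.ext_iff⟩
  obtain ⟨B, hB⟩ := exists_ibas_univ (K := K) hVB
    (cmp (fun _ : W' => True) (by fun_prop)) (fun _ => trivial)
  -- transfer of subspaces
  have hup : ∀ X : IPow M V, ISub K X → ISub K (cmp (fun x : W' => x.1 ∈ X)
      (im_comp (g := fun v : V => v ∈ X) X.im him)) := by
    intro X hX
    refine ⟨hX.1, fun v w hv hw => hX.2.1 _ _ hv hw, fun c v hv => hX.2.2 _ _ hv⟩
  have hdn : ∀ X : IPow M W', ISub K X → ISub K (img (fun x : W' => x.1) him X) := by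
    intro X hX
    refine ⟨⟨0, hX.1, rfl⟩, ?_, ?_⟩
    · rintro _ _ ⟨x, hx, rfl⟩ ⟨y, hy, rfl⟩
      exact ⟨x + y, hX.2.1 _ _ hx hy, rfl⟩
    · rintro c _ ⟨x, hx, rfl⟩
      exact ⟨c • x, hX.2.2 _ _ hx, rfl⟩
  have hspn : ∀ S : IPow M W', ∀ v : W', v.1 ∈ spn K (img (fun x : W' => x.1) him S) ↔
      v ∈ spn K S := by
    intro S v
    constructor
    · intro h X hX hSX
      obtain ⟨x, hx, hxv⟩ := h _ (hdn X hX) (by
        rintro _ ⟨x, hx, rfl⟩
        exact ⟨x, hSX x hx, rfl⟩)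
      have : x = v := Subtype.ext hxv
      rwa [← this]
    · intro h X hX hSX
      exact h _ (hup X hX) (fun x hx => hSX _ ⟨x, hx, rfl⟩)
  refine ⟨img (fun x : W' => x.1) him B, ?_, ?_⟩
  · apply subset_antisymm
    · refine spn_min hW ?_
      rintro _ ⟨x, hx, rfl⟩
      exact x.2
    · intro v hv
      have h1 := (hspn B ⟨v, hv⟩).2
      apply h1
      rw [hB.1]
      trivial
  · rintro _ ⟨x, hx, rfl⟩ h
    apply hB.2 x hx
    rw [← hspn]
    refine spn_mono ?_ _ h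
    rintro _ ⟨⟨y, hy, rfl⟩, hyx⟩
    refine ⟨y, ⟨hy, ?_⟩, rfl⟩
    intro h3
    apply hyx
    rw [mem_singleton] at h3 ⊢
    rw [h3]

end

end

end Pool.Agent.Helper93.VB
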