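import Pool.Agent.Helper93.VB.Tree3

/-!
`VB` implies the axiom of choice.
-/

universe u v w

namespace Pool.Agent.Helper93.VB

set_option linter.unusedSectionVars false

noncomputable section

variable {M : Type u} [LZ.Structure M] [hM : ZM M]

lemma ifin_of_inj {α β : Type*} [IType M α] [IType M β] {S : IPow M α} {g : α → β}
    {hg : IM M g} (hinj : ∀ x y, x ∈ S → y ∈ S → g x = g y → x = y) (h : IFin (img g hg S)) :
    IFin S := by
  have h1 := h.bUn (f := fun y => cmp (fun x => x ∈ S ∧ g x = y) (by fun_prop))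
    (hf := by fun_prop) (by
      rintro _ ⟨x, hx, rfl⟩
      refine (ifin_singleton x).subset ?_
      rintro y ⟨hy, hyx⟩
      exact hinj y x hy hx hyx)
  refine h1.subset ?_
  intro x hx
  exact ⟨g x, ⟨x, hx, rfl⟩, hx, rfl⟩

section

variable {I U : Type*} [IType M I] [IType M U] (X : IFun M I (IPow M U))

variable (M I U) in
/-- relations -/
abbrev FF := IPow M (I × U)

/-- `f` is a choice function on `J`. -/
def PCF (J : IPow M I) (f : FF M I U) : Prop :=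
  (∀ p, p ∈ f → p.1 ∈ J ∧ p.2 ∈ X.ev p.1) ∧ (∀ i, i ∈ J → ∃ u, (i, u) ∈ f) ∧
    ∀ i u u', (i, u) ∈ f → (i, u') ∈ f → u = u'

@[fun_prop] lemma im_PCF {α : Type*} [IType M α] {J : α → IPow M I} {f : α → FF M I U}
    (hJ : IM M J) (hf : IM M f) : IM M (fun x => PCF X (J x) (f x)) := by
  unfold PCF
  fun_prop

/-- restriction -/
def rst (J : IPow M I) (f : FF M I U) : FF M I U := cmp (fun p => p ∈ f ∧ p.1 ∈ J) (by fun_prop)

@[simp] lemma mem_rst {J : IPow M I} {f : FF M I U} {p : I × U} :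
    p ∈ rst J f ↔ p ∈ f ∧ p.1 ∈ J := Iff.rfl

@[fun_prop] lemma im_rst {α : Type*} [IType M α] {J : α → IPow M I} {f : α → FF M I U}
    (hJ : IM M J) (hf : IM M f) : IM M (fun x => rst (J x) (f x)) := by
  unfold rst
  fun_prop

lemma rst_rst {J J' : IPow M I} (h : J ⊆ J') (f : FF M I U) : rst J (rst J' f) = rst J f := by
  ext p
  simp only [mem_rst]
  exact ⟨fun h1 => ⟨h1.1.1, h1.2⟩, fun h1 => ⟨⟨h1.1, h _ h1.2⟩, h1.2⟩⟩

variable {X}

lemma PCF.rst_self {J : IPow M I} {f : FF M I U} (h : PCF X J f) : rst J f = f := by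
  ext p
  simp only [mem_rst]
  exact ⟨fun h1 => h1.1, fun h1 => ⟨h1, (h.1 p h1).1⟩⟩

variable (X)

variable (M I U) in
/-- the order -/
abbrev PP := IPow M I × IPow M (FF M I U)

/-- finite nonempty sets of choice functions on subsets -/
def gd : IPow M (PP M I U) :=
  cmp (fun x => IFin x.2 ∧ (∃ f, f ∈ x.2) ∧ ∀ f, f ∈ x.2 → PCF X x.1 f) (by fun_prop)

variable (M I U) in
/-- the order -/
def ro : IPow M (PP M I U × PP M I U) :=
  cmp (fun p => p.1.1 ⊆ p.2.1 ∧ ¬ p.2.1 ⊆ p.1.1 ∧ ∀ f, f ∈ p.2.2 → rst p.1.1 f ∈ p.1.2)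
    (by fun_prop)

lemma ro_irrefl (x : PP M I U) : ¬ (x, x) ∈ ro M I U := fun h => h.2.1 h.1

lemma ro_trans (x y z : PP M I U) (h : (x, y) ∈ ro M I U) (h' : (y, z) ∈ ro M I U) :
    (x, z) ∈ ro M I U := by
  obtain ⟨h1, h2, h3⟩ := h
  obtain ⟨h1', h2', h3'⟩ := h'
  refine ⟨fun a ha => h1' a (h1 a ha), fun h => h2 (fun a ha => h a (h1' a ha)), fun f hf => ?_⟩
  have h4 := h3 _ (h3' f hf)
  have h1a : x.1 ⊆ y.1 := h1
  rw [rst_rst h1a] at h4
  exact h4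

variable {X}

section chain

variable {Cs : IPow M (PP M I U)} (hg : Cs ⊆ gd X)

/-- the linear order on a chain -/
@[instance_reducible] def chainOrder (hwo : IWO (ro M I U) Cs) :
    LinearOrder {x : PP M I U // x ∈ Cs} where
  le x y := x = y ∨ (x.1, y.1) ∈ ro M I U
  lt x y := (x.1, y.1) ∈ ro M I U
  le_refl x := Or.inl rfl
  le_trans x y z h1 h2 := by
    rcases h1 with rfl | h1
    · exact h2
    · rcases h2 with rfl | h2
      · exact Or.inr h1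
      · exact Or.inr (ro_trans _ _ _ h1 h2)
  lt_iff_le_not_ge x y := by
    constructor
    · intro h
      refine ⟨Or.inr h, ?_⟩
      rintro (rfl | h')
      · exact ro_irrefl _ h
      · exact ro_irrefl _ (ro_trans _ _ _ h h')
    · rintro ⟨rfl | h, h'⟩
      · exact absurd (Or.inl rfl) h'
      · exact h
  le_antisymm x y h1 h2 := by
    rcases h1 with rfl | h1
    · rfl
    · rcases h2 with rfl | h2
      · rfl
      · exact absurd (ro_trans _ _ _ h1 h2) (ro_irrefl _)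
  le_total x y := by
    rcases hwo.1 x.1 y.1 x.2 y.2 with h | h | h
    · exact Or.inl (Or.inr h)
    · exact Or.inl (Or.inl (Subtype.ext h))
    · exact Or.inr (Or.inr h)
  toDecidableLE := Classical.decRel _

/-- the elements of a chain -/
abbrev CT (Cs : IPow M (PP M I U)) := {x : PP M I U // x ∈ Cs}

/-- the eventual images -/
def ES (Cs : IPow M (PP M I U)) : IPow M (CT Cs × FF M I U) :=
  cmp (fun p => p.2 ∈ p.1.1.2 ∧ ∀ c' : CT Cs, (p.1 = c' ∨ (p.1.1, c'.1) ∈ ro M I U) →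
    ∃ f', f' ∈ c'.1.2 ∧ rst p.1.1.1 f' = p.2) (by fun_prop)

/-- the nodes of the tree -/
abbrev TT (Cs : IPow M (PP M I U)) := {p : CT Cs × FF M I U // p ∈ ES Cs}

include hg in
/-- The limit step. -/
lemma exists_limit (hwo : IWO (ro M I U) Cs) (hVB : VB M) : ∃ f : FF M I U,
    PCF X (cmp (fun i => ∃ c, c ∈ Cs ∧ i ∈ c.1) (by fun_prop)) f ∧
      ∀ c, c ∈ Cs → rst c.1 f ∈ c.2 := by
  let _ : LinearOrder (CT Cs) := chainOrder hwo
  have hltd : ∀ x y : CT Cs, x < y ↔ (x.1, y.1) ∈ ro M I U := fun _ _ => Iff.rfl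
  have _ : ILt M (CT Cs) := ⟨by
    simp only [hltd]
    fun_prop⟩
  have hJ : ∀ c d : CT Cs, c ≤ d → c.1.1 ⊆ d.1.1 := by
    intro c d h
    rcases h with rfl | h
    · exact fun a ha => ha
    · exact h.1
  have hP : ∀ (c : CT Cs) f, f ∈ c.1.2 → PCF X c.1.1 f := fun c f hf => (hg c.1 c.2).2.2 f hf
  have hD : ∀ c d : CT Cs, c ≤ d → ∀ f, f ∈ d.1.2 → rst c.1.1 f ∈ c.1.2 := by
    intro c d h f hf
    rcases h with rfl | h
    · rw [(hP c f hf).rst_self]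
      exact hf
    · exact h.2.2 f hf
  have hmemE : ∀ (c : CT Cs) (f : FF M I U), (c, f) ∈ ES Cs ↔ f ∈ c.1.2 ∧ ∀ c' : CT Cs, c ≤ c' →
      ∃ f', f' ∈ c'.1.2 ∧ rst c.1.1 f' = f := fun _ _ => Iff.rfl
  have hT1 : ∀ x : TT Cs, x.1.2 ∈ x.1.1.1.2 := fun x => x.2.1
  have hT2 : ∀ (x : TT Cs) (c' : CT Cs), x.1.1 ≤ c' →
      ∃ f', f' ∈ c'.1.2 ∧ rst x.1.1.1.1 f' = x.1.2 := fun x => x.2.2
  have hres : ∀ (c : CT Cs) (x : TT Cs), c ≤ x.1.1 → (c, rst c.1.1 x.1.2) ∈ ES Cs := by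
    intro c x hcd
    rw [hmemE]
    refine ⟨hD c x.1.1 hcd x.1.2 (hT1 x), fun e hce => ?_⟩
    rcases le_total x.1.1 e with h | h
    · obtain ⟨f', h1, h2⟩ := hT2 x e h
      exact ⟨f', h1, by rw [← h2, rst_rst (hJ c x.1.1 hcd)]⟩
    · exact ⟨rst e.1.1 x.1.2, hD e x.1.1 h x.1.2 (hT1 x), rst_rst (hJ c e hce) x.1.2⟩
  let resf : CT Cs × TT Cs → TT Cs := fun p => open Classical in
    if h : p.1 ≤ p.2.1.1 then ⟨(p.1, rst p.1.1.1 p.2.1.2), hres p.1 p.2 h⟩ else p.2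
  have resf_pos : ∀ (c : CT Cs) (x : TT Cs), c ≤ x.1.1 →
      (resf (c, x)).1 = (c, rst c.1.1 x.1.2) := by
    intro c x h
    have h' : resf (c, x) = ⟨(c, rst c.1.1 x.1.2), hres c x h⟩ := dif_pos h
    rw [h']
  have resf_neg : ∀ (c : CT Cs) (x : TT Cs), ¬ c ≤ x.1.1 → resf (c, x) = x :=
    fun c x h => dif_neg h
  have im_resf : IM M resf := by
    apply im_of_graph
    have h : IM M (fun x : (CT Cs × TT Cs) × TT Cs => (x.1.1 ≤ x.1.2.1.1 →
      x.2.1 = (x.1.1, rst x.1.1.1.1 x.1.2.1.2)) ∧ (¬ x.1.1 ≤ x.1.2.1.1 → x.2 = x.1.2)) := by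
      fun_prop
    convert h using 2 with x
    obtain ⟨⟨c, x⟩, y⟩ := x
    by_cases hc : c ≤ x.1.1
    · simp only [hc, true_implies, not_true_eq_false, false_implies, and_true]
      rw [← resf_pos c x hc, eq_comm, Subtype.ext_iff]
    · simp only [hc, false_implies, not_false_eq_true, true_implies, true_and]
      rw [resf_neg c x hc, eq_comm]
  let ℓ : IFun M (TT Cs) (CT Cs) := lam (fun x => x.1.1) (by fun_prop)
  let res : IFun M (CT Cs × TT Cs) (TT Cs) := lam resf im_resf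
  have hℓ : ∀ x : TT Cs, ℓ.ev x = x.1.1 := fun _ => rfl
  have hresv : ∀ (c : CT Cs) (x : TT Cs), c ≤ x.1.1 →
      (res.ev (c, x)).1 = (c, rst c.1.1 x.1.2) := resf_pos
  -- compactness
  have hcpt : ∀ (c : CT Cs) (f0 : FF M I U → Prop) (_ : IM M f0),
      (∀ c' : CT Cs, c ≤ c' → ∃ f', f' ∈ c'.1.2 ∧ f0 f') →
      (∀ c' d : CT Cs, c ≤ c' → c' ≤ d → ∀ f', f' ∈ d.1.2 → f0 f' → f0 (rst c'.1.1 f')) →
      ∃ f, f ∈ c.1.2 ∧ ∀ c' : CT Cs, c ≤ c' →
        ∃ f', f' ∈ c'.1.2 ∧ f0 f' ∧ rst c.1.1 f' = f := by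
    intro c f0 im0 hex hmono
    have im1 : IM M (fun c' : CT Cs => img (fun f' : FF M I U => rst c.1.1 f') (by fun_prop)
      (cmp (fun f' => f' ∈ c'.1.2 ∧ f0 f') (by fun_prop))) := by fun_prop
    obtain ⟨Y, ⟨c1, hc1, hY⟩, hmin⟩ := (hg c.1 c.2).1.chain
      (img (fun c' : CT Cs => img (fun f' : FF M I U => rst c.1.1 f') (by fun_prop)
        (cmp (fun f' => f' ∈ c'.1.2 ∧ f0 f') (by fun_prop))) im1
        (cmp (fun c' => c ≤ c') (by fun_prop))) (by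
        rintro _ ⟨c', hc', rfl⟩ _ ⟨f', hf', rfl⟩
        exact hD c c' hc' f' hf'.1) ⟨_, c, le_refl c, rfl⟩ (by
        rintro _ _ ⟨c', hc', rfl⟩ ⟨d', hd', rfl⟩
        have key : ∀ c' d' : CT Cs, c ≤ c' → c' ≤ d' →
          img (fun f' : FF M I U => rst c.1.1 f') (by fun_prop)
            (cmp (fun f' => f' ∈ d'.1.2 ∧ f0 f') (by fun_prop)) ⊆
          img (fun f' : FF M I U => rst c.1.1 f') (by fun_prop)
            (cmp (fun f' => f' ∈ c'.1.2 ∧ f0 f') (by fun_prop)) := by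
          rintro c' d' hcc hcd _ ⟨f', ⟨hf', hf0⟩, rfl⟩
          exact ⟨rst c'.1.1 f', ⟨hD c' d' hcd f' hf', hmono c' d' hcc hcd f' hf' hf0⟩,
            rst_rst (hJ c c' hcc) f'⟩
        rcases le_total c' d' with h | h
        · exact Or.inr (key c' d' hc' h)
        · exact Or.inl (key d' c' hd' h))
    obtain ⟨f', hf', hf0⟩ := hex c1 hc1
    have hmem : rst c.1.1 f' ∈ Y := by
      rw [← hY]
      exact ⟨f', ⟨hf', hf0⟩, rfl⟩
    refine ⟨rst c.1.1 f', hD c c1 hc1 f' hf', fun c' hc' => ?_⟩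
    obtain ⟨f'', ⟨h1, h2⟩, h3⟩ := hmin _ ⟨c', hc', rfl⟩ _ hmem
    exact ⟨f'', h1, h2, h3⟩
  have hT : IsTree ℓ res := by
    refine ⟨?_, ?_, ?_, ?_, ?_, ?_, ?_⟩
    · rintro D ⟨c0, hc0⟩
      obtain ⟨_, ⟨x, hx, rfl⟩, hmin⟩ := hwo.2 (img (fun c : CT Cs => c.1) (by fun_prop) D) (by
        rintro _ ⟨x, _, rfl⟩
        exact x.2) ⟨_, c0, hc0, rfl⟩
      refine ⟨x, hx, fun d hd => ?_⟩
      rw [← not_lt]
      exact hmin d.1 ⟨d, hd, rfl⟩
    · intro c x hc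
      rw [hℓ, hresv c x hc]
    · intro x
      apply Subtype.ext
      rw [hℓ, hresv _ x le_rfl]
      have h1 : rst x.1.1.1.1 x.1.2 = x.1.2 := (hP x.1.1 x.1.2 (hT1 x)).rst_self
      exact Prod.ext rfl h1
    · intro d c x hdc hc
      apply Subtype.ext
      have h1 := hresv c x hc
      have h2 : d ≤ (res.ev (c, x)).1.1 := by
        rw [h1]
        exact hdc
      rw [hresv d _ h2, hresv d x (hdc.trans hc), h1]
      exact Prod.ext rfl (rst_rst (hJ d c hdc) _)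
    · intro c
      refine ifin_of_inj (g := fun x : TT Cs => x.1.2) (hg := by fun_prop) ?_ ?_
      · intro x y hx hy hxy
        apply Subtype.ext
        apply Prod.ext
        · have h1 : x.1.1 = c := hx
          have h2 : y.1.1 = c := hy
          rw [h1, h2]
        · exact hxy
      · refine (hg c.1 c.2).1.subset ?_
        rintro _ ⟨x, hx, rfl⟩
        have h1 : x.1.1 = c := hx
        rw [← h1]
        exact hT1 x
    · intro c
      obtain ⟨f, hf, hf'⟩ := hcpt c (fun _ => True) (by fun_prop)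
        (fun c' _ => by
          obtain ⟨f', hf'⟩ := (hg c'.1 c'.2).2.1
          exact ⟨f', hf', trivial⟩) (fun _ _ _ _ _ _ _ => trivial)
      refine ⟨⟨(c, f), (hmemE c f).2 ⟨hf, fun c' hc' => ?_⟩⟩, rfl⟩
      obtain ⟨f', h1, _, h2⟩ := hf' c' hc'
      exact ⟨f', h1, h2⟩
    · intro x c hdc
      rw [hℓ] at hdc ⊢
      obtain ⟨f1, hf1, hf1'⟩ := hcpt c (fun f' => rst x.1.1.1.1 f' = x.1.2) (by fun_prop)
        (fun c' hc' => hT2 x c' (hdc.trans hc')) (fun c' e hcc' _ f' _ hff => by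
          rw [rst_rst (hJ x.1.1 c' (hdc.trans hcc'))]
          exact hff)
      refine ⟨⟨(c, f1), (hmemE c f1).2 ⟨hf1, fun c' hc' => ?_⟩⟩, rfl, ?_⟩
      · obtain ⟨f', h1, _, h2⟩ := hf1' c' hc'
        exact ⟨f', h1, h2⟩
      · apply Subtype.ext
        rw [hresv x.1.1 _ hdc]
        apply Prod.ext
        · rfl
        · show rst x.1.1.1.1 f1 = x.1.2
          obtain ⟨f', h1, h2, h3⟩ := hf1' c le_rfl
          rw [← h3, rst_rst (hJ x.1.1 c hdc), h2]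
  obtain ⟨t, ht1, ht2⟩ := exists_thread hVB hT
  -- the union of the thread
  have htc : ∀ c, (t.ev c).1.1 = c := ht1
  have htr : ∀ d c : CT Cs, d ≤ c → rst d.1.1 (t.ev c).1.2 = (t.ev d).1.2 := by
    intro d c hdc
    have h1 := ht2 d c hdc
    have h2 := hresv d (t.ev c) (by rw [htc]; exact hdc)
    rw [h1] at h2
    rw [h2]
  have htD : ∀ c : CT Cs, (t.ev c).1.2 ∈ c.1.2 := by
    intro c
    have h3 := hT1 (t.ev c)
    rwa [htc] at h3
  have htP : ∀ c, PCF X c.1.1 (t.ev c).1.2 := fun c => hP c _ (htD c)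
  let f : FF M I U := cmp (fun p => ∃ c : CT Cs, p ∈ (t.ev c).1.2) (by fun_prop)
  have hrf : ∀ c : CT Cs, rst c.1.1 f = (t.ev c).1.2 := by
    intro c
    ext p
    constructor
    · rintro ⟨⟨d, hd⟩, hp⟩
      rcases le_total c d with h | h
      · rw [← htr c d h]
        exact ⟨hd, hp⟩
      · rw [← htr d c h] at hd
        exact hd.1
    · intro hp
      exact ⟨⟨c, hp⟩, ((htP c).1 p hp).1⟩
  refine ⟨f, ⟨?_, ?_, ?_⟩, ?_⟩
  · rintro p ⟨c, hp⟩
    obtain ⟨h1, h2⟩ := (htP c).1 p hp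
    exact ⟨⟨c.1, c.2, h1⟩, h2⟩
  · rintro i ⟨c, hc, hi⟩
    obtain ⟨u, hu⟩ := (htP ⟨c, hc⟩).2.1 i hi
    exact ⟨u, ⟨c, hc⟩, hu⟩
  · rintro i u u' ⟨c, hc⟩ ⟨d, hd⟩
    rcases le_total c d with h | h
    · rw [← htr c d h] at hc
      exact (htP d).2.2 i u u' hc.1 hd
    · rw [← htr d c h] at hd
      exact (htP c).2.2 i u u' hc hd.1
  · intro c hc
    have h1 := hrf ⟨c, hc⟩
    have h2 : rst c.1 f = (t.ev ⟨c, hc⟩).1.2 := h1
    rw [h2]
    exact htD ⟨c, hc⟩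

end chain

/-- Internal form of the axiom of choice. -/
theorem exists_choice (hVB : VB M) (hX : ∀ i, ∃ u, u ∈ X.ev i) :
    ∃ f : IFun M I U, ∀ i, f.ev i ∈ X.ev i := by
  by_contra hno
  -- no choice function given by its graph
  have hno' : ∀ J : IPow M I, (∀ i, i ∈ J) → ¬ ∃ f, PCF X J f := by
    rintro J hJ ⟨f, h1, h2, h3⟩
    apply hno
    choose F hF using fun i => h2 i (hJ i)
    have hIM : IM M F := by
      apply im_of_graph
      have h : IM M (fun x : I × U => x ∈ f) := by fun_prop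
      convert h using 2 with x
      constructor
      · intro h
        have := hF x.1
        rw [h] at this
        exact this
      · intro h
        exact h3 _ _ _ (hF x.1) h
    exact ⟨⟨F, hIM⟩, fun i => (h1 _ (hF i)).2⟩
  obtain ⟨mcI, hmcI⟩ := exists_mc hVB I
  obtain ⟨mcU, hmcU⟩ := exists_mc hVB U
  obtain ⟨mcF, hmcF⟩ := exists_mc hVB (FF M I U)
  let Js : IPow M (PP M I U) → IPow M I := fun Cs => cmp (fun i => ∃ c, c ∈ Cs ∧ i ∈ c.1)
    (by fun_prop)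
  have imJ : IM M Js := by
    show IM M (fun Cs : IPow M (PP M I U) => cmp (fun i => ∃ c, c ∈ Cs ∧ i ∈ c.1) _)
    fun_prop
  let Ls : IPow M (PP M I U) → IPow M (FF M I U) := fun Cs =>
    cmp (fun f => PCF X (Js Cs) f ∧ ∀ c, c ∈ Cs → rst c.1 f ∈ c.2) (by fun_prop)
  have imL : IM M Ls := by
    show IM M (fun Cs : IPow M (PP M I U) =>
      cmp (fun f => PCF X (Js Cs) f ∧ ∀ c, c ∈ Cs → rst c.1 f ∈ c.2) _)
    fun_prop
  let Nw : IPow M (PP M I U) → IPow M I := fun Cs => mcI.ev (cmp (fun i => ¬ i ∈ Js Cs)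
    (by fun_prop))
  have imN : IM M Nw := by
    show IM M (fun Cs : IPow M (PP M I U) => mcI.ev (cmp (fun i => ¬ i ∈ Js Cs) _))
    fun_prop
  let Xf : IPow M (PP M I U) → IPow M (I × U) := fun Cs =>
    cmp (fun p : I × U => p.1 ∈ Nw Cs ∧ p.2 ∈ mcU.ev (X.ev p.1)) (by fun_prop)
  have imX : IM M Xf := by
    show IM M (fun Cs : IPow M (PP M I U) =>
      cmp (fun p : I × U => p.1 ∈ Nw Cs ∧ p.2 ∈ mcU.ev (X.ev p.1)) _)
    fun_prop
  let Ch : IPow M (PP M I U) → IPow M (FF M I U) := fun Cs =>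
    cmp (fun k => k ⊆ Xf Cs ∧ PCF X (Nw Cs) k) (by fun_prop)
  have imC : IM M Ch := by
    show IM M (fun Cs : IPow M (PP M I U) => cmp (fun k => k ⊆ Xf Cs ∧ PCF X (Nw Cs) k) _)
    fun_prop
  let g : IFun M (IPow M (PP M I U)) (PP M I U) := lam (fun Cs => (Js Cs ∪ Nw Cs,
    cmp (fun h => ∃ f k, f ∈ mcF.ev (Ls Cs) ∧ k ∈ Ch Cs ∧ h = f ∪ k) (by fun_prop)))
      (by fun_prop)
  refine no_upper (r := ro M I U) (good := gd X) (g := g) ro_irrefl ro_trans ?_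
  intro Cs hg hwo
  obtain ⟨f0, hf0, hf0'⟩ := exists_limit hg hwo hVB
  obtain ⟨hL1, hL2, f1, hf1⟩ := hmcF (Ls Cs) ⟨f0, hf0, hf0'⟩
  have hJne : ∃ i, ¬ i ∈ Js Cs := by
    by_contra hcon
    push Not at hcon
    exact hno' _ hcon ⟨f0, hf0⟩
  obtain ⟨hN1, hN2, i1, hi1⟩ := hmcI (cmp (fun i => ¬ i ∈ Js Cs) (by fun_prop)) hJne
  have hN1' : ∀ i, i ∈ Nw Cs → ¬ i ∈ Js Cs := fun i hi => hN1 i hi
  have hXfin : IFin (Xf Cs) := by
    have h := hN2.bUn (f := fun i => img (fun u => (i, u)) (by fun_prop) (mcU.ev (X.ev i)))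
      (hf := by fun_prop) (fun i _ => ((hmcU (X.ev i) (hX i)).2.1).img)
    refine h.subset ?_
    rintro ⟨i, u⟩ ⟨h1, h2⟩
    exact ⟨i, h1, u, h2, rfl⟩
  have hChfin : IFin (Ch Cs) := hXfin.pw.subset (fun k hk => hk.1)
  have hChne : ∃ k, k ∈ Ch Cs := by
    obtain ⟨G, h1, h2, h3⟩ := IFin.choice (Xf Cs) hN2 (fun i hi => by
      obtain ⟨u, hu⟩ := (hmcU (X.ev i) (hX i)).2.2
      exact ⟨u, hi, hu⟩)
    refine ⟨G, fun p hp => (h1 p hp).1, fun p hp => ⟨(h1 p hp).2, ?_⟩, h2, h3⟩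
    exact (hmcU (X.ev p.1) (hX p.1)).1 _ (h1 p hp).1.2
  obtain ⟨k1, hk1⟩ := hChne
  have hL : ∀ f, f ∈ mcF.ev (Ls Cs) → PCF X (Js Cs) f ∧ ∀ c, c ∈ Cs → rst c.1 f ∈ c.2 :=
    fun f hf => hL1 f hf
  refine ⟨⟨?_, ?_, ?_⟩, ?_⟩
  · have h := (hL2.prd hChfin).img (f := fun p => p.1 ∪ p.2) (hf := by fun_prop)
    refine h.subset ?_
    rintro _ ⟨f, k, hf, hk, rfl⟩
    exact ⟨(f, k), ⟨hf, hk⟩, rfl⟩
  · exact ⟨f1 ∪ k1, f1, k1, hf1, hk1, rfl⟩
  · rintro _ ⟨f, k, hf, hk, rfl⟩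
    obtain ⟨⟨h1, h2, h3⟩, _⟩ := hL f hf
    obtain ⟨_, h4, h5, h6⟩ := hk
    refine ⟨?_, ?_, ?_⟩
    · rintro p (hp | hp)
      · exact ⟨Or.inl (h1 p hp).1, (h1 p hp).2⟩
      · exact ⟨Or.inr (h4 p hp).1, (h4 p hp).2⟩
    · rintro i (hi | hi)
      · obtain ⟨u, hu⟩ := h2 i hi
        exact ⟨u, Or.inl hu⟩
      · obtain ⟨u, hu⟩ := h5 i hi
        exact ⟨u, Or.inr hu⟩
    · rintro i u u' (hu | hu) (hu' | hu')
      · exact h3 i u u' hu hu'
      · exact absurd (h1 _ hu).1 (hN1' i (h4 _ hu').1)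
      · exact absurd (h1 _ hu').1 (hN1' i (h4 _ hu).1)
      · exact h6 i u u' hu hu'
  · intro c hc
    have hcJ : c.1 ⊆ Js Cs := fun i hi => ⟨c, hc, hi⟩
    refine ⟨fun i hi => Or.inl (hcJ i hi), ?_, ?_⟩
    · intro hsub
      exact hN1' i1 hi1 (hcJ i1 (hsub i1 (Or.inr hi1)))
    · rintro _ ⟨f, k, hf, hk, rfl⟩
      have h1 : rst c.1 (f ∪ k) = rst c.1 f := by
        ext p
        constructor
        · rintro ⟨hp | hp, hpc⟩
          · exact ⟨hp, hpc⟩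
          · exact absurd (hcJ _ hpc) (hN1' _ (hk.2.1 p hp).1)
        · rintro ⟨hp, hpc⟩
          exact ⟨Or.inl hp, hpc⟩
      show rst c.1 (f ∪ k) ∈ c.2
      rw [h1]
      exact (hL f hf).2 c hc

end

/-- `VB` implies `AC`. -/
theorem ac_of_vb (hVB : VB M) : AC M := by
  intro a ha hne
  obtain ⟨b, hb, hb'⟩ := hM.zfa.union a
  have him : IM M (fun p : MEl a × MEl b => Mem p.2.1 p.1.1) := by
    rw [IM.pred_iff]
    refine IS.of_fm2 (Fm.mem (.inl 0) (.inl 1)) (fun x y => ?_)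
    exact Iff.rfl
  let X : IFun M (MEl a) (IPow M (MEl b)) := lam (fun i => cmp (fun u => Mem u.1 i.1)
    (im_curry (f := fun (i : MEl a) (u : MEl b) => Mem u.1 i.1) him i)) (im_cmp him)
  obtain ⟨f, hf⟩ := exists_choice (X := X) hVB (by
    intro i
    obtain ⟨_, y, hy⟩ := hne i.1 i.2
    exact ⟨⟨y, (hb' y).2 ⟨i.1, i.2, hy⟩⟩, hy⟩)
  refine ⟨f.gr, ⟨f.isSet_gr, ?_, ?_⟩, ?_⟩
  · intro p hp
    obtain ⟨⟨i, u⟩, h, rfl⟩ := f.mem_gr.1 hp
    exact ⟨i.1, u.1, i.2, isPair_opair _ _⟩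
  · intro x hx
    refine ⟨(f.ev ⟨x, hx⟩).1, ?_, ?_⟩
    · exact (f.app_gr (x := ⟨x, hx⟩) (y := f.ev ⟨x, hx⟩)).2 rfl
    · intro y hy
      have hy' : App f.gr x y := hy
      rw [app_iff] at hy'
      obtain ⟨⟨i, u⟩, h, h'⟩ := f.mem_gr.1 hy'
      rw [cd_prod, opair_inj] at h'
      obtain ⟨h1, h2⟩ := h'
      have h1' : i = ⟨x, hx⟩ := Subtype.ext h1
      have h3 : f.ev i = u := h
      rw [← h2, ← h1', h3]
      rfl
  · intro x y hxy
    rw [app_iff] at hxy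
    obtain ⟨⟨i, u⟩, h, h'⟩ := f.mem_gr.1 hxy
    rw [cd_prod, opair_inj] at h'
    obtain ⟨h1, h2⟩ := h'
    have h3 : f.ev i = u := h
    have h4 := hf i
    rw [h3] at h4
    have h5 : Mem u.1 i.1 := h4
    have h1' : i.1 = x := h1
    have h2' : u.1 = y := h2
    rwa [h1', h2'] at h5

end

end Pool.Agent.Helper93.VB
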