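import Mathlib

/-!
# Models of ZFA, and the statements VB and AC in such a model

`LZ` is the first-order language with one binary relation symbol (membership) and one unary
relation symbol (being a set; objects that are not sets are the atoms).  `ZFA M` says that the
`LZ`-structure `M` satisfies the axioms of Zermelo-Fraenkel set theory with atoms; the two schemas
are stated for all relations that are first-order definable with parameters from `M`.
`VB M` and `AC M` spell out, as statements quantifying over the elements of `M` only, that in `M`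
every vector space over every field has a basis, respectively that every set of nonempty sets has
a choice function.
-/

universe u

namespace Pool.Agent.Helper93.VB

/-- The relation symbols of the language of set theory with atoms. -/
inductive SRel : ℕ → Type
  /-- the unary relation symbol saying that an object is a set (and not an atom) -/
  | isSet : SRel 1
  /-- the binary relation symbol of membership -/
  | mem : SRel 2

/-- The first-order language of set theory with atoms. -/
def LZ : FirstOrder.Language := ⟨fun _ => Empty, SRel⟩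

section
variable {M : Type u} [LZ.Structure M]

/-- `x` is an element of `y`. -/
def Mem (x y : M) : Prop := FirstOrder.Language.Structure.RelMap (L := LZ) SRel.mem ![x, y]

/-- `x` is a set (not an atom). -/
def IsSet (x : M) : Prop := FirstOrder.Language.Structure.RelMap (L := LZ) SRel.isSet ![x]

variable (M) in
/-- `M` is a model of Zermelo-Fraenkel set theory with atoms. -/
structure ZFA : Prop where
  /-- atoms have no elements -/
  atom : ∀ x y : M, Mem x y → IsSet y
  /-- extensionality for sets -/
  ext : ∀ a b : M, IsSet a → IsSet b → (∀ x, Mem x a ↔ Mem x b) → a = b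
  /-- foundation -/
  found : ∀ a : M, (∃ x, Mem x a) → ∃ x, Mem x a ∧ ∀ y, Mem y x → ¬ Mem y a
  /-- pairing -/
  pairing : ∀ x y : M, ∃ a, IsSet a ∧ ∀ z, Mem z a ↔ z = x ∨ z = y
  /-- union -/
  union : ∀ a : M, ∃ b, IsSet b ∧ ∀ z, Mem z b ↔ ∃ y, Mem y a ∧ Mem z y
  /-- power set -/
  power : ∀ a : M, ∃ b, IsSet b ∧ ∀ z, Mem z b ↔ IsSet z ∧ ∀ w, Mem w z → Mem w a
  /-- infinity -/
  infinity : ∃ a : M, (∃ e, IsSet e ∧ (∀ x, ¬ Mem x e) ∧ Mem e a) ∧
    ∀ x, Mem x a → ∃ y, Mem y a ∧ IsSet y ∧ ∀ z, Mem z y ↔ Mem z x ∨ z = x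
  /-- the separation schema -/
  separation : ∀ P : M → Prop, (Set.univ : Set M).Definable₁ LZ {x | P x} →
    ∀ a, ∃ b, IsSet b ∧ ∀ x, Mem x b ↔ Mem x a ∧ P x
  /-- the replacement schema -/
  replacement : ∀ R : M → M → Prop, (Set.univ : Set M).Definable₂ LZ {p : M × M | R p.1 p.2} →
    ∀ a, (∀ x, Mem x a → ∃! y, R x y) → ∃ b, IsSet b ∧ ∀ y, Mem y b ↔ ∃ x, Mem x a ∧ R x y

/-- `z` is the set `{x, y}`. -/
def IsUPair (z x y : M) : Prop := IsSet z ∧ ∀ w, Mem w z ↔ w = x ∨ w = y

/-- `p` is the Kuratowski ordered pair `(x, y) = {{x}, {x, y}}`. -/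
def IsPair (p x y : M) : Prop := IsSet p ∧ ∀ z, Mem z p ↔ IsUPair z x x ∨ IsUPair z x y

/-- the ordered pair `(x, y)` belongs to `f`. -/
def App (f x y : M) : Prop := ∃ p, IsPair p x y ∧ Mem p f

/-- the ordered pair `((x, y), z)` belongs to `f`; for an operation `f` this says that
`f(x, y) = z`. -/
def Op (f x y z : M) : Prop := ∃ p, IsPair p x y ∧ App f p z

/-- `f` is a function with domain `A`: a set of ordered pairs with first component in `A`,
containing for each `x` in `A` exactly one pair with first component `x`. -/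
def IsFun (f A : M) : Prop :=
  IsSet f ∧ (∀ p, Mem p f → ∃ x y, Mem x A ∧ IsPair p x y) ∧ ∀ x, Mem x A → ∃! y, App f x y

/-- `f` is a map from the Cartesian product of `A` and `B` to `C`. -/
def IsOp (f A B C : M) : Prop :=
  IsSet f ∧
    (∀ p, Mem p f → ∃ x y z q, Mem x A ∧ Mem y B ∧ Mem z C ∧ IsPair q x y ∧ IsPair p q z) ∧
    ∀ x y, Mem x A → Mem y B → ∃! z, Op f x y z

/-- `z` is a two-sided zero for the operation `s` on `A`. -/
def IsZero (A s z : M) : Prop := Mem z A ∧ ∀ x, Mem x A → Op s x z x

/-- `(A, s)` is an abelian group. -/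
structure IsAbGroup (A s : M) : Prop where
  isSet : IsSet A
  isOp : IsOp s A A A
  comm : ∀ x y z, Op s x y z → Op s y x z
  assoc : ∀ x y z xy yz w, Op s x y xy → Op s xy z w → Op s y z yz → Op s x yz w
  zero : ∃ z, IsZero A s z
  neg : ∀ z, IsZero A s z → ∀ x, Mem x A → ∃ y, Mem y A ∧ Op s x y z

/-- `e` is a unit for the multiplication `m` on `F`. -/
def IsUnitElt (F m e : M) : Prop := Mem e F ∧ ∀ x, Mem x F → Op m x e x

/-- `(F, s, m)` is a field, with addition `s` and multiplication `m`. -/
structure IsFld (F s m : M) : Prop where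
  add : IsAbGroup F s
  isOp : IsOp m F F F
  comm : ∀ x y z, Op m x y z → Op m y x z
  assoc : ∀ x y z xy yz w, Op m x y xy → Op m xy z w → Op m y z yz → Op m x yz w
  distrib : ∀ x y z yz w xy xz, Op s y z yz → Op m x yz w → Op m x y xy → Op m x z xz →
    Op s xy xz w
  one : ∃ e, IsUnitElt F m e ∧ ¬ IsZero F s e
  inv : ∀ e, IsUnitElt F m e → ∀ x, Mem x F → ¬ IsZero F s x → ∃ y, Mem y F ∧ Op m x y e

/-- `(V, a, c)` is a vector space over the field `(F, s, m)`, with addition `a` and scalar
multiplication `c`. -/
structure IsVSpace (F s m V a c : M) : Prop where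
  add : IsAbGroup V a
  isOp : IsOp c F V V
  add_smul : ∀ x y xy v w xv yv, Op s x y xy → Op c xy v w → Op c x v xv → Op c y v yv →
    Op a xv yv w
  smul_add : ∀ x v w vw u xv xw, Op a v w vw → Op c x vw u → Op c x v xv → Op c x w xw →
    Op a xv xw u
  mul_smul : ∀ x y xy v u yv, Op m x y xy → Op c xy v u → Op c y v yv → Op c x yv u
  one_smul : ∀ e, IsUnitElt F m e → ∀ v, Mem v V → Op c e v v

/-- `W` is a linear subspace of the vector space `(V, a, c)` over a field with underlying set
`F`. -/
structure IsSubsp (F V a c W : M) : Prop where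
  isSet : IsSet W
  subset : ∀ v, Mem v W → Mem v V
  zero : ∀ z, IsZero V a z → Mem z W
  add : ∀ v w u, Mem v W → Mem w W → Op a v w u → Mem u W
  smul : ∀ x v u, Mem x F → Mem v W → Op c x v u → Mem u W

/-- `B` is a basis of `(V, a, c)`: a subset that spans (the only linear subspace containing `B` is
`V`) and is linearly independent (no `b` in `B` lies in the span of the other elements of `B`). -/
structure IsBas (F V a c B : M) : Prop where
  isSet : IsSet B
  subset : ∀ v, Mem v B → Mem v V
  span : ∀ W, IsSubsp F V a c W → (∀ v, Mem v B → Mem v W) → ∀ v, Mem v V → Mem v W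
  indep : ∀ b, Mem b B → ∃ W, IsSubsp F V a c W ∧ (∀ v, Mem v B → v ≠ b → Mem v W) ∧ ¬ Mem b W

variable (M) in
/-- In `M`, every vector space over every field has a basis. -/
def VB : Prop := ∀ F s m V a c : M, IsFld F s m → IsVSpace F s m V a c → ∃ B, IsBas F V a c B

variable (M) in
/-- The axiom of choice in `M`: every set of nonempty sets has a choice function. -/
def AC : Prop := ∀ a : M, IsSet a → (∀ x, Mem x a → IsSet x ∧ ∃ y, Mem y x) →
  ∃ f, IsFun f a ∧ ∀ x y, App f x y → Mem y x

end

end Pool.Agent.Helper93.VB
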