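import Pool.Agent.Helper93.VB.IT

/-!
Internally finite sets.
-/

universe u v w

namespace Pool.Agent.Helper93.VB

set_option linter.unusedSectionVars false

noncomputable section

variable {M : Type u} [LZ.Structure M] {α β γ δ : Type*} [IType M α] [IType M β] [IType M γ]
  [IType M δ] [hM : ZM M]

/-- (Kuratowski) finiteness in `M` -/
def IFin (S : IPow M α) : Prop :=
  ∀ X : IPow M (IPow M α), ∅ ∈ X → (∀ (T : IPow M α) (a : α), T ∈ X → insert a T ∈ X) → S ∈ X

@[fun_prop] lemma im_ifin {f : α → IPow M β} (hf : IM M f) : IM M (fun x => IFin (f x)) := by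
  unfold IFin
  fun_prop

lemma ifin_empty : IFin (∅ : IPow M α) := fun _ h _ => h

lemma IFin.insert {S : IPow M α} (h : IFin S) (a : α) : IFin (insert a S) :=
  fun X h1 h2 => h2 _ _ (h X h1 h2)

lemma IFin.induction {p : IPow M α → Prop} (hp : IM M p) (h0 : p ∅)
    (h1 : ∀ (T : IPow M α) (a : α), IFin T → p T → p (Insert.insert a T)) {S : IPow M α}
    (hS : IFin S) : p S := by
  have h := hS (cmp (fun T => IFin T ∧ p T) (by fun_prop)) ⟨ifin_empty, h0⟩
    (fun T a hT => ⟨hT.1.insert a, h1 T a hT.1 hT.2⟩)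
  exact h.2

lemma insert_eq_union (S : IPow M α) (a : α) : insert a S = {a} ∪ S := by
  ext x
  simp

lemma ifin_singleton (a : α) : IFin ({a} : IPow M α) := by
  have h := (ifin_empty (M := M)).insert a
  convert h using 1
  ext x
  simp

lemma IFin.subset {S T : IPow M α} (hT : IFin T) (h : S ⊆ T) : IFin S := by
  have key : ∀ S : IPow M α, S ⊆ T → IFin S := by
    refine IFin.induction (p := fun T => ∀ S : IPow M α, S ⊆ T → IFin S) (by fun_prop) ?_ ?_ hT
    · intro S hS
      have : S = ∅ := by
        ext x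
        exact ⟨fun h => hS x h, fun h => absurd h (notMem_empty x)⟩
      rw [this]
      exact ifin_empty
    · intro T a hT ih S hS
      by_cases ha : a ∈ S
      · have h1 : S = Insert.insert a (S \ {a}) := by
          ext x
          simp only [mem_insert, mem_sdiff, mem_singleton]
          constructor
          · intro h
            by_cases hx : x = a
            · exact Or.inl hx
            · exact Or.inr ⟨h, hx⟩
          · rintro (rfl | h)
            · exact ha
            · exact h.1
        rw [h1]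
        apply IFin.insert
        apply ih
        intro x hx
        rcases hS x hx.1 with h | h
        · exact absurd h hx.2
        · exact h
      · apply ih
        intro x hx
        rcases hS x hx with h | h
        · rw [h] at hx
          exact absurd hx ha
        · exact h
  exact key S h

lemma IFin.union {S T : IPow M α} (hS : IFin S) (hT : IFin T) : IFin (S ∪ T) := by
  refine IFin.induction (p := fun S => IFin (S ∪ T)) (by fun_prop) ?_ ?_ hS
  · convert hT using 1
    ext x
    simp
  · intro S a _ ih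
    have := ih.insert a
    convert this using 1
    ext x
    simp [or_assoc]

lemma IFin.img {f : α → β} {hf : IM M f} {S : IPow M α} (hS : IFin S) : IFin (img f hf S) := by
  refine IFin.induction (p := fun S => IFin (VB.img f hf S)) (by fun_prop) ?_ ?_ hS
  · convert ifin_empty (M := M) using 1
    ext x
    simp
  · intro S a _ ih
    have := ih.insert (f a)
    convert this using 1
    ext x
    simp only [mem_img, mem_insert]
    constructor
    · rintro ⟨y, rfl | h, rfl⟩
      · exact Or.inl rfl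
      · exact Or.inr ⟨y, h, rfl⟩
    · rintro (rfl | ⟨y, h, rfl⟩)
      · exact ⟨a, Or.inl rfl, rfl⟩
      · exact ⟨y, Or.inr h, rfl⟩

lemma IFin.bUn {f : α → IPow M β} {hf : IM M f} {S : IPow M α} (hS : IFin S)
    (h : ∀ x, x ∈ S → IFin (f x)) : IFin (bUn S f hf) := by
  have key : (∀ x, x ∈ S → IFin (f x)) → IFin (VB.bUn S f hf) := by
    refine IFin.induction (p := fun S => (∀ x, x ∈ S → IFin (f x)) → IFin (VB.bUn S f hf))
      (by fun_prop) ?_ ?_ hS
    · intro _
      convert ifin_empty (M := M) using 1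
      ext x
      simp
    · intro S a _ ih h
      have := (ih (fun x hx => h x (Or.inr hx))).union (h a (Or.inl rfl))
      convert this using 1
      ext x
      simp only [mem_bUn, mem_insert, mem_union]
      constructor
      · rintro ⟨y, rfl | h, h'⟩
        · exact Or.inr h'
        · exact Or.inl ⟨y, h, h'⟩
      · rintro (⟨y, h, h'⟩ | h)
        · exact ⟨y, Or.inr h, h'⟩
        · exact ⟨a, Or.inl rfl, h⟩
  exact key h

/-- product of internal sets -/
def prd (S : IPow M α) (T : IPow M β) : IPow M (α × β) :=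
  cmp (fun p => p.1 ∈ S ∧ p.2 ∈ T) (by fun_prop)

@[simp] lemma mem_prd {S : IPow M α} {T : IPow M β} {p : α × β} :
    p ∈ prd S T ↔ p.1 ∈ S ∧ p.2 ∈ T := Iff.rfl

@[fun_prop] lemma im_prd {f : γ → IPow M α} {g : γ → IPow M β} (hf : IM M f) (hg : IM M g) :
    IM M (fun x => prd (f x) (g x)) := by
  unfold prd
  fun_prop

lemma IFin.prd {S : IPow M α} {T : IPow M β} (hS : IFin S) (hT : IFin T) : IFin (prd S T) := by
  have h := hS.bUn (f := fun a => VB.img (fun b => (a, b)) (by fun_prop) T) (hf := by fun_prop)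
    (fun x _ => hT.img)
  convert h using 1
  ext ⟨a, b⟩
  simp only [mem_prd, mem_bUn, mem_img, Prod.mk.injEq]
  constructor
  · rintro ⟨h1, h2⟩
    exact ⟨a, h1, b, h2, rfl, rfl⟩
  · rintro ⟨x, h1, y, h2, rfl, rfl⟩
    exact ⟨h1, h2⟩

/-- power set -/
def pw (S : IPow M α) : IPow M (IPow M α) := cmp (fun T => T ⊆ S) (by fun_prop)

@[simp] lemma mem_pw {S T : IPow M α} : T ∈ pw S ↔ T ⊆ S := Iff.rfl

@[fun_prop] lemma im_pw {f : α → IPow M β} (hf : IM M f) : IM M (fun x => pw (f x)) := by
  unfold pw
  fun_prop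

lemma IFin.pw {S : IPow M α} (hS : IFin S) : IFin (pw S) := by
  refine IFin.induction (p := fun S => IFin (VB.pw S)) (by fun_prop) ?_ ?_ hS
  · refine (ifin_singleton (∅ : IPow M α)).subset ?_
    intro T hT
    rw [mem_singleton]
    ext x
    exact ⟨fun h => hT x h, fun h => absurd h (notMem_empty x)⟩
  · intro S a _ ih
    have h := ih.union (ih.img (f := fun T => Insert.insert a T) (hf := by fun_prop))
    refine h.subset ?_
    intro T hT
    rw [mem_pw] at hT
    rw [mem_union]
    by_cases ha : a ∈ T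
    · right
      refine ⟨T \ {a}, ?_, ?_⟩
      · intro x hx
        rcases hT x hx.1 with h | h
        · exact absurd h hx.2
        · exact h
      · ext x
        simp only [mem_insert, mem_sdiff, mem_singleton]
        constructor
        · rintro (rfl | h)
          · exact ha
          · exact h.1
        · intro h
          by_cases hx : x = a
          · exact Or.inl hx
          · exact Or.inr ⟨h, hx⟩
    · left
      intro x hx
      rcases hT x hx with h | h
      · rw [h] at hx
        exact absurd hx ha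
      · exact h

/-- A nonempty finite set has a minimal element for every transitive irreflexive relation. -/
lemma IFin.exists_minimal (r : IPow M (α × α)) (hirr : ∀ x, ¬ (x, x) ∈ r)
    (htr : ∀ x y z, (x, y) ∈ r → (y, z) ∈ r → (x, z) ∈ r) {S : IPow M α} (hS : IFin S)
    (hne : ∃ x, x ∈ S) : ∃ x, x ∈ S ∧ ∀ y, y ∈ S → ¬ (y, x) ∈ r := by
  have key : (∃ x, x ∈ S) → ∃ x, x ∈ S ∧ ∀ y, y ∈ S → ¬ (y, x) ∈ r := by
    refine IFin.induction (p := fun S => (∃ x, x ∈ S) → ∃ x, x ∈ S ∧ ∀ y, y ∈ S → ¬ (y, x) ∈ r)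
      (by fun_prop) ?_ ?_ hS
    · rintro ⟨x, hx⟩
      exact absurd hx (notMem_empty x)
    · intro T a _ ih _
      by_cases hT : ∃ x, x ∈ T
      · obtain ⟨x, hx, hmin⟩ := ih hT
        by_cases hax : (a, x) ∈ r
        · refine ⟨a, Or.inl rfl, ?_⟩
          rintro y (rfl | hy) h
          · exact hirr _ h
          · exact hmin y hy (htr _ _ _ h hax)
        · refine ⟨x, Or.inr hx, ?_⟩
          rintro y (rfl | hy) h
          · exact hax h
          · exact hmin y hy h
      · refine ⟨a, Or.inl rfl, ?_⟩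
        rintro y (rfl | hy) h
        · exact hirr _ h
        · exact hT ⟨y, hy⟩
  exact key hne

/-- A family of nonempty subsets of a finite set that is totally ordered by inclusion has a common
element. -/
lemma IFin.chain {S : IPow M α} (hS : IFin S) (X : IPow M (IPow M α))
    (hsub : ∀ T, T ∈ X → T ⊆ S) (hX : ∃ T, T ∈ X)
    (htot : ∀ T T', T ∈ X → T' ∈ X → T ⊆ T' ∨ T' ⊆ T) :
    ∃ T, T ∈ X ∧ ∀ T', T' ∈ X → T ⊆ T' := by
  have hXf : IFin X := hS.pw.subset (fun T hT => hsub T hT)
  obtain ⟨T, hT, hmin⟩ := hXf.exists_minimal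
    (cmp (fun p : IPow M α × IPow M α => p.1 ⊆ p.2 ∧ ¬ p.2 ⊆ p.1) (by fun_prop))
    (fun x h => h.2 h.1) (fun x y z h1 h2 => ⟨fun a ha => h2.1 a (h1.1 a ha),
      fun h => h1.2 (fun a ha => h a (h2.1 a ha))⟩) hX
  refine ⟨T, hT, fun T' hT' => ?_⟩
  by_contra hcon
  rcases htot T T' hT hT' with h | h
  · exact hcon h
  · exact hmin T' hT' ⟨h, hcon⟩

/-- Choice for a finite set of nonempty sets: choice function given by its graph. -/
lemma IFin.choice (R : IPow M (α × β)) {S : IPow M α} (hS : IFin S)
    (h : ∀ x, x ∈ S → ∃ y, (x, y) ∈ R) :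
    ∃ G : IPow M (α × β), (∀ p, p ∈ G → p ∈ R ∧ p.1 ∈ S) ∧ (∀ x, x ∈ S → ∃ y, (x, y) ∈ G) ∧
      ∀ x y z, (x, y) ∈ G → (x, z) ∈ G → y = z := by
  have key : (∀ x, x ∈ S → ∃ y, (x, y) ∈ R) →
    ∃ G : IPow M (α × β), (∀ p, p ∈ G → p ∈ R ∧ p.1 ∈ S) ∧ (∀ x, x ∈ S → ∃ y, (x, y) ∈ G) ∧
      ∀ x y z, (x, y) ∈ G → (x, z) ∈ G → y = z := by
    refine IFin.induction (p := fun S => (∀ x, x ∈ S → ∃ y, (x, y) ∈ R) →
      ∃ G : IPow M (α × β), (∀ p, p ∈ G → p ∈ R ∧ p.1 ∈ S) ∧ (∀ x, x ∈ S → ∃ y, (x, y) ∈ G) ∧
      ∀ x y z, (x, y) ∈ G → (x, z) ∈ G → y = z) (by fun_prop) ?_ ?_ hS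
    · intro _
      refine ⟨∅, ?_, ?_, ?_⟩
      · intro p hp
        exact absurd hp (notMem_empty p)
      · intro p hp
        exact absurd hp (notMem_empty p)
      · intro x y z hp
        exact absurd hp (notMem_empty _)
    · intro S a _ ih h
      obtain ⟨G, h1, h2, h3⟩ := ih (fun x hx => h x (Or.inr hx))
      by_cases ha : a ∈ S
      · refine ⟨G, fun p hp => ⟨(h1 p hp).1, Or.inr (h1 p hp).2⟩, ?_, h3⟩
        rintro x (rfl | hx)
        · exact h2 _ ha
        · exact h2 _ hx
      · obtain ⟨b, hb⟩ := h a (Or.inl rfl)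
        refine ⟨Insert.insert (a, b) G, ?_, ?_, ?_⟩
        · rintro p (rfl | hp)
          · exact ⟨hb, Or.inl rfl⟩
          · exact ⟨(h1 p hp).1, Or.inr (h1 p hp).2⟩
        · rintro x (rfl | hx)
          · exact ⟨b, Or.inl rfl⟩
          · obtain ⟨y, hy⟩ := h2 x hx
            exact ⟨y, Or.inr hy⟩
        · rintro x y z (hp | hp) (hq | hq)
          · rw [Prod.mk.injEq] at hp hq
            rw [hp.2, hq.2]
          · rw [Prod.mk.injEq] at hp
            rw [hp.1] at hq
            exact absurd (h1 _ hq).2 ha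
          · rw [Prod.mk.injEq] at hq
            rw [hq.1] at hp
            exact absurd (h1 _ hp).2 ha
          · exact h3 _ _ _ hp hq
  exact key h

end

end Pool.Agent.Helper93.VB
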