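import Pool.Agent.Helper93.VB.Int

/-!
Fraction fields of internal domains, and the ordered field of rational numbers of the model.
-/

universe u v w

namespace Pool.Agent.Helper93.VB

set_option linter.unusedSectionVars false

noncomputable section

section

variable {M : Type u} [LZ.Structure M] {α β γ δ R : Type*} [IType M α] [IType M β] [IType M γ]
  [IType M δ] [hM : ZM M] [IType M R] [CommRing R] [IsDomain R] 

/-- fractions -/
def frq (p : R × R) : FractionRing R := algebraMap R _ p.1 / algebraMap R _ p.2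

lemma frq_surj (z : FractionRing R) : ∃ p : R × R, p.2 ≠ 0 ∧ frq p = z := by
  obtain ⟨x, y, hy, h⟩ := IsFractionRing.div_surjective (A := R) z
  exact ⟨(x, y), nonZeroDivisors.ne_zero hy, h⟩

lemma am_inj {a b : R} : algebraMap R (FractionRing R) a = algebraMap R (FractionRing R) b ↔ a = b :=
  (IsFractionRing.injective R (FractionRing R)).eq_iff

lemma am_zero {a : R} : algebraMap R (FractionRing R) a = 0 ↔ a = 0 := by
  rw [← map_zero (algebraMap R (FractionRing R)), am_inj]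

lemma frq_eq {p p' : R × R} (h : p.2 ≠ 0) (h' : p'.2 ≠ 0) :
    frq p = frq p' ↔ p.1 * p'.2 = p'.1 * p.2 := by
  unfold frq
  rw [div_eq_div_iff (fun h0 => h (am_zero.1 h0)) (fun h0 => h' (am_zero.1 h0)), ← map_mul,
    ← map_mul, am_inj]

lemma frq_den_zero {p : R × R} (h : p.2 = 0) : frq p = 0 := by
  unfold frq
  rw [h]
  simp

lemma frq_eq_zero {p : R × R} (h : p.2 ≠ 0) : frq p = 0 ↔ p.1 = 0 := by
  unfold frq
  rw [div_eq_zero_iff, am_zero, am_zero]
  simp [h]

lemma frq_ker {p p' : R × R} : frq p = frq p' ↔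
    (p.2 = 0 ∧ (p'.2 = 0 ∨ p'.1 = 0)) ∨
    (¬ p.2 = 0 ∧ ((p'.2 = 0 ∧ p.1 = 0) ∨ (¬ p'.2 = 0 ∧ p.1 * p'.2 = p'.1 * p.2))) := by
  by_cases h : p.2 = 0
  · rw [frq_den_zero h]
    by_cases h' : p'.2 = 0
    · rw [frq_den_zero h']
      simp [h, h']
    · rw [eq_comm, frq_eq_zero h']
      simp [h, h']
  · by_cases h' : p'.2 = 0
    · rw [frq_den_zero h', frq_eq_zero h]
      simp [h, h']
    · rw [frq_eq h h']
      simp [h, h']

variable [hR : IMul M R] [hR' : IAdd M R]

lemma frq_surj' : Function.Surjective (frq (R := R)) := fun z => by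
  obtain ⟨p, _, h⟩ := frq_surj z
  exact ⟨p, h⟩

lemma im_frker : IM M (fun p : (R × R) × (R × R) => frq p.1 = frq p.2) := by
  simp only [frq_ker]
  fun_prop

instance instITypeFractionRing : IType M (FractionRing R) :=
  IType.ofSurj frq frq_surj' im_frker

lemma im_frq0 : IM M (frq (R := R)) := im_ofSurj frq frq_surj' im_frker

@[fun_prop] lemma im_frq {f : α → R × R} (hf : IM M f) : IM M (fun x => frq (f x)) :=
  im_comp im_frq0 hf

@[fun_prop] lemma im_algebraMap {f : α → R} (hf : IM M f) :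
    IM M (fun x => algebraMap R (FractionRing R) (f x)) := by
  have h : IM M (fun x => frq (f x, (1 : R))) := by fun_prop
  convert h using 2 with x
  simp [frq]

lemma frq_add {p p' : R × R} (h : p.2 ≠ 0) (h' : p'.2 ≠ 0) :
    frq p + frq p' = frq (p.1 * p'.2 + p'.1 * p.2, p.2 * p'.2) := by
  unfold frq
  have h1 : algebraMap R (FractionRing R) p.2 ≠ 0 := fun h0 => h (am_zero.1 h0)
  have h1' : algebraMap R (FractionRing R) p'.2 ≠ 0 := fun h0 => h' (am_zero.1 h0)
  rw [div_add_div _ _ h1 h1']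
  simp only [map_add, map_mul]
  ring

lemma frq_mul {p p' : R × R} :
    frq p * frq p' = frq (p.1 * p'.1, p.2 * p'.2) := by
  unfold frq
  rw [div_mul_div_comm]
  simp only [map_mul]

instance : IAdd M (FractionRing R) := ⟨by
  apply im_of_graph
  have h : IM M (fun x : (FractionRing R × FractionRing R) × FractionRing R =>
    ∃ p p' : R × R, ¬ p.2 = 0 ∧ ¬ p'.2 = 0 ∧ frq p = x.1.1 ∧ frq p' = x.1.2 ∧
      frq (p.1 * p'.2 + p'.1 * p.2, p.2 * p'.2) = x.2) := by fun_prop
  convert h using 2 with x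
  constructor
  · intro hx
    obtain ⟨p, hp, hp'⟩ := frq_surj x.1.1
    obtain ⟨q, hq, hq'⟩ := frq_surj x.1.2
    refine ⟨p, q, hp, hq, hp', hq', ?_⟩
    rw [← frq_add hp hq, hp', hq', hx]
  · rintro ⟨p, p', h1, h2, h3, h4, h5⟩
    rw [← h3, ← h4, ← h5, frq_add h1 h2]⟩

instance : IMul M (FractionRing R) := ⟨by
  apply im_of_graph
  have h : IM M (fun x : (FractionRing R × FractionRing R) × FractionRing R =>
    ∃ p p' : R × R, frq p = x.1.1 ∧ frq p' = x.1.2 ∧
      frq (p.1 * p'.1, p.2 * p'.2) = x.2) := by fun_prop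
  convert h using 2 with x
  constructor
  · intro hx
    obtain ⟨p, hp, hp'⟩ := frq_surj x.1.1
    obtain ⟨q, hq, hq'⟩ := frq_surj x.1.2
    refine ⟨p, q, hp', hq', ?_⟩
    rw [← frq_mul, hp', hq', hx]
  · rintro ⟨p, p', h3, h4, h5⟩
    rw [← h3, ← h4, ← h5, frq_mul]⟩

end

section

variable {M : Type u} [LZ.Structure M] {α : Type*} [IType M α] [hM : ZM M]

variable (M) in
/-- The rational numbers of `M`. -/
abbrev QQ : Type u := FractionRing (ZZ M)

/-- nonnegative rational numbers -/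
def nnq (z : QQ M) : Prop := ∃ p : ZZ M × ZZ M, 0 ≤ p.1 ∧ 0 < p.2 ∧ frq p = z

@[fun_prop] lemma im_nnq {f : α → QQ M} (hf : IM M f) : IM M (fun x => nnq (f x)) := by
  unfold nnq
  fun_prop

lemma exists_pos_den (z : QQ M) : ∃ p : ZZ M × ZZ M, 0 < p.2 ∧ frq p = z := by
  obtain ⟨p, hp, hpz⟩ := frq_surj z
  rcases lt_or_gt_of_ne hp with h | h
  · refine ⟨(-p.1, -p.2), by simpa using h, ?_⟩
    rw [← hpz, frq_eq (by simpa using hp) hp]
    ring
  · exact ⟨p, h, hpz⟩

lemma frq_neg (p : ZZ M × ZZ M) : frq (-p.1, p.2) = - frq p := by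
  simp [frq, neg_div]

lemma nnq_total (z : QQ M) : nnq z ∨ nnq (-z) := by
  obtain ⟨p, hp, hpz⟩ := exists_pos_den z
  rcases le_total 0 p.1 with h | h
  · exact Or.inl ⟨p, h, hp, hpz⟩
  · right
    refine ⟨(-p.1, p.2), by simpa using h, hp, ?_⟩
    rw [frq_neg, hpz]

lemma nnq.add {x y : QQ M} (hx : nnq x) (hy : nnq y) : nnq (x + y) := by
  obtain ⟨p, h1, h2, rfl⟩ := hx
  obtain ⟨q, h3, h4, rfl⟩ := hy
  rw [frq_add h2.ne' h4.ne']
  exact ⟨_, add_nonneg (mul_nonneg h1 h4.le) (mul_nonneg h3 h2.le), mul_pos h2 h4, rfl⟩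

lemma nnq.mul {x y : QQ M} (hx : nnq x) (hy : nnq y) : nnq (x * y) := by
  obtain ⟨p, h1, h2, rfl⟩ := hx
  obtain ⟨q, h3, h4, rfl⟩ := hy
  rw [frq_mul]
  exact ⟨_, mul_nonneg h1 h3, mul_pos h2 h4, rfl⟩

lemma nnq.antisymm {x : QQ M} (hx : nnq x) (hy : nnq (-x)) : x = 0 := by
  obtain ⟨p, h1, h2, rfl⟩ := hx
  obtain ⟨q, h3, h4, hq⟩ := hy
  rw [frq_eq_zero h2.ne']
  have h5 : frq q + frq p = 0 := by rw [hq]; ring
  rw [frq_add h4.ne' h2.ne', frq_eq_zero (mul_ne_zero h4.ne' h2.ne')] at h5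
  have h5' : q.1 * p.2 + p.1 * q.2 = 0 := h5
  have h6 : p.1 * q.2 = 0 := by
    have h7 := mul_nonneg h3 h2.le
    have h8 := mul_nonneg h1 h4.le
    linarith
  rcases mul_eq_zero.1 h6 with h | h
  · exact h
  · exact absurd h h4.ne'

lemma nnq_one : nnq (1 : QQ M) := ⟨(1, 1), zero_le_one, zero_lt_one, by simp [frq]⟩

instance : LinearOrder (QQ M) where
  le x y := nnq (y - x)
  le_refl x := by
    show nnq (x - x)
    rw [sub_self]
    exact ⟨(0, 1), le_rfl, zero_lt_one, by simp [frq]⟩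
  le_trans x y z h1 h2 := by
    have h1' : nnq (y - x) := h1
    have h2' : nnq (z - y) := h2
    have := h1'.add h2'
    show nnq (z - x)
    convert this using 1
    ring
  le_antisymm x y h1 h2 := by
    have h1' : nnq (y - x) := h1
    have h2' : nnq (x - y) := h2
    have := h1'.antisymm (by convert h2' using 1; ring)
    exact (sub_eq_zero.1 this).symm
  le_total x y := by
    rcases nnq_total (y - x) with h | h
    · exact Or.inl h
    · right
      show nnq (x - y)
      convert h using 1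
      ring
  toDecidableLE := Classical.decRel _

lemma qq_le_def {x y : QQ M} : x ≤ y ↔ nnq (y - x) := Iff.rfl

instance : IsOrderedAddMonoid (QQ M) where
  add_le_add_left x y h z := by
    rw [qq_le_def] at h ⊢
    convert h using 1
    ring

instance : IsStrictOrderedRing (QQ M) := by
  have h01 : (0 : QQ M) ≤ 1 := by
    rw [qq_le_def, sub_zero]
    exact nnq_one
  have : ZeroLEOneClass (QQ M) := ⟨h01⟩
  refine IsStrictOrderedRing.of_mul_pos (fun a b ha hb => ?_)
  have h1 : nnq (a * b) := by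
    have := (qq_le_def.1 ha.le).mul (qq_le_def.1 hb.le)
    simpa using this
  have h2 : (0 : QQ M) ≤ a * b := by
    rw [qq_le_def, sub_zero]
    exact h1
  exact lt_of_le_of_ne h2 (mul_ne_zero ha.ne' hb.ne').symm

@[fun_prop] lemma im_qle {f g : α → QQ M} (hf : IM M f) (hg : IM M g) :
    IM M (fun x => f x ≤ g x) := by
  simp only [qq_le_def]
  fun_prop

@[fun_prop] lemma im_qlt {f g : α → QQ M} (hf : IM M f) (hg : IM M g) :
    IM M (fun x => f x < g x) := by
  simp only [← not_le]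
  fun_prop

end

end

end Pool.Agent.Helper93.VB
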