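import Pool.Agent.Helper93.VB.Base

/-!
Internal types: types whose elements are coded by the elements of a set of the model, and
internal maps between them.
-/

universe u v w

namespace Pool.Agent.Helper93.VB

set_option linter.unusedSectionVars false

/-- A type all of whose elements are coded by the elements of a set of `M`. -/
class IType (M : Type u) [LZ.Structure M] (α : Type v) where
  /-- the coding -/
  code : α → M
  inj : Function.Injective code
  /-- the set of codes -/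
  car : M
  isSet_car : IsSet car
  mem_car : ∀ x, Mem x car ↔ ∃ a, code a = x

section

variable (M : Type u) [LZ.Structure M] {α β γ δ : Type*} [IType M α] [IType M β] [IType M γ]
  [IType M δ]

/-- The code of an element of an internal type. -/
def cd (a : α) : M := IType.code a

variable (α) in
/-- The set of codes. -/
def cr : M := IType.car (M := M) α

/-- internal predicates -/
def IS (S : α → Prop) : Prop := ∃ s : M, ∀ x : α, Mem (cd M x) s ↔ S x

variable {M}

lemma cd_inj {a b : α} : cd M a = cd M b ↔ a = b :=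
  ⟨fun h => IType.inj h, fun h => by rw [h]⟩

lemma mem_cr {x : M} : Mem x (cr M α) ↔ ∃ a : α, cd M a = x := IType.mem_car x

lemma cd_mem (a : α) : Mem (cd M a) (cr M α) := mem_cr.2 ⟨a, rfl⟩

variable [hM : ZM M]

/-- The code of an internal predicate. -/
lemma IS.exists_code {S : α → Prop} (h : IS M S) :
    ∃ s : M, IsSet s ∧ ∀ x, Mem x s ↔ ∃ a, S a ∧ cd M a = x := by
  obtain ⟨s, hs⟩ := h
  obtain ⟨b, hb, hb'⟩ := sep (Fm.mem (.inl 0) (.inr s)) (cr M α)
  refine ⟨b, hb, fun x => ?_⟩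
  rw [hb', mem_cr]
  simp only [sat_mem, tv_inl, tv_inr, Matrix.cons_val_zero]
  constructor
  · rintro ⟨⟨a, rfl⟩, h⟩
    exact ⟨a, (hs a).1 h, rfl⟩
  · rintro ⟨a, h, rfl⟩
    exact ⟨⟨a, rfl⟩, (hs a).2 h⟩

lemma IS.of_fm (f : Fm M 1) {S : α → Prop} (h : ∀ x : α, f.sat ![cd M x] ↔ S x) : IS M S := by
  obtain ⟨b, -, hb'⟩ := sep f (cr M α)
  refine ⟨b, fun x => ?_⟩
  rw [hb', h]
  exact ⟨fun h => h.2, fun h => ⟨cd_mem x, h⟩⟩

/-- Products. -/
noncomputable instance instITypeProd : IType M (α × β) where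
  code p := opair (cd M p.1) (cd M p.2)
  inj := by
    rintro ⟨a, b⟩ ⟨c, d⟩ h
    rw [opair_inj, cd_inj, cd_inj] at h
    exact Prod.ext h.1 h.2
  car := (exists_prod (cr M α) (cr M β)).choose
  isSet_car := (exists_prod (cr M α) (cr M β)).choose_spec.1
  mem_car x := by
    rw [(exists_prod (cr M α) (cr M β)).choose_spec.2]
    constructor
    · rintro ⟨x, y, hx, hy, rfl⟩
      obtain ⟨a, rfl⟩ := mem_cr.1 hx
      obtain ⟨b, rfl⟩ := mem_cr.1 hy
      exact ⟨(a, b), rfl⟩
    · rintro ⟨⟨a, b⟩, rfl⟩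
      exact ⟨_, _, cd_mem a, cd_mem b, rfl⟩

lemma cd_prod (a : α) (b : β) : cd M (a, b) = opair (cd M a) (cd M b) := rfl

lemma opair_eq_cd {x y : M} {a : α} {b : β} : opair x y = cd M (a, b) ↔ x = cd M a ∧ y = cd M b := by
  rw [cd_prod, opair_inj]

lemma cd_eq_opair {x y : M} {a : α} {b : β} : cd M (a, b) = opair x y ↔ x = cd M a ∧ y = cd M b := by
  rw [eq_comm, opair_eq_cd]

lemma IS.of_fm2 (f : Fm M 3) {S : α × β → Prop}
    (h : ∀ (x : α) (y : β), f.sat ![cd M y, cd M x, cd M (x, y)] ↔ S (x, y)) : IS M S := by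
  refine IS.of_fm (Fm.ex (Fm.ex ((fPair (.inl 2) (.inl 1) (.inl 0)).and f))) ?_
  rintro ⟨x, y⟩
  rw [← h]
  simp only [sat_ex, sat_and, sat_fPair, tv_inl, isPair_iff]
  constructor
  · rintro ⟨a, b, h1, h2⟩
    have h1' : cd M (x, y) = opair a b := h1
    rw [cd_prod, opair_inj] at h1'
    obtain ⟨rfl, rfl⟩ := h1'
    exact h2
  · intro h2
    exact ⟨cd M x, cd M y, rfl, h2⟩

lemma IS.not {S : α → Prop} (h : IS M S) : IS M (fun x => ¬ S x) := by
  obtain ⟨s, hs⟩ := h
  refine IS.of_fm (Fm.neg (Fm.mem (.inl 0) (.inr s))) (fun x => ?_)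
  simp [hs]

lemma IS.and {S T : α → Prop} (h : IS M S) (h' : IS M T) : IS M (fun x => S x ∧ T x) := by
  obtain ⟨s, hs⟩ := h
  obtain ⟨t, ht⟩ := h'
  refine IS.of_fm (Fm.and (Fm.mem (.inl 0) (.inr s)) (Fm.mem (.inl 0) (.inr t))) (fun x => ?_)
  simp [hs, ht]

lemma IS.ex {S : α × β → Prop} (h : IS M S) : IS M (fun x => ∃ y, S (x, y)) := by
  obtain ⟨s, hs⟩ := h
  refine IS.of_fm (Fm.ex (Fm.and (Fm.mem (.inl 0) (.inr (cr M β)))
    (fApp (.inr s) (.inl 1) (.inl 0)))) (fun x => ?_)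
  simp only [sat_ex, sat_and, sat_mem, tv_inl, sat_fApp, tv_inr, app_iff]
  constructor
  · rintro ⟨y, h1, h2⟩
    obtain ⟨b, hb⟩ := mem_cr.1 h1
    refine ⟨b, (hs _).1 ?_⟩
    rw [cd_prod, hb]
    exact h2
  · rintro ⟨y, h2⟩
    exact ⟨cd M y, cd_mem y, (hs _).2 h2⟩

/-- The two truth values. -/
noncomputable def zro : M := (exists_empty M).choose

lemma zro_spec : IsSet (zro : M) ∧ ∀ x : M, ¬ Mem x zro := (exists_empty M).choose_spec

/-- The two truth values. -/
noncomputable def uno : M := (exists_upair (zro : M) zro).choose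

lemma uno_spec : IsUPair (uno : M) zro zro := (exists_upair (zro : M) zro).choose_spec

lemma zro_ne_uno : (zro : M) ≠ uno := by
  intro h
  apply (zro_spec (M := M)).2 zro
  have := (uno_spec (M := M)).2 zro
  rw [← h] at this
  exact this.2 (Or.inl rfl)

/-- Truth values. -/
noncomputable instance instITypeProp : IType M Prop where
  code p := open Classical in if p then uno else zro
  inj := by
    intro p q h
    by_cases hp : p <;> by_cases hq : q
    · simp [hp, hq]
    · exact absurd h (by simpa [hp, hq] using zro_ne_uno.symm)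
    · exact absurd h (by simpa [hp, hq] using zro_ne_uno)
    · simp [hp, hq]
  car := (exists_upair (zro : M) uno).choose
  isSet_car := (exists_upair (zro : M) uno).choose_spec.1
  mem_car x := by
    rw [(exists_upair (zro : M) uno).choose_spec.2]
    constructor
    · rintro (rfl | rfl)
      · exact ⟨False, by simp⟩
      · exact ⟨True, by simp⟩
    · rintro ⟨p, rfl⟩
      by_cases hp : p
      · right
        simp [hp]
      · left
        simp [hp]

lemma cd_true {p : Prop} (h : p) : cd M p = uno := if_pos h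
lemma cd_false {p : Prop} (h : ¬ p) : cd M p = zro := if_neg h

end

/-- Internal maps. -/
@[fun_prop] structure IM (M : Type u) [LZ.Structure M] [ZM M] {α : Type v} {β : Type w} [IType M α] [IType M β]
    (f : α → β) : Prop where
  out : IS M (fun p : α × β => f p.1 = p.2)

section

variable {M : Type u} [LZ.Structure M] {α β γ δ : Type*} [IType M α] [IType M β] [IType M γ]
  [IType M δ] [hM : ZM M]

lemma IM.graph {f : α → β} (h : IM M f) : ∃ g : M, ∀ x y, App g (cd M x) (cd M y) ↔ f x = y := by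
  obtain ⟨g, hg⟩ := h.out
  refine ⟨g, fun x y => ?_⟩
  rw [app_iff]
  exact hg (x, y)

/-- The formula expressing that `f x` has code `y`, in terms of a code of a graph. -/
lemma IM.graph' {f : α → β} (h : IM M f) : ∃ g : M, ∀ (x : α) (y : M),
    App g (cd M x) y ↔ cd M (f x) = y := by
  obtain ⟨g, hgs, hg⟩ := h.out.exists_code
  refine ⟨g, fun x y => ?_⟩
  rw [app_iff, hg]
  constructor
  · rintro ⟨⟨a, b⟩, h1, h2⟩
    rw [cd_prod, opair_inj, cd_inj] at h2
    obtain ⟨rfl, rfl⟩ := h2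
    have h1' : f a = b := h1
    rw [h1']
  · rintro rfl
    exact ⟨(x, f x), rfl, rfl⟩

lemma IM.pred_iff {S : α → Prop} : IM M S ↔ IS M S := by
  constructor
  · intro h
    obtain ⟨g, hg⟩ := IM.graph' h
    refine IS.of_fm (fApp (.inr g) (.inl 0) (.inr uno)) (fun x => ?_)
    simp only [sat_fApp, tv_inl, tv_inr, Matrix.cons_val_zero, hg]
    constructor
    · intro h1
      by_contra h2
      rw [cd_false h2] at h1
      exact zro_ne_uno h1
    · intro h1
      rw [cd_true h1]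
  · rintro ⟨s, hs⟩
    refine ⟨IS.of_fm2 (((Fm.mem (.inl 1) (.inr s)).and (Fm.eq (.inl 0) (.inr uno))).or
      ((Fm.mem (.inl 1) (.inr s)).neg.and (Fm.eq (.inl 0) (.inr zro)))) (fun x y => ?_)⟩
    simp only [sat_or, sat_and, sat_mem, sat_neg, sat_eq, tv_inl, tv_inr, Matrix.cons_val_zero,
      Matrix.cons_val_one, hs]
    by_cases h : S x
    · by_cases hy : y
      · simp [h, hy, cd_true]
      · simp [h, hy, cd_false, zro_ne_uno]
    · by_cases hy : y
      · simp [h, hy, cd_true, zro_ne_uno.symm]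
      · simp [h, hy, cd_false]

@[fun_prop] lemma im_id : IM M (fun x : α => x) := by
  refine ⟨IS.of_fm2 (Fm.eq (.inl 0) (.inl 1)) (fun x y => ?_)⟩
  simp [cd_inj, eq_comm]

@[fun_prop] lemma im_const (c : β) : IM M (fun _ : α => c) := by
  refine ⟨IS.of_fm2 (Fm.eq (.inl 0) (.inr (cd M c))) (fun x y => ?_)⟩
  simp [cd_inj, eq_comm]

@[fun_prop] lemma im_comp {g : β → γ} {f : α → β} (hg : IM M g) (hf : IM M f) :
    IM M (fun x => g (f x)) := by
  obtain ⟨F, hF⟩ := IM.graph' hf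
  obtain ⟨G, hG⟩ := IM.graph' hg
  refine ⟨IS.of_fm2 (Fm.ex ((fApp (.inr F) (.inl 2) (.inl 0)).and
    (fApp (.inr G) (.inl 0) (.inl 1)))) (fun x y => ?_)⟩
  simp only [sat_ex, sat_and, sat_fApp, tv_inl, tv_inr]
  constructor
  · rintro ⟨z, h1, h2⟩
    have h1' := (hF x z).1 h1
    subst h1'
    have h2' := (hG (f x) (cd M y)).1 h2
    exact cd_inj.1 h2'
  · rintro rfl
    exact ⟨cd M (f x), (hF x _).2 rfl, (hG _ _).2 rfl⟩

@[fun_prop] lemma im_pair {f : α → β} {g : α → γ} (hf : IM M f) (hg : IM M g) :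
    IM M (fun x => (f x, g x)) := by
  obtain ⟨F, hF⟩ := IM.graph' hf
  obtain ⟨G, hG⟩ := IM.graph' hg
  refine ⟨IS.of_fm2 (Fm.ex (Fm.ex ((fPair (.inl 2) (.inl 1) (.inl 0)).and
    ((fApp (.inr F) (.inl 3) (.inl 1)).and
    (fApp (.inr G) (.inl 3) (.inl 0)))))) ?_⟩
  rintro x ⟨y, z⟩
  simp only [sat_ex, sat_and, sat_fApp, tv_inl, tv_inr, sat_fPair, isPair_iff]
  constructor
  · rintro ⟨a, b, h1, h2, h3⟩
    have h2' := (hF x a).1 h2
    have h3' := (hG x b).1 h3
    subst h2'
    subst h3'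
    have h1' : cd M (y, z) = opair (cd M (f x)) (cd M (g x)) := h1
    rw [cd_prod, opair_inj, cd_inj, cd_inj] at h1'
    rw [← h1'.1, ← h1'.2]
  · intro h
    obtain ⟨rfl, rfl⟩ := Prod.mk.inj h
    exact ⟨_, _, rfl, (hF x _).2 rfl, (hG _ _).2 rfl⟩

lemma im_fst0 : IM M (fun x : α × β => x.1) := by
  refine ⟨IS.of_fm2 (Fm.ex (fPair (.inl 2) (.inl 1) (.inl 0))) ?_⟩
  rintro ⟨x, y⟩ z
  simp only [sat_ex, tv_inl, sat_fPair, isPair_iff]
  constructor
  · rintro ⟨a, h1⟩
    have h1' : cd M (x, y) = opair (cd M z) a := h1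
    rw [cd_prod, opair_inj, cd_inj] at h1'
    exact h1'.1
  · rintro rfl
    exact ⟨cd M y, rfl⟩

lemma im_snd0 : IM M (fun x : α × β => x.2) := by
  refine ⟨IS.of_fm2 (Fm.ex (fPair (.inl 2) (.inl 0) (.inl 1))) ?_⟩
  rintro ⟨x, y⟩ z
  simp only [sat_ex, tv_inl, sat_fPair, isPair_iff]
  constructor
  · rintro ⟨a, h1⟩
    have h1' : cd M (x, y) = opair a (cd M z) := h1
    rw [cd_prod, opair_inj, cd_inj] at h1'
    exact h1'.2
  · rintro rfl
    exact ⟨cd M x, rfl⟩

@[fun_prop] lemma im_eq {f g : α → β} (hf : IM M f) (hg : IM M g) : IM M (fun x => f x = g x) := by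
  obtain ⟨F, hF⟩ := IM.graph' hf
  obtain ⟨G, hG⟩ := IM.graph' hg
  refine IM.pred_iff.2 (IS.of_fm (Fm.ex ((fApp (.inr F) (.inl 1) (.inl 0)).and
    (fApp (.inr G) (.inl 1) (.inl 0)))) (fun x => ?_))
  simp only [sat_ex, sat_and, sat_fApp, tv_inl, tv_inr]
  constructor
  · rintro ⟨z, h1, h2⟩
    have h1' := (hF x z).1 h1
    have h2' := (hG x z).1 h2
    rw [← h2', cd_inj] at h1'
    exact h1'
  · intro h
    exact ⟨cd M (f x), (hF x _).2 rfl, (hG _ _).2 (by rw [← h]; rfl)⟩

@[fun_prop] lemma im_not {p : α → Prop} (hp : IM M p) : IM M (fun x => ¬ p x) :=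
  IM.pred_iff.2 (IS.not (IM.pred_iff.1 hp))

@[fun_prop] lemma im_and {p q : α → Prop} (hp : IM M p) (hq : IM M q) : IM M (fun x => p x ∧ q x) :=
  IM.pred_iff.2 (IS.and (IM.pred_iff.1 hp) (IM.pred_iff.1 hq))

@[fun_prop] lemma im_or {p q : α → Prop} (hp : IM M p) (hq : IM M q) : IM M (fun x => p x ∨ q x) := by
  have h := im_not (im_and (im_not hp) (im_not hq))
  convert h using 2 with x
  tauto

@[fun_prop] lemma im_imp {p q : α → Prop} (hp : IM M p) (hq : IM M q) : IM M (fun x => p x → q x) := by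
  have h := im_not (im_and hp (im_not hq))
  convert h using 2 with x
  tauto

@[fun_prop] lemma im_iff {p q : α → Prop} (hp : IM M p) (hq : IM M q) : IM M (fun x => p x ↔ q x) := by
  have h := im_and (im_imp hp hq) (im_imp hq hp)
  convert h using 2 with x
  tauto

@[fun_prop] lemma im_ex {p : α → β → Prop} (hp : IM M (fun x : α × β => p x.1 x.2)) :
    IM M (fun x => ∃ y, p x y) :=
  IM.pred_iff.2 (IS.ex (IM.pred_iff.1 hp))

@[fun_prop] lemma im_all {p : α → β → Prop} (hp : IM M (fun x : α × β => p x.1 x.2)) :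
    IM M (fun x => ∀ y, p x y) := by
  have h := im_not (im_ex (p := fun x y => ¬ p x y) (im_not hp))
  convert h using 2 with x
  simp

/-- A map whose graph is internal is internal. -/
lemma IM.of_graph {f : α → β} (hf : IM M (fun x : α × β => f x.1 = x.2)) : IM M f :=
  ⟨IM.pred_iff.1 hf⟩

end

/-- Internal maps, bundled. -/
structure IFun (M : Type u) [LZ.Structure M] [ZM M] (α : Type v) (β : Type w) [IType M α]
    [IType M β] where
  /-- the underlying map -/
  ev : α → β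
  im : IM M ev

section

variable {M : Type u} [LZ.Structure M] {α β γ δ : Type*} [IType M α] [IType M β] [IType M γ]
  [IType M δ] [hM : ZM M]

@[ext] lemma IFun.ext {f g : IFun M α β} (h : ∀ x, f.ev x = g.ev x) : f = g := by
  cases f
  cases g
  congr
  exact funext h

/-- The graph of an internal map. -/
lemma IFun.exists_gr (f : IFun M α β) :
    ∃ s : M, IsSet s ∧ ∀ x, Mem x s ↔ ∃ a : α × β, f.ev a.1 = a.2 ∧ cd M a = x :=
  f.im.out.exists_code

/-- The graph of an internal map. -/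
noncomputable def IFun.gr (f : IFun M α β) : M := f.exists_gr.choose

lemma IFun.isSet_gr (f : IFun M α β) : IsSet f.gr := f.exists_gr.choose_spec.1

lemma IFun.mem_gr (f : IFun M α β) {x : M} :
    Mem x f.gr ↔ ∃ a : α × β, f.ev a.1 = a.2 ∧ cd M a = x := f.exists_gr.choose_spec.2 x

lemma IFun.app_gr (f : IFun M α β) {x : α} {y : β} :
    App f.gr (cd M x) (cd M y) ↔ f.ev x = y := by
  rw [app_iff, ← cd_prod, f.mem_gr]
  constructor
  · rintro ⟨a, h1, h2⟩
    rw [cd_inj] at h2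
    subst h2
    exact h1
  · intro h
    exact ⟨(x, y), h, rfl⟩

lemma exists_power (a : M) : ∃ b, IsSet b ∧ ∀ z, Mem z b ↔ IsSet z ∧ ∀ w, Mem w z → Mem w a :=
  hM.zfa.power a

lemma IFun.exists_car : ∃ s : M, IsSet s ∧ ∀ x, Mem x s ↔ ∃ f : IFun M α β, f.gr = x := by
  obtain ⟨b, hb, hb'⟩ := exists_power (cr M (α × β))
  obtain ⟨c, hc, hc'⟩ := sep (Fm.all (Fm.imp (Fm.mem (.inl 0) (.inr (cr M α)))
    (Fm.ex (Fm.and (fApp (.inl 2) (.inl 1) (.inl 0)) (Fm.all (Fm.imp (fApp (.inl 3) (.inl 2)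
      (.inl 0)) (Fm.eq (.inl 1) (.inl 0)))))))) b
  refine ⟨c, hc, fun s => ?_⟩
  rw [hc', hb']
  simp only [sat_ex, sat_and, sat_fApp, tv_inl, tv_inr, sat_all, sat_imp, sat_mem, sat_eq]
  constructor
  · rintro ⟨⟨hs, h1⟩, h2⟩
    have h3 : ∀ x : α, ∃ y : β, App s (cd M x) (cd M y) ∧ ∀ z, App s (cd M x) z → cd M y = z := by
      intro x
      obtain ⟨z, h3, h4⟩ := h2 (cd M x) (cd_mem x)
      have h3' : App s (cd M x) z := h3
      rw [app_iff] at h3'
      obtain ⟨⟨a, b⟩, h5⟩ := mem_cr.1 (h1 _ h3')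
      rw [cd_prod, opair_inj] at h5
      obtain ⟨h5, rfl⟩ := h5
      exact ⟨b, h3, h4⟩
    choose f hf hf' using h3
    have hI : IM M f := by
      refine ⟨s, fun p => ?_⟩
      rw [cd_prod, ← app_iff]
      constructor
      · intro h
        exact cd_inj.1 (hf' _ _ h)
      · intro h
        rw [← h]
        exact hf _
    refine ⟨⟨f, hI⟩, ?_⟩
    refine set_ext (IFun.isSet_gr _) hs (fun x => ?_)
    rw [IFun.mem_gr]
    constructor
    · rintro ⟨⟨a, b⟩, h3, rfl⟩
      have h3' : f a = b := h3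
      rw [← h3', cd_prod, ← app_iff]
      exact hf a
    · intro h
      obtain ⟨⟨a, b⟩, rfl⟩ := mem_cr.1 (h1 _ h)
      refine ⟨(a, b), ?_, rfl⟩
      rw [cd_prod, ← app_iff] at h
      exact cd_inj.1 (hf' _ _ h)
  · rintro ⟨f, rfl⟩
    refine ⟨⟨f.isSet_gr, fun w hw => ?_⟩, fun x hx => ?_⟩
    · obtain ⟨a, -, rfl⟩ := f.mem_gr.1 hw
      exact cd_mem a
    · obtain ⟨a, rfl⟩ := mem_cr.1 hx
      refine ⟨cd M (f.ev a), f.app_gr.2 rfl, fun z hz => ?_⟩
      have hz' : App f.gr (cd M a) z := hz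
      rw [app_iff] at hz'
      obtain ⟨⟨x, y⟩, h, h'⟩ := f.mem_gr.1 hz'
      rw [cd_prod, opair_inj, cd_inj] at h'
      obtain ⟨rfl, rfl⟩ := h'
      have h1 : f.ev x = y := h
      show cd M (f.ev x) = cd M y
      rw [← h1]

/-- The internal type of internal maps. -/
noncomputable instance instITypeIFun : IType M (IFun M α β) where
  code := IFun.gr
  inj := by
    intro f g h
    ext x
    have h1 : App f.gr (cd M x) (cd M (f.ev x)) := f.app_gr.2 rfl
    rw [h, g.app_gr] at h1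
    exact h1.symm
  car := IFun.exists_car.choose
  isSet_car := IFun.exists_car.choose_spec.1
  mem_car := IFun.exists_car.choose_spec.2

lemma cd_ifun (f : IFun M α β) : cd M f = f.gr := rfl

lemma im_ev0 : IM M (fun p : IFun M α β × α => p.1.ev p.2) := by
  refine ⟨IS.of_fm2 (Fm.ex (Fm.ex ((fPair (.inl 3) (.inl 1) (.inl 0)).and
    (fApp (.inl 1) (.inl 0) (.inl 2))))) ?_⟩
  rintro ⟨f, x⟩ y
  simp only [sat_ex, sat_and, sat_fApp, tv_inl, sat_fPair, isPair_iff]
  constructor
  · rintro ⟨a, b, h1, h2⟩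
    have h1' : cd M (f, x) = opair a b := h1
    rw [cd_prod, opair_inj] at h1'
    obtain ⟨rfl, rfl⟩ := h1'
    exact f.app_gr.1 h2
  · intro h
    exact ⟨_, _, rfl, f.app_gr.2 h⟩

/-- Internal abstraction. -/
@[simps] def lam (f : α → β) (h : IM M f) : IFun M α β := ⟨f, h⟩

lemma im_curry {f : α → β → γ} (hf : IM M (fun x : α × β => f x.1 x.2)) (x : α) :
    IM M (f x) :=
  im_comp (g := fun x : α × β => f x.1 x.2) (f := fun y => (x, y)) hf
    (im_pair (im_const x) im_id)

lemma im_lam0 {f : α → β → γ} (hf : IM M (fun x : α × β => f x.1 x.2)) :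
    IM M (fun x => (⟨f x, im_curry hf x⟩ : IFun M β γ)) := by
  obtain ⟨F, hF⟩ := IM.graph' hf
  refine ⟨IS.of_fm2 (Fm.all (Fm.iff (Fm.mem (.inl 0) (.inl 1))
    (Fm.ex (Fm.ex ((Fm.and (Fm.mem (.inl 1) (.inr (cr M β))) (fPair (.inl 2) (.inl 1) (.inl 0))).and
    (Fm.ex (Fm.and (fPair (.inl 0) (.inl 5) (.inl 2))
      (fApp (.inr F) (.inl 0) (.inl 1))))))))) ?_⟩
  intro x g
  simp only [sat_all, sat_iff, sat_mem, sat_ex, sat_and, sat_fApp, tv_inl, tv_inr, sat_fPair,
    isPair_iff]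
  have key : ∀ w : M, (∃ y z : M, (Mem y (cr M β) ∧ w = opair y z) ∧ ∃ q, q = opair (cd M x) y ∧
      App F q z) ↔ ∃ a : β × γ, f x a.1 = a.2 ∧ cd M a = w := by
    intro w
    constructor
    · rintro ⟨y, z, ⟨hy, rfl⟩, q, rfl, h⟩
      obtain ⟨b, rfl⟩ := mem_cr.1 hy
      rw [← cd_prod] at h
      have := (hF (x, b) z).1 h
      exact ⟨(b, f x b), rfl, by rw [cd_prod, this]⟩
    · rintro ⟨⟨b, c⟩, h1, rfl⟩
      refine ⟨cd M b, cd M c, ⟨cd_mem b, rfl⟩, _, rfl, ?_⟩
      rw [← cd_prod]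
      have h1' : f x b = c := h1
      exact (hF (x, b) _).2 (by rw [← h1'])
  constructor
  · intro h
    have h' : ∀ w : M, Mem w (cd M g) ↔ ∃ a : β × γ, f x a.1 = a.2 ∧ cd M a = w := by
      intro w
      rw [← key]
      exact h w
    apply IType.inj (M := M)
    refine set_ext (IFun.isSet_gr _) (IFun.isSet_gr _) (fun w => ?_)
    have h2 : Mem w (IFun.gr (⟨f x, im_curry hf x⟩ : IFun M β γ)) ↔ _ := IFun.mem_gr _
    exact h2.trans (h' w).symm
  · intro hg
    have hg' : (⟨f x, im_curry hf x⟩ : IFun M β γ) = g := hg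
    subst hg'
    intro w
    have h' : Mem w (cd M (⟨f x, im_curry hf x⟩ : IFun M β γ)) ↔
      ∃ a : β × γ, f x a.1 = a.2 ∧ cd M a = w := IFun.mem_gr _
    rw [← key] at h'
    exact h'

@[fun_prop] lemma im_fst {f : α → β × γ} (h : IM M f) : IM M (fun x => (f x).1) :=
  im_comp (g := fun x : β × γ => x.1) im_fst0 h

@[fun_prop] lemma im_snd {f : α → β × γ} (h : IM M f) : IM M (fun x => (f x).2) :=
  im_comp (g := fun x : β × γ => x.2) im_snd0 h

@[fun_prop] lemma im_ev {f : α → IFun M β γ} {g : α → β} (hf : IM M f) (hg : IM M g) :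
    IM M (fun x => (f x).ev (g x)) :=
  im_comp (g := fun p : IFun M β γ × β => p.1.ev p.2) (f := fun x => (f x, g x)) im_ev0
    (im_pair hf hg)

@[fun_prop] lemma im_ev1 (f : IFun M α β) : IM M f.ev := f.im

@[fun_prop] lemma im_lam {f : α → β → γ} {h : ∀ x, IM M (f x)}
    (hf : IM M (fun x : α × β => f x.1 x.2)) : IM M (fun x => lam (f x) (h x)) := im_lam0 hf

@[simp] lemma IFun.mk_ev (f : IFun M α β) (h) : (⟨f.ev, h⟩ : IFun M α β) = f := rfl

@[simp] lemma lam_ev_eq (f : IFun M α β) (h) : lam f.ev h = f := rfl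

/-! ### Subsets -/

end

noncomputable section

/-- internal subsets -/
abbrev IPow (M : Type u) [LZ.Structure M] [ZM M] (α : Type v) [IType M α] := IFun M α Prop

section

variable {M : Type u} [LZ.Structure M] {α β γ δ : Type*} [IType M α] [IType M β] [IType M γ]
  [IType M δ] [hM : ZM M]

instance instMemIPow : Membership α (IPow M α) := ⟨fun S x => S.ev x⟩

lemma ev_iff {S : IPow M α} {x : α} : S.ev x ↔ x ∈ S := Iff.rfl

@[fun_prop] lemma im_mem {f : α → IPow M β} {g : α → β} (hf : IM M f) (hg : IM M g) :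
    IM M (fun x => g x ∈ f x) := im_ev hf hg

@[ext] lemma IPow.ext {S T : IPow M α} (h : ∀ x, x ∈ S ↔ x ∈ T) : S = T :=
  IFun.ext (fun x => propext (h x))

/-- comprehension -/
def cmp (p : α → Prop) (h : IM M p) : IPow M α := lam p h

@[simp] lemma mem_cmp {p : α → Prop} {h : IM M p} {x : α} : x ∈ cmp p h ↔ p x := Iff.rfl

@[fun_prop] lemma im_cmp {f : α → β → Prop} {h : ∀ x, IM M (f x)}
    (hf : IM M (fun x : α × β => f x.1 x.2)) : IM M (fun x => cmp (f x) (h x)) := im_lam0 hf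

instance : EmptyCollection (IPow M α) := ⟨cmp (fun _ => False) (by fun_prop)⟩

@[simp] lemma notMem_empty (x : α) : ¬ x ∈ (∅ : IPow M α) := id

instance : Insert α (IPow M α) := ⟨fun a S => cmp (fun x => x = a ∨ x ∈ S) (by fun_prop)⟩

@[simp] lemma mem_insert {x a : α} {S : IPow M α} :
    x ∈ (insert a S : IPow M α) ↔ x = a ∨ x ∈ S := Iff.rfl

@[fun_prop] lemma im_insert {f : α → IPow M β} {g : α → β} (hf : IM M f) (hg : IM M g) :
    IM M (fun x => (insert (g x) (f x) : IPow M β)) := by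
  show IM M (fun x => cmp (fun y => y = g x ∨ y ∈ f x) _)
  fun_prop

instance : Singleton α (IPow M α) := ⟨fun a => cmp (fun x => x = a) (by fun_prop)⟩

@[simp] lemma mem_singleton {x a : α} : x ∈ ({a} : IPow M α) ↔ x = a := Iff.rfl

@[fun_prop] lemma im_singleton {g : α → β} (hg : IM M g) :
    IM M (fun x => ({g x} : IPow M β)) := by
  show IM M (fun x => cmp (fun y => y = g x) _)
  fun_prop

instance : Union (IPow M α) := ⟨fun S T => cmp (fun x => x ∈ S ∨ x ∈ T) (by fun_prop)⟩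

@[simp] lemma mem_union {x : α} {S T : IPow M α} :
    x ∈ (S ∪ T : IPow M α) ↔ x ∈ S ∨ x ∈ T := Iff.rfl

@[fun_prop] lemma im_union {f g : α → IPow M β} (hf : IM M f) (hg : IM M g) :
    IM M (fun x => (f x ∪ g x : IPow M β)) := by
  show IM M (fun x => cmp (fun y => y ∈ f x ∨ y ∈ g x) _)
  fun_prop

instance : Inter (IPow M α) := ⟨fun S T => cmp (fun x => x ∈ S ∧ x ∈ T) (by fun_prop)⟩

@[simp] lemma mem_inter {x : α} {S T : IPow M α} :
    x ∈ (S ∩ T : IPow M α) ↔ x ∈ S ∧ x ∈ T := Iff.rfl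

@[fun_prop] lemma im_inter {f g : α → IPow M β} (hf : IM M f) (hg : IM M g) :
    IM M (fun x => (f x ∩ g x : IPow M β)) := by
  show IM M (fun x => cmp (fun y => y ∈ f x ∧ y ∈ g x) _)
  fun_prop

instance : SDiff (IPow M α) := ⟨fun S T => cmp (fun x => x ∈ S ∧ ¬ x ∈ T) (by fun_prop)⟩

@[simp] lemma mem_sdiff {x : α} {S T : IPow M α} :
    x ∈ (S \ T : IPow M α) ↔ x ∈ S ∧ ¬ x ∈ T := Iff.rfl

@[fun_prop] lemma im_sdiff {f g : α → IPow M β} (hf : IM M f) (hg : IM M g) :
    IM M (fun x => (f x \ g x : IPow M β)) := by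
  show IM M (fun x => cmp (fun y => y ∈ f x ∧ ¬ y ∈ g x) _)
  fun_prop

instance : HasSubset (IPow M α) := ⟨fun S T => ∀ x, x ∈ S → x ∈ T⟩

lemma subset_def {S T : IPow M α} : S ⊆ T ↔ ∀ x, x ∈ S → x ∈ T := Iff.rfl

@[fun_prop] lemma im_subset {f g : α → IPow M β} (hf : IM M f) (hg : IM M g) :
    IM M (fun x => f x ⊆ g x) := by
  show IM M (fun x => ∀ y, y ∈ f x → y ∈ g x)
  fun_prop

lemma subset_antisymm {S T : IPow M α} (h : S ⊆ T) (h' : T ⊆ S) : S = T :=
  IPow.ext (fun x => ⟨h x, h' x⟩)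

/-- direct image -/
def img (f : α → β) (hf : IM M f) (S : IPow M α) : IPow M β :=
  cmp (fun y => ∃ x, x ∈ S ∧ f x = y) (by fun_prop)

@[simp] lemma mem_img {f : α → β} {hf : IM M f} {S : IPow M α} {y : β} :
    y ∈ img f hf S ↔ ∃ x, x ∈ S ∧ f x = y := Iff.rfl

@[fun_prop] lemma im_img {f : α → β → γ} {h : ∀ x, IM M (f x)} {S : α → IPow M β}
    (hf : IM M (fun x : α × β => f x.1 x.2)) (hS : IM M S) :
    IM M (fun x => img (f x) (h x) (S x)) := by
  unfold img
  fun_prop

/-- union of a family -/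
def bUn (S : IPow M α) (f : α → IPow M β) (hf : IM M f) : IPow M β :=
  cmp (fun y => ∃ x, x ∈ S ∧ y ∈ f x) (by fun_prop)

@[simp] lemma mem_bUn {f : α → IPow M β} {hf : IM M f} {S : IPow M α} {y : β} :
    y ∈ bUn S f hf ↔ ∃ x, x ∈ S ∧ y ∈ f x := Iff.rfl

@[fun_prop] lemma im_bUn {f : α → β → IPow M γ} {h : ∀ x, IM M (f x)} {S : α → IPow M β}
    (hf : IM M (fun x : α × β => f x.1 x.2)) (hS : IM M S) :
    IM M (fun x => bUn (S x) (f x) (h x)) := by
  unfold bUn
  fun_prop

/-- A map whose graph is internal is internal. -/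
lemma im_of_graph {f : α → β} (hf : IM M (fun x : α × β => f x.1 = x.2)) : IM M f :=
  IM.of_graph hf

@[fun_prop] lemma im_ite {p : α → Prop} [∀ x, Decidable (p x)] {f g : α → β} (hp : IM M p)
    (hf : IM M f) (hg : IM M g) : IM M (fun x => if p x then f x else g x) := by
  apply im_of_graph
  have h : IM M (fun x : α × β => (p x.1 → f x.1 = x.2) ∧ (¬ p x.1 → g x.1 = x.2)) := by fun_prop
  convert h using 2 with x
  by_cases hx : p x.1 <;> simp [hx]

open Classical in
/-- The unique element, if there is one. -/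
noncomputable def the [Nonempty α] (S : IPow M α) : α :=
  if h : ∃ x, x ∈ S ∧ ∀ y, y ∈ S → y = x then h.choose else Classical.arbitrary α

lemma the_eq [Nonempty α] {S : IPow M α} {x : α} (hx : x ∈ S) (h : ∀ y, y ∈ S → y = x) :
    the S = x := by
  have h' : ∃ x, x ∈ S ∧ ∀ y, y ∈ S → y = x := ⟨x, hx, h⟩
  rw [the, dif_pos h']
  exact h _ h'.choose_spec.1

lemma the_mem [Nonempty α] {S : IPow M α} (h : ∃ x, x ∈ S ∧ ∀ y, y ∈ S → y = x) :
    the S ∈ S := by
  rw [the, dif_pos h]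
  exact h.choose_spec.1

@[fun_prop] lemma im_the [Nonempty β] {f : α → IPow M β} (hf : IM M f) :
    IM M (fun x => the (f x)) := by
  apply im_of_graph
  have h : IM M (fun x : α × β => (x.2 ∈ f x.1 ∧ ∀ y, y ∈ f x.1 → y = x.2) ∨
    ((¬ ∃ z, z ∈ f x.1 ∧ ∀ y, y ∈ f x.1 → y = z) ∧ x.2 = Classical.arbitrary β)) := by fun_prop
  convert h using 2 with x
  by_cases h' : ∃ z, z ∈ f x.1 ∧ ∀ y, y ∈ f x.1 → y = z
  · have h1 := h'.choose_spec
    constructor
    · intro h2
      left
      rw [the, dif_pos h'] at h2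
      rw [← h2]
      exact h1
    · rintro (h2 | h2)
      · exact the_eq h2.1 h2.2
      · exact absurd h' h2.1
  · constructor
    · intro h2
      right
      rw [the, dif_neg h'] at h2
      exact ⟨h', h2.symm⟩
    · rintro (h2 | h2)
      · exact absurd ⟨_, h2.1, h2.2⟩ h'
      · rw [the, dif_neg h', h2.2]

/-! ### Subtypes -/

/-- The type of elements of an internal subset. -/
abbrev El (S : IPow M α) := {x : α // x ∈ S}

noncomputable instance instITypeEl (S : IPow M α) : IType M {x : α // x ∈ S} where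
  code x := cd M x.1
  inj := by
    rintro ⟨x, hx⟩ ⟨y, hy⟩ h
    exact Subtype.ext (cd_inj.1 h)
  car := (IM.pred_iff.1 S.im).exists_code.choose
  isSet_car := (IM.pred_iff.1 S.im).exists_code.choose_spec.1
  mem_car x := by
    rw [(IM.pred_iff.1 S.im).exists_code.choose_spec.2]
    exact ⟨fun ⟨a, h, h'⟩ => ⟨⟨a, h⟩, h'⟩, fun ⟨⟨a, h⟩, h'⟩ => ⟨a, h, h'⟩⟩

lemma cd_el {S : IPow M α} (x : {x : α // x ∈ S}) : cd M x = cd M x.1 := rfl

lemma im_val0 (S : IPow M α) : IM M (fun x : {x : α // x ∈ S} => x.1) := by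
  refine ⟨IS.of_fm2 (Fm.eq (.inl 0) (.inl 1)) (fun x y => ?_)⟩
  simp only [sat_eq, tv_inl, Matrix.cons_val_zero, Matrix.cons_val_one]
  rw [cd_el, cd_inj, eq_comm]

@[fun_prop] lemma im_val {S : IPow M β} {f : α → {x : β // x ∈ S}} (hf : IM M f) :
    IM M (fun x => (f x).1) := im_comp (im_val0 S) hf

@[fun_prop] lemma im_mk {S : IPow M β} {f : α → β} {h : ∀ x, f x ∈ S} (hf : IM M f) :
    IM M (fun x => (⟨f x, h x⟩ : {x : β // x ∈ S})) := by
  apply im_of_graph
  have h1 : IM M (fun x : α × {x : β // x ∈ S} => f x.1 = x.2.1) := by fun_prop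
  convert h1 using 2 with x
  exact Subtype.ext_iff

/-- Transport of the structure of an internal type along an injection with internal range. -/
@[instance_reducible] def IType.ofInj {α : Type v} {β : Type w} [IType M α] (e : β → α)
    (he : Function.Injective e) (S : IPow M α) (hS : ∀ x, x ∈ S ↔ ∃ b, e b = x) : IType M β where
  code b := cd M (e b)
  inj := fun _ _ h => he (cd_inj.1 h)
  car := (IM.pred_iff.1 S.im).exists_code.choose
  isSet_car := (IM.pred_iff.1 S.im).exists_code.choose_spec.1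
  mem_car x := by
    rw [(IM.pred_iff.1 S.im).exists_code.choose_spec.2]
    constructor
    · rintro ⟨a, h, rfl⟩
      obtain ⟨b, rfl⟩ := (hS a).1 h
      exact ⟨b, rfl⟩
    · rintro ⟨b, rfl⟩
      exact ⟨e b, (hS _).2 ⟨b, rfl⟩, rfl⟩

lemma im_ofInj {α : Type v} {β : Type w} [IType M α] (e : β → α)
    (he : Function.Injective e) (S : IPow M α) (hS : ∀ x, x ∈ S ↔ ∃ b, e b = x) :
    letI := IType.ofInj e he S hS
    IM M e := by
  let := IType.ofInj e he S hS
  refine ⟨IS.of_fm2 (Fm.eq (.inl 0) (.inl 1)) (fun x y => ?_)⟩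
  simp only [sat_eq, tv_inl, Matrix.cons_val_zero, Matrix.cons_val_one]
  have h1 : cd M x = cd M (e x) := rfl
  rw [h1, cd_inj, eq_comm]

/-- The fibre of a surjection with internal kernel. -/
def fib {α : Type v} {β : Type w} [IType M α] (q : α → β)
    (hq : Function.Surjective q) (hk : IM M (fun p : α × α => q p.1 = q p.2)) (b : β) :
    IPow M α :=
  cmp (fun a => q a = b) (by
    obtain ⟨a, rfl⟩ := hq b
    exact im_comp (g := fun p : α × α => q p.1 = q p.2) (f := fun x : α => (x, a)) hk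
      (by fun_prop))

lemma im_fib {α : Type v} {β : Type w} [IType M α] {q : α → β}
    {hq : Function.Surjective q} {hk : IM M (fun p : α × α => q p.1 = q p.2)} :
    IM M (fun a => fib q hq hk (q a)) := by
  unfold fib
  apply im_cmp
  exact im_comp (g := fun p : α × α => q p.1 = q p.2) (f := fun x : α × α => (x.2, x.1)) hk
      (by fun_prop)

/-- Transport of the structure of an internal type along a surjection. -/
@[instance_reducible] def IType.ofSurj {α : Type v} {β : Type w} [IType M α] (q : α → β)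
    (hq : Function.Surjective q) (hk : IM M (fun p : α × α => q p.1 = q p.2)) : IType M β :=
  IType.ofInj (fun b => fib q hq hk b) (by
    intro b c h
    obtain ⟨a, rfl⟩ := hq b
    have h1 : a ∈ fib q hq hk (q a) := by simp [fib]
    have h2 : fib q hq hk (q a) = fib q hq hk c := h
    rw [h2] at h1
    simpa [fib] using h1) (cmp (fun S => ∃ a, fib q hq hk (q a) = S)
      (im_ex (im_eq (im_comp (g := fun a => fib q hq hk (q a)) im_fib im_snd0) im_fst0))) (by
    intro S
    simp only [mem_cmp]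
    constructor
    · rintro ⟨a, rfl⟩
      exact ⟨q a, rfl⟩
    · rintro ⟨b, rfl⟩
      obtain ⟨a, rfl⟩ := hq b
      exact ⟨a, rfl⟩)

lemma im_ofSurj {α : Type v} {β : Type w} [IType M α] (q : α → β)
    (hq : Function.Surjective q) (hk : IM M (fun p : α × α => q p.1 = q p.2)) :
    letI := IType.ofSurj q hq hk
    IM M q := by
  let := IType.ofSurj q hq hk
  apply im_of_graph
  have h : IM M (fun b => fib q hq hk b) := by
    unfold this IType.ofSurj
    exact im_ofInj _ _ _ _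
  have h1 : IM M (fun x : α × β => fib q hq hk (q x.1) = fib q hq hk x.2) :=
    im_eq (im_comp (g := fun a => fib q hq hk (q a)) im_fib im_fst0) (im_comp h im_snd0)
  convert h1 using 2 with x
  constructor
  · intro h2
    rw [h2]
  · intro h2
    have h1 : x.1 ∈ fib q hq hk (q x.1) := by simp [fib]
    rw [h2] at h1
    simpa [fib] using h1

/-- A map on a quotient is internal if its composition with the quotient map is. -/
lemma im_of_comp_surj {q : α → β} (hq : Function.Surjective q) (hq' : IM M q) {f : β → γ}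
    (h : IM M (fun a => f (q a))) : IM M f := by
  apply im_of_graph
  have h1 : IM M (fun x : β × γ => ∃ a, q a = x.1 ∧ f (q a) = x.2) :=
    im_ex (im_and (im_eq (im_comp hq' im_snd0) (im_comp im_fst0 im_fst0))
      (im_eq (im_comp (g := fun a => f (q a)) h im_snd0) (im_comp im_snd0 im_fst0)))
  convert h1 using 2 with x
  constructor
  · intro h2
    obtain ⟨a, ha⟩ := hq x.1
    exact ⟨a, ha, by rw [ha, h2]⟩
  · rintro ⟨a, h1, h2⟩
    rw [← h1, h2]

end

end

end Pool.Agent.Helper93.VB
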