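import Pool.Agent.Helper93.VB.Nat

/-!
The ring of integers of the model, with its order.
-/

universe u v w

namespace Pool.Agent.Helper93.VB

set_option linter.unusedSectionVars false

noncomputable section

variable {M : Type u} [LZ.Structure M] {α β γ δ : Type*} [IType M α] [IType M β] [IType M γ]
  [IType M δ] [hM : ZM M]

variable (M) in
/-- pairs of natural numbers with the same difference -/
def zrel : Setoid (NN M × NN M) where
  r p q := p.1 + q.2 = q.1 + p.2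
  iseqv := by
    refine ⟨fun p => rfl, fun h => h.symm, ?_⟩
    intro p q r h1 h2
    apply nn_add_right_cancel q.2
    calc p.1 + r.2 + q.2 = (p.1 + q.2) + r.2 := by ring
      _ = (q.1 + p.2) + r.2 := by rw [h1]
      _ = (q.1 + r.2) + p.2 := by ring
      _ = (r.1 + q.2) + p.2 := by rw [h2]
      _ = r.1 + p.2 + q.2 := by ring

variable (M) in
/-- The integers of `M`. -/
def ZZ : Type u := Quotient (zrel M)

/-- difference of two natural numbers -/
def zmk (p : NN M × NN M) : ZZ M := Quotient.mk (zrel M) p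

lemma zmk_eq {p q : NN M × NN M} : zmk p = zmk q ↔ p.1 + q.2 = q.1 + p.2 :=
  Quotient.eq (r := zrel M)

lemma zmk_surj : Function.Surjective (zmk (M := M)) := Quotient.exists_rep

lemma im_zker : IM M (fun p : (NN M × NN M) × (NN M × NN M) => zmk p.1 = zmk p.2) := by
  simp only [zmk_eq]
  fun_prop

instance : IType M (ZZ M) := IType.ofSurj zmk zmk_surj im_zker

lemma im_zmk0 : IM M (zmk (M := M)) := im_ofSurj zmk zmk_surj im_zker

@[fun_prop] lemma im_zmk {f : α → NN M × NN M} (hf : IM M f) : IM M (fun x => zmk (f x)) :=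
  im_comp im_zmk0 hf

instance : Add (ZZ M) := ⟨Quotient.map₂ (fun p q => (p.1 + q.1, p.2 + q.2)) (by
  intro p p' h q q' h'
  have h1 : p.1 + p'.2 = p'.1 + p.2 := h
  have h1' : q.1 + q'.2 = q'.1 + q.2 := h'
  show p.1 + q.1 + (p'.2 + q'.2) = p'.1 + q'.1 + (p.2 + q.2)
  calc p.1 + q.1 + (p'.2 + q'.2) = (p.1 + p'.2) + (q.1 + q'.2) := by ring
    _ = _ := by rw [h1, h1']; ring)⟩

lemma zmk_add (p q : NN M × NN M) : zmk p + zmk q = zmk (p.1 + q.1, p.2 + q.2) := rfl

instance : Neg (ZZ M) := ⟨Quotient.map (fun p => (p.2, p.1)) (by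
  intro p p' h
  have h1 : p.1 + p'.2 = p'.1 + p.2 := h
  show p.2 + p'.1 = p'.2 + p.1
  rw [add_comm, ← h1, add_comm])⟩

lemma zmk_neg (p : NN M × NN M) : - zmk p = zmk (p.2, p.1) := rfl

instance : Mul (ZZ M) := ⟨Quotient.map₂
  (fun p q => (p.1 * q.1 + p.2 * q.2, p.1 * q.2 + p.2 * q.1)) (by
  intro p p' h q q' h'
  have h1 : p.1 + p'.2 = p'.1 + p.2 := h
  have h1' : q.1 + q'.2 = q'.1 + q.2 := h'
  show p.1 * q.1 + p.2 * q.2 + (p'.1 * q'.2 + p'.2 * q'.1) =
    p'.1 * q'.1 + p'.2 * q'.2 + (p.1 * q.2 + p.2 * q.1)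
  apply nn_add_right_cancel (p'.2 * q.1 + p'.1 * q.2)
  calc p.1 * q.1 + p.2 * q.2 + (p'.1 * q'.2 + p'.2 * q'.1) + (p'.2 * q.1 + p'.1 * q.2)
      = (p.1 + p'.2) * q.1 + (p'.1 + p.2) * q.2 + (p'.1 * q'.2 + p'.2 * q'.1) := by ring
    _ = (p'.1 + p.2) * q.1 + (p.1 + p'.2) * q.2 + (p'.1 * q'.2 + p'.2 * q'.1) := by rw [h1]
    _ = p'.1 * (q.1 + q'.2) + p'.2 * (q'.1 + q.2) + (p.2 * q.1 + p.1 * q.2) := by ring
    _ = p'.1 * (q'.1 + q.2) + p'.2 * (q.1 + q'.2) + (p.2 * q.1 + p.1 * q.2) := by rw [h1']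
    _ = _ := by ring)⟩

lemma zmk_mul (p q : NN M × NN M) :
    zmk p * zmk q = zmk (p.1 * q.1 + p.2 * q.2, p.1 * q.2 + p.2 * q.1) := rfl

instance : Zero (ZZ M) := ⟨zmk (0, 0)⟩
instance : One (ZZ M) := ⟨zmk (1, 0)⟩

lemma zz_zero : (0 : ZZ M) = zmk (0, 0) := rfl
lemma zz_one : (1 : ZZ M) = zmk (1, 0) := rfl

instance : CommRing (ZZ M) where
  add_assoc x y z := by
    obtain ⟨p, rfl⟩ := zmk_surj x
    obtain ⟨q, rfl⟩ := zmk_surj y
    obtain ⟨r, rfl⟩ := zmk_surj z
    simp only [zmk_add, zmk_eq]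
    ring
  zero_add x := by
    obtain ⟨p, rfl⟩ := zmk_surj x
    simp only [zz_zero, zmk_add, zmk_eq]
    ring
  add_zero x := by
    obtain ⟨p, rfl⟩ := zmk_surj x
    simp only [zz_zero, zmk_add, zmk_eq]
    ring
  nsmul := nsmulRec
  zsmul := zsmulRec
  neg_add_cancel x := by
    obtain ⟨p, rfl⟩ := zmk_surj x
    simp only [zz_zero, zmk_neg, zmk_add, zmk_eq]
    ring
  add_comm x y := by
    obtain ⟨p, rfl⟩ := zmk_surj x
    obtain ⟨q, rfl⟩ := zmk_surj y
    simp only [zmk_add, zmk_eq]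
    ring
  mul_assoc x y z := by
    obtain ⟨p, rfl⟩ := zmk_surj x
    obtain ⟨q, rfl⟩ := zmk_surj y
    obtain ⟨r, rfl⟩ := zmk_surj z
    simp only [zmk_mul, zmk_eq]
    ring
  one_mul x := by
    obtain ⟨p, rfl⟩ := zmk_surj x
    simp only [zz_one, zmk_mul, zmk_eq]
    ring
  mul_one x := by
    obtain ⟨p, rfl⟩ := zmk_surj x
    simp only [zz_one, zmk_mul, zmk_eq]
    ring
  left_distrib x y z := by
    obtain ⟨p, rfl⟩ := zmk_surj x
    obtain ⟨q, rfl⟩ := zmk_surj y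
    obtain ⟨r, rfl⟩ := zmk_surj z
    simp only [zmk_mul, zmk_add, zmk_eq]
    ring
  right_distrib x y z := by
    obtain ⟨p, rfl⟩ := zmk_surj x
    obtain ⟨q, rfl⟩ := zmk_surj y
    obtain ⟨r, rfl⟩ := zmk_surj z
    simp only [zmk_mul, zmk_add, zmk_eq]
    ring
  zero_mul x := by
    obtain ⟨p, rfl⟩ := zmk_surj x
    simp only [zz_zero, zmk_mul, zmk_eq]
    ring
  mul_zero x := by
    obtain ⟨p, rfl⟩ := zmk_surj x
    simp only [zz_zero, zmk_mul, zmk_eq]
    ring
  mul_comm x y := by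
    obtain ⟨p, rfl⟩ := zmk_surj x
    obtain ⟨q, rfl⟩ := zmk_surj y
    simp only [zmk_mul, zmk_eq]
    ring

lemma im_zpair : IM M (fun p : (NN M × NN M) × (NN M × NN M) => (zmk p.1, zmk p.2)) := by
  fun_prop

lemma zpair_surj : Function.Surjective
    (fun p : (NN M × NN M) × (NN M × NN M) => (zmk p.1, zmk p.2)) := by
  rintro ⟨x, y⟩
  obtain ⟨p, rfl⟩ := zmk_surj x
  obtain ⟨q, rfl⟩ := zmk_surj y
  exact ⟨(p, q), rfl⟩

instance : IAdd M (ZZ M) := ⟨by
  refine im_of_comp_surj zpair_surj im_zpair ?_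
  simp only [zmk_add]
  fun_prop⟩

instance : IMul M (ZZ M) := ⟨by
  refine im_of_comp_surj zpair_surj im_zpair ?_
  simp only [zmk_mul]
  fun_prop⟩

/-- the inclusion of the natural numbers -/
def nz (n : NN M) : ZZ M := zmk (n, 0)

@[fun_prop] lemma im_nz {f : α → NN M} (hf : IM M f) : IM M (fun x => nz (f x)) := by
  unfold nz
  fun_prop

lemma nz_inj {n m : NN M} : nz n = nz m ↔ n = m := by
  simp only [nz, zmk_eq, add_zero]

lemma nz_add (n m : NN M) : nz (n + m) = nz n + nz m := by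
  simp only [nz, zmk_add, zmk_eq]
  ring

lemma nz_mul (n m : NN M) : nz (n * m) = nz n * nz m := by
  simp only [nz, zmk_mul, zmk_eq]
  ring

lemma nz_zero : nz (0 : NN M) = 0 := rfl
lemma nz_one : nz (1 : NN M) = 1 := rfl

lemma zmk_sub (p : NN M × NN M) : zmk p = nz p.1 - nz p.2 := by
  rw [sub_eq_add_neg]
  simp only [nz, zmk_neg, zmk_add, zmk_eq]
  ring

/-- nonnegative integers -/
def nng (z : ZZ M) : Prop := ∃ n : NN M, z = nz n

@[fun_prop] lemma im_nng {f : α → ZZ M} (hf : IM M f) : IM M (fun x => nng (f x)) := by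
  unfold nng
  fun_prop

lemma nng_total (z : ZZ M) : nng z ∨ nng (-z) := by
  obtain ⟨p, rfl⟩ := zmk_surj z
  rw [zmk_sub]
  rcases nn_total p.1 p.2 with ⟨c, hc⟩ | ⟨c, hc⟩
  · right
    refine ⟨c, ?_⟩
    rw [← hc, nz_add]
    ring
  · left
    refine ⟨c, ?_⟩
    rw [← hc, nz_add]
    ring

lemma nng.add {x y : ZZ M} (hx : nng x) (hy : nng y) : nng (x + y) := by
  obtain ⟨n, rfl⟩ := hx
  obtain ⟨m, rfl⟩ := hy
  exact ⟨n + m, (nz_add n m).symm⟩

lemma nng.mul {x y : ZZ M} (hx : nng x) (hy : nng y) : nng (x * y) := by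
  obtain ⟨n, rfl⟩ := hx
  obtain ⟨m, rfl⟩ := hy
  exact ⟨n * m, (nz_mul n m).symm⟩

lemma nng_zero : nng (0 : ZZ M) := ⟨0, rfl⟩
lemma nng_one : nng (1 : ZZ M) := ⟨1, rfl⟩

lemma nng.antisymm {x : ZZ M} (hx : nng x) (hy : nng (-x)) : x = 0 := by
  obtain ⟨n, rfl⟩ := hx
  obtain ⟨m, hm⟩ := hy
  have h1 : nz (n + m) = nz 0 := by
    rw [nz_add, ← hm, nz_zero]
    ring
  rw [nz_inj] at h1
  rw [nn_eq_zero_of_add h1, nz_zero]

lemma nng.sub_one {x : ZZ M} (hx : nng x) (h0 : x ≠ 0) : nng (x - 1) := by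
  obtain ⟨n, rfl⟩ := hx
  rcases nn_cases n with rfl | ⟨m, rfl⟩
  · exact absurd rfl h0
  · refine ⟨m, ?_⟩
    rw [nz_add, nz_one]
    ring

lemma zz_mul_eq_zero {x y : ZZ M} (h : x * y = 0) : x = 0 ∨ y = 0 := by
  have key : ∀ n m : NN M, nz n * nz m = 0 → nz n = 0 ∨ nz m = 0 := by
    intro n m h
    rw [← nz_mul, ← nz_zero, nz_inj] at h
    rw [← nz_zero, nz_inj, nz_inj]
    exact nn_mul_eq_zero h
  rcases nng_total x with ⟨n, hn⟩ | ⟨n, hn⟩ <;> rcases nng_total y with ⟨m, hm⟩ | ⟨m, hm⟩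
  · rw [hn, hm] at h ⊢
    exact key _ _ h
  · rw [hn] at h ⊢
    rw [← neg_eq_zero (a := y), hm]
    apply key
    rw [← hm]
    linear_combination -h
  · rw [hm] at h ⊢
    rw [← neg_eq_zero (a := x), hn]
    apply key
    rw [← hn]
    linear_combination -h
  · rw [← neg_eq_zero (a := x), ← neg_eq_zero (a := y), hn, hm]
    apply key
    rw [← hn, ← hm]
    linear_combination h

instance : Nontrivial (ZZ M) := ⟨1, 0, by
  rw [← nz_one, ← nz_zero]
  intro h
  rw [nz_inj] at h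
  apply nn_add_one_ne (0 : NN M)
  rw [zero_add, h]⟩

instance : NoZeroDivisors (ZZ M) := ⟨fun h => zz_mul_eq_zero h⟩

instance : IsDomain (ZZ M) := NoZeroDivisors.to_isDomain _

instance : LinearOrder (ZZ M) where
  le x y := nng (y - x)
  le_refl x := by
    show nng (x - x)
    rw [sub_self]
    exact nng_zero
  le_trans x y z h1 h2 := by
    have h1' : nng (y - x) := h1
    have h2' : nng (z - y) := h2
    have := h1'.add h2'
    show nng (z - x)
    convert this using 1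
    ring
  le_antisymm x y h1 h2 := by
    have h1' : nng (y - x) := h1
    have h2' : nng (x - y) := h2
    have := h1'.antisymm (by convert h2' using 1; ring)
    exact (sub_eq_zero.1 this).symm
  le_total x y := by
    rcases nng_total (y - x) with h | h
    · exact Or.inl h
    · right
      show nng (x - y)
      convert h using 1
      ring
  toDecidableLE := Classical.decRel _

lemma zz_le_def {x y : ZZ M} : x ≤ y ↔ nng (y - x) := Iff.rfl

instance : IsOrderedAddMonoid (ZZ M) where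
  add_le_add_left x y h z := by
    rw [zz_le_def] at h ⊢
    convert h using 1
    ring

instance : IsStrictOrderedRing (ZZ M) := by
  have h01 : (0 : ZZ M) ≤ 1 := by
    rw [zz_le_def, sub_zero]
    exact nng_one
  have : ZeroLEOneClass (ZZ M) := ⟨h01⟩
  refine IsStrictOrderedRing.of_mul_pos (fun a b ha hb => ?_)
  have h1 : nng (a * b) := by
    have := (zz_le_def.1 ha.le).mul (zz_le_def.1 hb.le)
    simpa using this
  have h2 : (0 : ZZ M) ≤ a * b := by
    rw [zz_le_def, sub_zero]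
    exact h1
  exact lt_of_le_of_ne h2 (mul_ne_zero ha.ne' hb.ne').symm

@[fun_prop] lemma im_zle {f g : α → ZZ M} (hf : IM M f) (hg : IM M g) :
    IM M (fun x => f x ≤ g x) := by
  simp only [zz_le_def]
  fun_prop

@[fun_prop] lemma im_zlt {f g : α → ZZ M} (hf : IM M f) (hg : IM M g) :
    IM M (fun x => f x < g x) := by
  simp only [← not_le]
  fun_prop

lemma zz_one_le {x : ZZ M} (h : 0 < x) : 1 ≤ x := by
  rw [zz_le_def]
  apply nng.sub_one
  · have := zz_le_def.1 h.le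
    rwa [sub_zero] at this
  · exact h.ne'

end

end Pool.Agent.Helper93.VB
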