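import Pool.Agent.Helper93.VB.Alg

/-!
The natural numbers of the model.
-/

universe u v w

namespace Pool.Agent.Helper93.VB

set_option linter.unusedSectionVars false

noncomputable section

variable {M : Type u} [LZ.Structure M] {α β γ δ : Type*} [IType M α] [IType M β] [IType M γ]
  [IType M δ] [hM : ZM M]

/-- The internal type of elements of a set of `M`. -/
def MEl (s : M) : Type u := {x : M // Mem x s}

instance instITypeMEl (s : M) : IType M (MEl s) where
  code x := x.1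
  inj := Subtype.val_injective
  car := (sep (Fm.eq (.inl 0) (.inl 0)) s).choose
  isSet_car := (sep (Fm.eq (.inl 0) (.inl 0)) s).choose_spec.1
  mem_car x := by
    rw [(sep (Fm.eq (.inl 0) (.inl 0)) s).choose_spec.2]
    simp only [sat_eq, and_true]
    exact ⟨fun h => ⟨⟨x, h⟩, rfl⟩, fun ⟨a, h⟩ => h ▸ a.2⟩

lemma cd_mel {s : M} (x : MEl s) : cd M x = x.1 := rfl

lemma not_mem_mem {x y : M} (hxy : Mem x y) (hyx : Mem y x) : False := by
  obtain ⟨z, hz⟩ := exists_upair x y
  obtain ⟨w, hw, hw'⟩ := hM.zfa.found z ⟨x, (hz.2 x).2 (Or.inl rfl)⟩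
  rcases (hz.2 w).1 hw with rfl | rfl
  · exact hw' y hyx ((hz.2 y).2 (Or.inr rfl))
  · exact hw' x hxy ((hz.2 x).2 (Or.inl rfl))

variable (M) in
lemma exists_dedekind : ∃ (A : Type u) (_ : IType M A) (s : IFun M A A) (e : A),
    (∀ x y, s.ev x = s.ev y → x = y) ∧ ∀ x, s.ev x ≠ e := by
  obtain ⟨a, ⟨e, he, he', hea⟩, ha⟩ := hM.zfa.infinity
  choose f hf using ha
  let s : MEl a → MEl a := fun x => ⟨f x.1 x.2, (hf x.1 x.2).1⟩
  have hs : ∀ (x : MEl a), IsSet (s x).1 ∧ ∀ z, Mem z (s x).1 ↔ Mem z x.1 ∨ z = x.1 :=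
    fun x => (hf x.1 x.2).2
  have him : IM M s := by
    refine ⟨IS.of_fm2 ((Fm.set (.inl 0)).and (Fm.all (Fm.iff (Fm.mem (.inl 0) (.inl 1))
      (Fm.or (Fm.mem (.inl 0) (.inl 2)) (Fm.eq (.inl 0) (.inl 2)))))) ?_⟩
    intro x y
    simp only [sat_and, sat_set, sat_all, sat_iff, sat_mem, sat_or, sat_eq, tv_inl]
    constructor
    · rintro ⟨h1, h2⟩
      apply Subtype.ext
      have h1' : IsSet y.1 := h1
      have h2' : ∀ z : M, Mem z y.1 ↔ Mem z x.1 ∨ z = x.1 := h2
      refine set_ext (hs x).1 h1' (fun z => ?_)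
      rw [h2', (hs x).2]
    · rintro rfl
      exact hs x
  refine ⟨MEl a, inferInstance, ⟨s, him⟩, ⟨e, hea⟩, ?_, ?_⟩
  · intro x y hxy
    have hxy' : s x = s y := hxy
    have h1 : ∀ z, (Mem z x.1 ∨ z = x.1) ↔ (Mem z y.1 ∨ z = y.1) := by
      intro z
      rw [← (hs x).2, ← (hs y).2, hxy']
    by_contra hne
    have hne' : x.1 ≠ y.1 := fun h => hne (Subtype.ext h)
    rcases (h1 x.1).1 (Or.inr rfl) with h2 | h2
    · rcases (h1 y.1).2 (Or.inr rfl) with h3 | h3
      · exact not_mem_mem h2 h3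
      · exact hne' h3.symm
    · exact hne' h2
  · intro x hx
    have hx' : s x = ⟨e, hea⟩ := hx
    apply he' x.1
    have := ((hs x).2 x.1).2 (Or.inr rfl)
    rw [hx'] at this
    exact this

variable (M) in
/-- The Peano axioms, in `M`. -/
structure Peano where
  /-- the set of natural numbers -/
  N : Type u
  it : IType M N
  /-- zero -/
  z : N
  /-- successor -/
  s : IFun M N N
  s_inj : ∀ x y, s.ev x = s.ev y → x = y
  s_ne : ∀ x, s.ev x ≠ z
  ind : ∀ X : IPow M N, z ∈ X → (∀ x, x ∈ X → s.ev x ∈ X) → ∀ x, x ∈ X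

variable (M) in
lemma exists_peano : Nonempty (Peano M) := by
  obtain ⟨A, iA, s, e, hs, he⟩ := exists_dedekind M
  let Om : IPow M A := cmp (fun n => ∀ X : IPow M A, e ∈ X → (∀ x, x ∈ X → s.ev x ∈ X) → n ∈ X)
    (by fun_prop)
  have hz : e ∈ Om := fun X h _ => h
  have hsu : ∀ x, x ∈ Om → s.ev x ∈ Om := fun x hx X h1 h2 => h2 _ (hx X h1 h2)
  refine ⟨⟨{x : A // x ∈ Om}, inferInstance, ⟨e, hz⟩,
    lam (fun x => ⟨s.ev x.1, hsu _ x.2⟩) (by fun_prop), ?_, ?_, ?_⟩⟩
  · intro x y h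
    have h' : s.ev x.1 = s.ev y.1 := congrArg Subtype.val h
    exact Subtype.ext (hs _ _ h')
  · intro x h
    have h' : s.ev x.1 = e := congrArg Subtype.val h
    exact he _ h'
  · intro X h1 h2 x
    have h3 := x.2 (img (fun y : {x : A // x ∈ Om} => y.1) (by fun_prop) X) ⟨_, h1, rfl⟩ (by
      rintro _ ⟨y, hy, rfl⟩
      exact ⟨_, h2 y hy, rfl⟩)
    obtain ⟨y, hy, hyx⟩ := h3
    have : y = x := Subtype.ext hyx
    rwa [← this]

variable (M) in
/-- The natural numbers of `M`. -/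
def NN : Type u := (exists_peano M).some.N

instance : IType M (NN M) := (exists_peano M).some.it

instance : Zero (NN M) := ⟨(exists_peano M).some.z⟩

/-- successor -/
def suc : IFun M (NN M) (NN M) := (exists_peano M).some.s

lemma suc_inj {x y : NN M} : suc.ev x = suc.ev y ↔ x = y :=
  ⟨(exists_peano M).some.s_inj x y, fun h => by rw [h]⟩

lemma suc_ne (x : NN M) : suc.ev x ≠ 0 := (exists_peano M).some.s_ne x

lemma nn_ind {p : NN M → Prop} (hp : IM M p) (h0 : p 0) (h1 : ∀ x, p x → p (suc.ev x))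
    (x : NN M) : p x := by
  let X : IPow M (NN M) := cmp p hp
  exact (exists_peano M).some.ind X h0 h1 x

/-- Internal recursion. -/
lemma nn_rec (b : β) (h : IFun M β β) :
    ∃ f : IFun M (NN M) β, f.ev 0 = b ∧ ∀ n, f.ev (suc.ev n) = h.ev (f.ev n) := by
  let G : IPow M (NN M × β) := cmp (fun p => ∀ X : IPow M (NN M × β), (0, b) ∈ X →
    (∀ q, q ∈ X → (suc.ev q.1, h.ev q.2) ∈ X) → p ∈ X) (by fun_prop)
  have G0 : ((0 : NN M), b) ∈ G := fun X h _ => h
  have Gs : ∀ n x, (n, x) ∈ G → (suc.ev n, h.ev x) ∈ G :=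
    fun n x hx X h1 h2 => h2 _ (hx X h1 h2)
  have Gi : ∀ {p : NN M × β → Prop}, IM M p → p (0, b) →
      (∀ n x, (n, x) ∈ G → p (n, x) → p (suc.ev n, h.ev x)) → ∀ n x, (n, x) ∈ G → p (n, x) := by
    intro p hp h0 h1 n x hx
    exact (hx (cmp (fun q => q ∈ G ∧ p q) (by fun_prop)) ⟨G0, h0⟩
      (fun q hq => ⟨Gs _ _ hq.1, h1 _ _ hq.1 hq.2⟩)).2
  have hex : ∀ n, ∃ x, (n, x) ∈ G ∧ ∀ y, (n, y) ∈ G → y = x := by
    refine nn_ind (by fun_prop) ?_ ?_
    · refine ⟨b, G0, ?_⟩
      have := Gi (p := fun q => q.1 = 0 → q.2 = b) (by fun_prop) (fun _ => rfl)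
        (fun n x _ _ h => absurd h (suc_ne n))
      exact fun y hy => this 0 y hy rfl
    · rintro n ⟨x, hx, hx'⟩
      refine ⟨h.ev x, Gs _ _ hx, ?_⟩
      have := Gi (p := fun q => q.1 = suc.ev n → q.2 = h.ev x) (by fun_prop)
        (fun h => absurd h.symm (suc_ne n))
        (fun m y hy _ h => by
          have h' : m = n := suc_inj.1 h
          subst h'
          show IFun.ev _ y = IFun.ev _ x
          rw [hx' y hy])
      exact fun y hy => this _ y hy rfl
  choose f hf hf' using hex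
  have him : IM M f := by
    apply im_of_graph
    have h1 : IM M (fun x : NN M × β => x ∈ G) := by fun_prop
    convert h1 using 2 with x
    constructor
    · intro h
      have := hf x.1
      rw [h] at this
      exact this
    · intro h
      exact (hf' x.1 x.2 h).symm
  refine ⟨⟨f, him⟩, (hf' 0 b G0).symm, fun n => ?_⟩
  exact (hf' _ _ (Gs n (f n) (hf n))).symm

lemma exists_add : ∃ f : IFun M (NN M) (IFun M (NN M) (NN M)), (∀ m, (f.ev 0).ev m = m) ∧
    ∀ n m, (f.ev (suc.ev n)).ev m = suc.ev ((f.ev n).ev m) := by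
  obtain ⟨f, h0, h1⟩ := nn_rec (M := M) (lam (fun m : NN M => m) (by fun_prop))
    (lam (fun g : IFun M (NN M) (NN M) => lam (fun m => suc.ev (g.ev m)) (by fun_prop))
      (by fun_prop))
  refine ⟨f, fun m => ?_, fun n m => ?_⟩
  · rw [h0]
    rfl
  · rw [h1]
    rfl

instance : Add (NN M) := ⟨fun n m => ((exists_add (M := M)).choose.ev n).ev m⟩

instance : IAdd M (NN M) := ⟨by
  show IM M (fun p : NN M × NN M => ((exists_add (M := M)).choose.ev p.1).ev p.2)
  fun_prop⟩

lemma nn_zero_add (m : NN M) : 0 + m = m := (exists_add (M := M)).choose_spec.1 m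
lemma nn_suc_add (n m : NN M) : suc.ev n + m = suc.ev (n + m) :=
  (exists_add (M := M)).choose_spec.2 n m

lemma exists_mul : ∃ f : IFun M (NN M) (IFun M (NN M) (NN M)), (∀ m, (f.ev 0).ev m = 0) ∧
    ∀ n m, (f.ev (suc.ev n)).ev m = (f.ev n).ev m + m := by
  obtain ⟨f, h0, h1⟩ := nn_rec (M := M) (lam (fun _ : NN M => (0 : NN M)) (by fun_prop))
    (lam (fun g : IFun M (NN M) (NN M) => lam (fun m => g.ev m + m) (by fun_prop))
      (by fun_prop))
  refine ⟨f, fun m => ?_, fun n m => ?_⟩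
  · rw [h0]
    rfl
  · rw [h1]
    rfl

instance : Mul (NN M) := ⟨fun n m => ((exists_mul (M := M)).choose.ev n).ev m⟩

instance : IMul M (NN M) := ⟨by
  show IM M (fun p : NN M × NN M => ((exists_mul (M := M)).choose.ev p.1).ev p.2)
  fun_prop⟩

lemma nn_zero_mul (m : NN M) : 0 * m = 0 := (exists_mul (M := M)).choose_spec.1 m
lemma nn_suc_mul (n m : NN M) : suc.ev n * m = n * m + m :=
  (exists_mul (M := M)).choose_spec.2 n m

instance : One (NN M) := ⟨suc.ev 0⟩

lemma nn_one : (1 : NN M) = suc.ev 0 := rfl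

lemma nn_add_zero (n : NN M) : n + 0 = n := by
  refine nn_ind (p := fun n => n + 0 = n) (by fun_prop) ?_ ?_ n
  · exact nn_zero_add 0
  · intro n ih
    rw [nn_suc_add, ih]

lemma nn_add_suc (n m : NN M) : n + suc.ev m = suc.ev (n + m) := by
  refine nn_ind (p := fun n => n + suc.ev m = suc.ev (n + m)) (by fun_prop) ?_ ?_ n
  · rw [nn_zero_add, nn_zero_add]
  · intro n ih
    rw [nn_suc_add, ih, nn_suc_add]

lemma nn_add_comm (n m : NN M) : n + m = m + n := by
  refine nn_ind (p := fun n => n + m = m + n) (by fun_prop) ?_ ?_ n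
  · rw [nn_zero_add, nn_add_zero]
  · intro n ih
    rw [nn_suc_add, ih, nn_add_suc]

lemma nn_add_assoc (n m k : NN M) : n + m + k = n + (m + k) := by
  refine nn_ind (p := fun n => n + m + k = n + (m + k)) (by fun_prop) ?_ ?_ n
  · rw [nn_zero_add, nn_zero_add]
  · intro n ih
    rw [nn_suc_add, nn_suc_add, ih, nn_suc_add]

lemma nn_mul_zero (n : NN M) : n * 0 = 0 := by
  refine nn_ind (p := fun n => n * 0 = 0) (by fun_prop) ?_ ?_ n
  · exact nn_zero_mul 0
  · intro n ih
    rw [nn_suc_mul, ih, nn_add_zero]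

lemma nn_mul_suc (n m : NN M) : n * suc.ev m = n * m + n := by
  refine nn_ind (p := fun n => n * suc.ev m = n * m + n) (by fun_prop) ?_ ?_ n
  · rw [nn_zero_mul, nn_zero_mul, nn_add_zero]
  · intro n ih
    rw [nn_suc_mul, ih, nn_suc_mul, nn_add_suc, nn_add_suc, nn_add_assoc, nn_add_assoc,
      nn_add_comm n m]

lemma nn_mul_comm (n m : NN M) : n * m = m * n := by
  refine nn_ind (p := fun n => n * m = m * n) (by fun_prop) ?_ ?_ n
  · rw [nn_zero_mul, nn_mul_zero]
  · intro n ih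
    rw [nn_suc_mul, ih, nn_mul_suc]

lemma nn_add_mul (n m k : NN M) : (n + m) * k = n * k + m * k := by
  refine nn_ind (p := fun n => (n + m) * k = n * k + m * k) (by fun_prop) ?_ ?_ n
  · rw [nn_zero_add, nn_zero_mul, nn_zero_add]
  · intro n ih
    rw [nn_suc_add, nn_suc_mul, ih, nn_suc_mul, nn_add_assoc, nn_add_assoc, nn_add_comm (m * k)]

lemma nn_mul_assoc (n m k : NN M) : n * m * k = n * (m * k) := by
  refine nn_ind (p := fun n => n * m * k = n * (m * k)) (by fun_prop) ?_ ?_ n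
  · rw [nn_zero_mul, nn_zero_mul, nn_zero_mul]
  · intro n ih
    rw [nn_suc_mul, nn_add_mul, ih, nn_suc_mul]

lemma nn_one_mul (n : NN M) : 1 * n = n := by
  rw [nn_one, nn_suc_mul, nn_zero_mul, nn_zero_add]

instance : CommSemiring (NN M) where
  add_assoc := nn_add_assoc
  zero_add := nn_zero_add
  add_zero := nn_add_zero
  add_comm := nn_add_comm
  mul_assoc := nn_mul_assoc
  one_mul := nn_one_mul
  mul_one n := by rw [nn_mul_comm, nn_one_mul]
  left_distrib a b c := by rw [nn_mul_comm, nn_add_mul, nn_mul_comm b, nn_mul_comm c]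
  right_distrib := nn_add_mul
  zero_mul := nn_zero_mul
  mul_zero := nn_mul_zero
  mul_comm := nn_mul_comm
  nsmul := nsmulRec

lemma nn_suc (n : NN M) : suc.ev n = n + 1 := by
  rw [nn_one, nn_add_suc, nn_add_zero]

lemma nn_add_one_ne (n : NN M) : n + 1 ≠ 0 := by
  rw [← nn_suc]
  exact suc_ne n

lemma nn_cases (n : NN M) : n = 0 ∨ ∃ m, n = m + 1 := by
  refine nn_ind (p := fun n => n = 0 ∨ ∃ m, n = m + 1) (by fun_prop) (Or.inl rfl) ?_ n
  intro n _
  exact Or.inr ⟨n, nn_suc n⟩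

lemma nn_add_right_cancel {a b : NN M} (c : NN M) (h : a + c = b + c) : a = b := by
  revert h
  refine nn_ind (p := fun c => a + c = b + c → a = b) (by fun_prop) ?_ ?_ c
  · rw [add_zero, add_zero]
    exact id
  · intro c ih h
    rw [nn_add_suc, nn_add_suc, suc_inj] at h
    exact ih h

lemma nn_total (a b : NN M) : (∃ c, a + c = b) ∨ ∃ c, b + c = a := by
  refine nn_ind (p := fun a => (∃ c, a + c = b) ∨ ∃ c, b + c = a) (by fun_prop) ?_ ?_ a
  · exact Or.inl ⟨b, zero_add b⟩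
  · rintro a (⟨c, hc⟩ | ⟨c, hc⟩)
    · rcases nn_cases c with rfl | ⟨d, rfl⟩
      · right
        refine ⟨1, ?_⟩
        rw [nn_suc, ← hc, add_zero]
      · left
        refine ⟨d, ?_⟩
        rw [nn_suc, ← hc]
        ring
    · right
      refine ⟨c + 1, ?_⟩
      rw [nn_suc, ← hc]
      ring

lemma nn_eq_zero_of_add {a b : NN M} (h : a + b = 0) : a = 0 := by
  rcases nn_cases a with rfl | ⟨d, rfl⟩
  · rfl
  · exfalso
    apply nn_add_one_ne (d + b)
    rw [← h]
    ring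

lemma nn_mul_eq_zero {a b : NN M} (h : a * b = 0) : a = 0 ∨ b = 0 := by
  rcases nn_cases a with rfl | ⟨d, rfl⟩
  · exact Or.inl rfl
  · right
    apply nn_eq_zero_of_add (b := d * b)
    rw [← h]
    ring

end

end Pool.Agent.Helper93.VB
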