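import Pool.Agent.Helper93.VB.Frac

/-!
The ring of polynomial functions in the variables indexed by an internal type, with coefficients in
the integers of the model.
-/

universe u v w

namespace Pool.Agent.Helper93.VB

set_option linter.unusedSectionVars false

noncomputable section

variable {M : Type u} [LZ.Structure M] [hM : ZM M]

/-! ### Polynomial functions of one variable -/

/-- the function `c + t q(t)` -/
def cq (c : ZZ M) (q : IFun M (ZZ M) (ZZ M)) : IFun M (ZZ M) (ZZ M) :=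
  lam (fun t => c + t * q.ev t) (by fun_prop)

@[simp] lemma cq_ev (c : ZZ M) (q : IFun M (ZZ M) (ZZ M)) (t : ZZ M) :
    (cq c q).ev t = c + t * q.ev t := rfl

@[fun_prop] lemma im_cq {α : Type*} [IType M α] {f : α → ZZ M} {g : α → IFun M (ZZ M) (ZZ M)}
    (hf : IM M f) (hg : IM M g) : IM M (fun x => cq (f x) (g x)) := by
  unfold cq
  fun_prop

/-- constant function -/
def cc (c : ZZ M) : IFun M (ZZ M) (ZZ M) := lam (fun _ => c) (by fun_prop)

@[simp] lemma cc_ev (c t : ZZ M) : (cc c).ev t = c := rfl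

@[fun_prop] lemma im_cc {α : Type*} [IType M α] {f : α → ZZ M}
    (hf : IM M f) : IM M (fun x => cc (f x)) := by
  unfold cc
  fun_prop

variable (M) in
/-- Polynomial functions of one variable. -/
def P1 : IPow M (IFun M (ZZ M) (ZZ M)) :=
  cmp (fun q => ∀ X : IPow M (IFun M (ZZ M) (ZZ M)), (∀ c, cc c ∈ X) →
    (∀ c q, q ∈ X → cq c q ∈ X) → q ∈ X) (by fun_prop)

lemma cc_mem (c : ZZ M) : cc c ∈ P1 M := fun _ h _ => h c

lemma cq_mem {c : ZZ M} {q : IFun M (ZZ M) (ZZ M)} (hq : q ∈ P1 M) : cq c q ∈ P1 M :=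
  fun X h1 h2 => h2 _ _ (hq X h1 h2)

lemma P1_ind {p : IFun M (ZZ M) (ZZ M) → Prop} (hp : IM M p) (h0 : ∀ c, p (cc c))
    (h1 : ∀ c q, q ∈ P1 M → p q → p (cq c q)) {q : IFun M (ZZ M) (ZZ M)} (hq : q ∈ P1 M) : p q :=
  (hq (cmp (fun q => q ∈ P1 M ∧ p q) (by fun_prop)) (fun c => ⟨cc_mem c, h0 c⟩)
    (fun c q h => ⟨cq_mem h.1, h1 c q h.1 h.2⟩)).2

lemma P1_cases {q : IFun M (ZZ M) (ZZ M)} (hq : q ∈ P1 M) :
    (∃ c, q = cc c) ∨ ∃ c q', q' ∈ P1 M ∧ q = cq c q' := by
  refine P1_ind (p := fun q => (∃ c, q = cc c) ∨ ∃ c q', q' ∈ P1 M ∧ q = cq c q') (by fun_prop)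
    ?_ ?_ hq
  · exact fun c => Or.inl ⟨c, rfl⟩
  · exact fun c q hq _ => Or.inr ⟨c, q, hq, rfl⟩

lemma P1_add_cc (c : ZZ M) {q : IFun M (ZZ M) (ZZ M)} (hq : q ∈ P1 M) : cc c + q ∈ P1 M := by
  rcases P1_cases hq with ⟨d, rfl⟩ | ⟨d, q', hq', rfl⟩
  · have : cc c + cc d = cc (c + d) := by ext t; simp
    rw [this]
    exact cc_mem _
  · have : cc c + cq d q' = cq (c + d) q' := by ext t; simp [add_assoc]
    rw [this]
    exact cq_mem hq'

lemma P1_add {q q' : IFun M (ZZ M) (ZZ M)} (hq : q ∈ P1 M) (hq' : q' ∈ P1 M) :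
    q + q' ∈ P1 M := by
  have key : ∀ q', q' ∈ P1 M → q + q' ∈ P1 M := by
    refine P1_ind (p := fun q => ∀ q', q' ∈ P1 M → q + q' ∈ P1 M) (by fun_prop) ?_ ?_ hq
    · exact fun c q' hq' => P1_add_cc c hq'
    · intro c q hq ih q' hq'
      rcases P1_cases hq' with ⟨d, rfl⟩ | ⟨d, q1, hq1, rfl⟩
      · have : cq c q + cc d = cq (c + d) q := by ext t; simp; ring
        rw [this]
        exact cq_mem hq
      · have : cq c q + cq d q1 = cq (c + d) (q + q1) := by ext t; simp; ring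
        rw [this]
        exact cq_mem (ih q1 hq1)
  exact key q' hq'

lemma P1_cc_mul (c : ZZ M) {q : IFun M (ZZ M) (ZZ M)} (hq : q ∈ P1 M) : cc c * q ∈ P1 M := by
  refine P1_ind (p := fun q => cc c * q ∈ P1 M) (by fun_prop) ?_ ?_ hq
  · intro d
    have : cc c * cc d = cc (c * d) := by ext t; simp
    rw [this]
    exact cc_mem _
  · intro d q _ ih
    have : cc c * cq d q = cq (c * d) (cc c * q) := by ext t; simp; ring
    rw [this]
    exact cq_mem ih

lemma P1_mul {q q' : IFun M (ZZ M) (ZZ M)} (hq : q ∈ P1 M) (hq' : q' ∈ P1 M) :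
    q * q' ∈ P1 M := by
  refine P1_ind (p := fun q => q * q' ∈ P1 M) (by fun_prop) ?_ ?_ hq
  · exact fun c => P1_cc_mul c hq'
  · intro c q _ ih
    have : cq c q * q' = cc c * q' + cq 0 (q * q') := by ext t; simp; ring
    rw [this]
    exact P1_add (P1_cc_mul c hq') (cq_mem ih)

/-- A polynomial function of one variable is zero or eventually without zeros. -/
lemma P1_eventually {q : IFun M (ZZ M) (ZZ M)} (hq : q ∈ P1 M) :
    q = 0 ∨ ∃ n, ∀ t, n ≤ t → q.ev t ≠ 0 := by
  refine P1_ind (p := fun q => q = 0 ∨ ∃ n, ∀ t, n ≤ t → q.ev t ≠ 0) (by fun_prop) ?_ ?_ hq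
  · intro c
    by_cases hc : c = 0
    · left
      rw [hc]
      ext t
      simp
    · exact Or.inr ⟨0, fun t _ => hc⟩
  · rintro c q _ (rfl | ⟨n, hn⟩)
    · by_cases hc : c = 0
      · left
        rw [hc]
        ext t
        simp
      · right
        refine ⟨0, fun t _ => ?_⟩
        simpa using hc
    · right
      refine ⟨max n (|c| + 1), fun t ht h0 => ?_⟩
      have h1 : n ≤ t := le_trans (le_max_left _ _) ht
      have h2 : |c| + 1 ≤ t := le_trans (le_max_right _ _) ht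
      have h3 : c + t * q.ev t = 0 := h0
      have h4 : (1 : ZZ M) ≤ |q.ev t| := zz_one_le (abs_pos.2 (hn t h1))
      have h5 : |c| = |t| * |q.ev t| := by
        have : c = - (t * q.ev t) := by linear_combination h3
        rw [this, abs_neg, abs_mul]
      have h6 : t ≤ |t| := le_abs_self t
      have h7 : |t| * 1 ≤ |t| * |q.ev t| := mul_le_mul_of_nonneg_left h4 (abs_nonneg t)
      linarith

/-! ### Polynomial functions of several variables -/

section

variable (M) (X : Type v) [IType M X]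

/-- assignments of integers to the variables -/
abbrev As := IFun M X (ZZ M)

/-- integer valued functions on the set of assignments -/
abbrev Fn := IFun M (IFun M X (ZZ M)) (ZZ M)

variable {X}

/-- coordinate functions -/
def crd (x : X) : Fn M X := lam (fun a => a.ev x) (by fun_prop)

variable (X)

/-- constant functions -/
def cst (c : ZZ M) : Fn M X := lam (fun _ => c) (by fun_prop)

variable {M X}

@[simp] lemma crd_ev (x : X) (a : As M X) : (crd M x).ev a = a.ev x := rfl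
@[simp] lemma cst_ev (c : ZZ M) (a : As M X) : (cst M X c).ev a = c := rfl

@[fun_prop] lemma im_crd {α : Type*} [IType M α] {f : α → X} (hf : IM M f) :
    IM M (fun x => crd M (f x)) := by
  unfold crd
  fun_prop

@[fun_prop] lemma im_cst {α : Type*} [IType M α] {f : α → ZZ M} (hf : IM M f) :
    IM M (fun x => cst M X (f x)) := by
  unfold cst
  fun_prop

/-- closure conditions for the ring of polynomial functions -/
def isSR (S : IPow M (Fn M X)) : Prop :=
  (∀ c, cst M X c ∈ S) ∧ (∀ x, crd M x ∈ S) ∧ (∀ p q, p ∈ S → q ∈ S → p + q ∈ S) ∧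
    ∀ p q, p ∈ S → q ∈ S → p * q ∈ S

@[fun_prop] lemma im_isSR {α : Type*} [IType M α] {f : α → IPow M (Fn M X)} (hf : IM M f) :
    IM M (fun x => isSR (f x)) := by
  unfold isSR
  fun_prop

variable (M X) in
/-- The set of polynomial functions. -/
def Rset : IPow M (Fn M X) := cmp (fun p => ∀ S, isSR S → p ∈ S) (by fun_prop)

lemma isSR_Rset : isSR (Rset M X) :=
  ⟨fun c _ h => h.1 c, fun x _ h => h.2.1 x, fun _ _ hp hq S h => h.2.2.1 _ _ (hp S h) (hq S h),
    fun _ _ hp hq S h => h.2.2.2 _ _ (hp S h) (hq S h)⟩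

lemma Rset_ind {P : Fn M X → Prop} (hP : IM M P) (h0 : ∀ c, P (cst M X c))
    (h1 : ∀ x, P (crd M x)) (h2 : ∀ p q, p ∈ Rset M X → q ∈ Rset M X → P p → P q → P (p + q))
    (h3 : ∀ p q, p ∈ Rset M X → q ∈ Rset M X → P p → P q → P (p * q)) {p : Fn M X}
    (hp : p ∈ Rset M X) : P p :=
  (hp (cmp (fun q => q ∈ Rset M X ∧ P q) (by fun_prop))
    ⟨fun c => ⟨isSR_Rset.1 c, h0 c⟩, fun x => ⟨isSR_Rset.2.1 x, h1 x⟩,
      fun p q hp hq => ⟨isSR_Rset.2.2.1 _ _ hp.1 hq.1, h2 p q hp.1 hq.1 hp.2 hq.2⟩,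
      fun p q hp hq => ⟨isSR_Rset.2.2.2 _ _ hp.1 hq.1, h3 p q hp.1 hq.1 hp.2 hq.2⟩⟩).2

variable (M X) in
/-- The ring of polynomial functions, as a subring. -/
def Rg : Subring (Fn M X) where
  carrier := {p | p ∈ Rset M X}
  mul_mem' := fun {a b} ha hb => isSR_Rset.2.2.2 a b ha hb
  one_mem' := isSR_Rset.1 1
  add_mem' := fun {a b} ha hb => isSR_Rset.2.2.1 a b ha hb
  zero_mem' := isSR_Rset.1 0
  neg_mem' := fun {a} ha => by
    have h := isSR_Rset.2.2.2 _ _ (isSR_Rset.1 (-1)) ha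
    have h2 : cst M X (-1) * a = -a := by ext x; simp
    rw [h2] at h
    exact h

variable (M X) in
/-- The ring of polynomial functions. -/
abbrev RT := {p : Fn M X // p ∈ Rset M X}

instance : CommRing (RT M X) := inferInstanceAs (CommRing (Rg M X))

@[simp] lemma rt_add (p q : RT M X) : (p + q).1 = p.1 + q.1 := rfl
@[simp] lemma rt_mul (p q : RT M X) : (p * q).1 = p.1 * q.1 := rfl
@[simp] lemma rt_neg (p : RT M X) : (-p).1 = -p.1 := rfl
@[simp] lemma rt_sub (p q : RT M X) : (p - q).1 = p.1 - q.1 := rfl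
@[simp] lemma rt_zero : (0 : RT M X).1 = 0 := rfl
@[simp] lemma rt_one : (1 : RT M X).1 = 1 := rfl

instance : IAdd M (RT M X) := ⟨by
  apply im_of_graph
  have h : IM M (fun x : (RT M X × RT M X) × RT M X => x.1.1.1 + x.1.2.1 = x.2.1) := by fun_prop
  convert h using 2 with x
  exact Subtype.ext_iff⟩

instance : IMul M (RT M X) := ⟨by
  apply im_of_graph
  have h : IM M (fun x : (RT M X × RT M X) × RT M X => x.1.1.1 * x.1.2.1 = x.2.1) := by fun_prop
  convert h using 2 with x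
  exact Subtype.ext_iff⟩

/-- The point `a + t b`. -/
def ln (a b : As M X) (t : ZZ M) : As M X := lam (fun x => a.ev x + t * b.ev x) (by fun_prop)

@[simp] lemma ln_ev (a b : As M X) (t : ZZ M) (x : X) : (ln a b t).ev x = a.ev x + t * b.ev x := rfl

@[fun_prop] lemma im_ln {α : Type*} [IType M α] {f g : α → As M X} {h : α → ZZ M} (hf : IM M f)
    (hg : IM M g) (hh : IM M h) : IM M (fun x => ln (f x) (g x) (h x)) := by
  unfold ln
  fun_prop

lemma line_mem {p : Fn M X} (hp : p ∈ Rset M X) (a b : As M X) :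
    lam (fun t => p.ev (ln a b t)) (by fun_prop) ∈ P1 M := by
  refine Rset_ind (P := fun p => lam (fun t => p.ev (ln a b t)) (by fun_prop) ∈ P1 M)
    (by fun_prop) ?_ ?_ ?_ ?_ hp
  · intro c
    exact cc_mem c
  · intro x
    have : lam (fun t => (crd M x).ev (ln a b t)) (by fun_prop) = cq (a.ev x) (cc (b.ev x)) := by
      ext t
      simp
    rw [this]
    exact cq_mem (cc_mem _)
  · intro p q _ _ h1 h2
    exact P1_add h1 h2
  · intro p q _ _ h1 h2
    exact P1_mul h1 h2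

lemma exists_ne_of_ne_zero {p : RT M X} (hp : p ≠ 0) : ∃ a, p.1.ev a ≠ 0 := by
  by_contra h
  push Not at h
  apply hp
  apply Subtype.ext
  ext a
  exact h a

instance : NoZeroDivisors (RT M X) := ⟨by
  intro p q hpq
  by_contra hcon
  push Not at hcon
  obtain ⟨a, ha⟩ := exists_ne_of_ne_zero hcon.1
  obtain ⟨b, hb⟩ := exists_ne_of_ne_zero hcon.2
  have h0 : ln a (b - a) 0 = a := by ext x; simp
  have h1 : ln a (b - a) 1 = b := by ext x; simp
  rcases P1_eventually (line_mem p.2 a (b - a)) with h2 | ⟨n, hn⟩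
  · apply ha
    have := congrArg (fun f => f.ev 0) h2
    simp only [lam_ev, zero_ev] at this
    rwa [h0] at this
  rcases P1_eventually (line_mem q.2 a (b - a)) with h3 | ⟨m, hm⟩
  · apply hb
    have := congrArg (fun f => f.ev 1) h3
    simp only [lam_ev, zero_ev] at this
    rwa [h1] at this
  have h4 := hn (max n m) (le_max_left _ _)
  have h5 := hm (max n m) (le_max_right _ _)
  simp only [lam_ev] at h4 h5
  have h6 : (p * q).1.ev (ln a (b - a) (max n m)) = 0 := by rw [hpq]; rfl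
  rw [rt_mul, mul_ev] at h6
  rcases mul_eq_zero.1 h6 with h | h
  · exact h4 h
  · exact h5 h⟩

instance : Nontrivial (RT M X) := ⟨1, 0, by
  intro h
  have h1 := congrArg (fun p : RT M X => p.1.ev 0) h
  simp at h1⟩

instance : IsDomain (RT M X) := NoZeroDivisors.to_isDomain _

/-- A polynomial function depends on finitely many variables only. -/
lemma finite_dep {p : Fn M X} (hp : p ∈ Rset M X) :
    ∃ Y : IPow M X, IFin Y ∧ ∀ a a' : As M X, (∀ x, x ∈ Y → a.ev x = a'.ev x) →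
      p.ev a = p.ev a' := by
  refine Rset_ind (P := fun p => ∃ Y : IPow M X, IFin Y ∧ ∀ a a' : As M X,
    (∀ x, x ∈ Y → a.ev x = a'.ev x) → p.ev a = p.ev a') (by fun_prop) ?_ ?_ ?_ ?_ hp
  · intro c
    exact ⟨∅, ifin_empty, fun _ _ _ => rfl⟩
  · intro x
    exact ⟨{x}, ifin_singleton x, fun a a' h => h x rfl⟩
  · rintro p q _ _ ⟨Y, hY, h1⟩ ⟨Z, hZ, h2⟩
    refine ⟨Y ∪ Z, hY.union hZ, fun a a' h => ?_⟩
    rw [add_ev, add_ev, h1 a a' (fun x hx => h x (Or.inl hx)), h2 a a' (fun x hx => h x (Or.inr hx))]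
  · rintro p q _ _ ⟨Y, hY, h1⟩ ⟨Z, hZ, h2⟩
    refine ⟨Y ∪ Z, hY.union hZ, fun a a' h => ?_⟩
    rw [mul_ev, mul_ev, h1 a a' (fun x hx => h x (Or.inl hx)), h2 a a' (fun x hx => h x (Or.inr hx))]

end

end

end Pool.Agent.Helper93.VB
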