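import Pool.Agent.Helper93.VB.TreeDefs

/-!
Trees with finite levels indexed by a well-ordered set: branching levels, cocycles.
-/

universe u v w

namespace Pool.Agent.Helper93.VB

set_option linter.unusedSectionVars false

noncomputable section

variable {M : Type u} [LZ.Structure M] [hM : ZM M]
variable {C T : Type*} [IType M C] [IType M T] [LinearOrder C] [ILt M C]
  {ℓ : IFun M T C} {res : IFun M (C × T) T}

lemma ifin_of_subsingleton {D : IPow M C} (h : ∀ x y, x ∈ D → y ∈ D → x = y) : IFin D := by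
  by_cases hD : ∃ x, x ∈ D
  · obtain ⟨x, hx⟩ := hD
    exact (ifin_singleton x).subset (fun y hy => h y x hy hx)
  · exact ifin_empty.subset (fun y hy => absurd ⟨y, hy⟩ hD)

lemma sib_refl (x : T) : sib ℓ res x x := ⟨rfl, fun _ _ => rfl⟩

lemma sib.symm {x y : T} (h : sib ℓ res x y) : sib ℓ res y x :=
  ⟨h.1.symm, fun d hd => (h.2 d (h.1 ▸ hd)).symm⟩

lemma sib.trans {x y z : T} (h : sib ℓ res x y) (h' : sib ℓ res y z) : sib ℓ res x z :=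
  ⟨h.1.trans h'.1, fun d hd => (h.2 d hd).trans (h'.2 d (h.1 ▸ hd))⟩

/-- threads -/
def Thr (ℓ : IFun M T C) (res : IFun M (C × T) T) (t : IFun M C T) : Prop :=
  (∀ c, ℓ.ev (t.ev c) = c) ∧ ∀ d c, d ≤ c → res.ev (d, t.ev c) = t.ev d

section

variable (hT : IsTree ℓ res)
include hT

lemma exists_first_diff {x y : T} (h : ℓ.ev x = ℓ.ev y) (hne : x ≠ y) :
    ∃ d, d ≤ ℓ.ev x ∧ sib ℓ res (res.ev (d, x)) (res.ev (d, y)) ∧
      res.ev (d, x) ≠ res.ev (d, y) := by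
  obtain ⟨d, ⟨hd1, hd2⟩, hd3⟩ := hT.wf
    (cmp (fun d => d ≤ ℓ.ev x ∧ ¬ res.ev (d, x) = res.ev (d, y)) (by fun_prop))
    ⟨ℓ.ev x, le_rfl, by rw [hT.self, h, hT.self]; exact hne⟩
  refine ⟨d, hd1, ⟨?_, ?_⟩, hd2⟩
  · rw [hT.lev d x hd1, hT.lev d y (h ▸ hd1)]
  · intro e he
    rw [hT.lev d x hd1] at he
    rw [hT.res_res e d x he.le hd1, hT.res_res e d y he.le (h ▸ hd1)]
    by_contra hcon
    exact absurd (hd3 e ⟨he.le.trans hd1, hcon⟩) (not_le.2 he)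

lemma br_unbounded {S : IPow M T} (hS : Prn ℓ res S) (hno : ¬ ∃ t, Thr ℓ res t) (c0 : C) :
    ∃ u w, c0 < ℓ.ev u ∧ u ∈ S ∧ w ∈ S ∧ sib ℓ res u w ∧ u ≠ w := by
  by_contra hcon
  push Not at hcon
  apply hno
  obtain ⟨y, hy, hyc⟩ := hS.2.2 c0
  have huniq : ∀ x x', x ∈ S → x' ∈ S → ℓ.ev x = ℓ.ev x' → c0 ≤ ℓ.ev x →
      res.ev (c0, x) = y → res.ev (c0, x') = y → x = x' := by
    intro x x' hx hx' hxx hc hxy hxy'
    by_contra hne
    obtain ⟨d, hd1, hd2, hd3⟩ := exists_first_diff hT hxx hne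
    by_cases hdc : c0 < d
    · refine hd3 (hcon _ _ ?_ (hS.1 x d hx hd1) (hS.1 x' d hx' (hxx ▸ hd1)) hd2)
      rwa [hT.lev d x hd1]
    · apply hd3
      rw [not_lt] at hdc
      rw [← hT.res_res d c0 x hdc hc, ← hT.res_res d c0 x' hdc (hxx ▸ hc), hxy, hxy']
  have : Nonempty T := ⟨y⟩
  have hex : ∀ c, ∃ x, (x ∈ S ∧ ℓ.ev x = c ∧ (c ≤ c0 → x = res.ev (c, y)) ∧
      (c0 ≤ c → res.ev (c0, x) = y)) ∧ ∀ x', (x' ∈ S ∧ ℓ.ev x' = c ∧
      (c ≤ c0 → x' = res.ev (c, y)) ∧ (c0 ≤ c → res.ev (c0, x') = y)) → x' = x := by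
    intro c
    by_cases hc : c ≤ c0
    · refine ⟨res.ev (c, y), ⟨hS.1 y c hy (hyc ▸ hc), hT.lev c y (hyc ▸ hc), fun _ => rfl, ?_⟩, ?_⟩
      · intro hc'
        have : c = c0 := le_antisymm hc hc'
        rw [this, ← hyc, hT.self, hT.self]
      · intro x' hx'
        exact hx'.2.2.1 hc
    · rw [not_le] at hc
      obtain ⟨x, hx, hxc, hxy⟩ := hS.2.1 y c hy (hyc ▸ hc.le)
      rw [hyc] at hxy
      refine ⟨x, ⟨hx, hxc, fun h => absurd h (not_le.2 hc), fun _ => hxy⟩, ?_⟩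
      intro x' hx'
      exact huniq x' x hx'.1 hx (hx'.2.1.trans hxc.symm) (hx'.2.1 ▸ hc.le) (hx'.2.2.2 hc.le) hxy
  let t : IFun M C T := lam (fun c => the (cmp (fun x => x ∈ S ∧ ℓ.ev x = c ∧
      (c ≤ c0 → x = res.ev (c, y)) ∧ (c0 ≤ c → res.ev (c0, x) = y)) (by fun_prop) : IPow M T))
      (by fun_prop)
  have hspec : ∀ c, t.ev c ∈ S ∧ ℓ.ev (t.ev c) = c ∧ (c ≤ c0 → t.ev c = res.ev (c, y)) ∧
      (c0 ≤ c → res.ev (c0, t.ev c) = y) := by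
    intro c
    obtain ⟨x, hx, hx'⟩ := hex c
    exact the_mem (S := cmp (fun x => x ∈ S ∧ ℓ.ev x = c ∧
      (c ≤ c0 → x = res.ev (c, y)) ∧ (c0 ≤ c → res.ev (c0, x) = y)) (by fun_prop))
      ⟨x, hx, fun z hz => hx' z hz⟩
  refine ⟨t, fun c => (hspec c).2.1, fun d c hdc => ?_⟩
  obtain ⟨x, hx, hx'⟩ := hex d
  obtain ⟨h1, h2, h3, h4⟩ := hspec c
  rw [hx' _ (hspec d)]
  apply hx'
  have hdc' : d ≤ ℓ.ev (t.ev c) := h2.symm ▸ hdc
  refine ⟨hS.1 _ d h1 hdc', hT.lev d _ hdc', ?_, ?_⟩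
  · intro hd0
    by_cases hc : c ≤ c0
    · rw [h3 hc, hT.res_res d c y hdc (hyc ▸ hc)]
    · rw [not_le] at hc
      rw [← h4 hc.le, hT.res_res d c0 _ hd0 (h2.symm ▸ hc.le)]
  · intro hd0
    rw [hT.res_res c0 d _ hd0 hdc']
    exact h4 (hd0.trans hdc)

lemma br_fin {S : IPow M T} (hS : Prn ℓ res S) (c : C) :
    IFin (cmp (fun d => d ≤ c ∧ ∃ u w, u ∈ S ∧ w ∈ S ∧ ℓ.ev u = d ∧ sib ℓ res u w ∧ ¬ u = w)
      (by fun_prop) : IPow M C) := by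
  have hl : IFin (lvl ℓ S c) := (hT.fin c).subset (fun x hx => hx.2)
  have h := (hl.prd hl).bUn (f := fun p => cmp (fun d => d ≤ c ∧
    ¬ res.ev (d, p.1) = res.ev (d, p.2) ∧ ∀ e, e < d → res.ev (e, p.1) = res.ev (e, p.2))
    (by fun_prop)) (hf := by fun_prop) (by
      intro p _
      apply ifin_of_subsingleton
      rintro x y ⟨_, hx1, hx2⟩ ⟨_, hy1, hy2⟩
      rcases lt_trichotomy x y with hxy | hxy | hxy
      · exact absurd (hy2 x hxy) hx1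
      · exact hxy
      · exact absurd (hx2 y hxy) hy1)
  refine h.subset ?_
  rintro d ⟨hdc, u, w, hu, hw, hud, hsib, hne⟩
  obtain ⟨x, hx, hxc, hxu⟩ := hS.2.1 u c hu (hud ▸ hdc)
  obtain ⟨x', hx', hxc', hxw⟩ := hS.2.1 w c hw (by rw [← hsib.1, hud]; exact hdc)
  rw [hud] at hxu
  rw [← hsib.1, hud] at hxw
  refine ⟨(x, x'), ⟨⟨hx, hxc⟩, ⟨hx', hxc'⟩⟩, hdc, ?_, ?_⟩
  · show ¬ res.ev (d, x) = res.ev (d, x')
    rw [hxu, hxw]
    exact hne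
  · intro e he
    show res.ev (e, x) = res.ev (e, x')
    rw [← hT.res_res e d x he.le (hxc ▸ hdc), ← hT.res_res e d x' he.le (hxc' ▸ hdc), hxu, hxw]
    exact hsib.2 e (hud.symm ▸ he)

end

/-! ### Cocycles -/

lemma eS_pos {S : IPow M T} {x u w : T} (h : u ∈ S ∧ w ∈ S ∧ sib ℓ res u w) :
    (eS ℓ res S x).ev (u, w) = (open Classical in if u = x then (1 : QQ M) else 0) -
      (open Classical in if w = x then (1 : QQ M) else 0) := if_pos h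

lemma eS_neg {S : IPow M T} {x u w : T} (h : ¬ (u ∈ S ∧ w ∈ S ∧ sib ℓ res u w)) :
    (eS ℓ res S x).ev (u, w) = 0 := if_neg h

lemma eS_mem {S : IPow M T} {x : T} (hx : x ∈ S) : eS ℓ res S x ∈ VS ℓ res S :=
  subset_spn _ _ ⟨x, hx, rfl⟩

/-- cocycles -/
def Coc (ℓ : IFun M T C) (res : IFun M (C × T) T) (S : IPow M T) (v : EE M T) : Prop :=
  (∀ u w, ¬ v.ev (u, w) = 0 → u ∈ S ∧ w ∈ S ∧ sib ℓ res u w) ∧
  (∀ u w, v.ev (w, u) = - v.ev (u, w)) ∧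
  ∀ u w z, u ∈ S → w ∈ S → z ∈ S → sib ℓ res u w → sib ℓ res w z →
    v.ev (u, w) + v.ev (w, z) = v.ev (u, z)

@[fun_prop] lemma im_Coc {S : IPow M T} {α : Type*} [IType M α] {f : α → EE M T} (hf : IM M f) :
    IM M (fun x => Coc ℓ res S (f x)) := by
  unfold Coc
  fun_prop

lemma coc_of_mem {S : IPow M T} {v : EE M T} (hv : v ∈ VS ℓ res S) : Coc ℓ res S v := by
  refine hv (cmp (fun v => Coc ℓ res S v) (by fun_prop)) ⟨?_, ?_, ?_⟩ ?_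
  · refine ⟨fun u w h => absurd rfl h, fun u w => ?_, fun u w z _ _ _ _ _ => ?_⟩
    · rw [zero_ev, zero_ev, neg_zero]
    · rw [zero_ev, zero_ev, zero_ev, add_zero]
  · rintro v w ⟨h1, h2, h3⟩ ⟨h1', h2', h3'⟩
    refine ⟨fun a b h => ?_, fun a b => ?_, fun a b c ha hb hc hab hbc => ?_⟩
    · by_cases h0 : v.ev (a, b) = 0
      · apply h1'
        intro h4
        apply h
        rw [add_ev, h0, h4, add_zero]
      · exact h1 a b h0
    · rw [add_ev, add_ev, h2 a b, h2' a b]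
      ring
    · rw [add_ev, add_ev, add_ev, ← h3 a b c ha hb hc hab hbc, ← h3' a b c ha hb hc hab hbc]
      ring
  · rintro c v ⟨h1, h2, h3⟩
    refine ⟨fun a b h => ?_, fun a b => ?_, fun a b d ha hb hc hab hbc => ?_⟩
    · apply h1
      intro h4
      apply h
      rw [smul_ev, h4, smul_zero]
    · rw [smul_ev, smul_ev, h2 a b, smul_neg]
    · rw [smul_ev, smul_ev, smul_ev, ← h3 a b d ha hb hc hab hbc, smul_add]
  · rintro _ ⟨x, hx, rfl⟩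
    refine ⟨fun a b h => ?_, fun a b => ?_, fun a b d ha hb hd hab hbd => ?_⟩
    · by_contra h0
      exact h (eS_neg h0)
    · by_cases h : a ∈ S ∧ b ∈ S ∧ sib ℓ res a b
      · rw [eS_pos h, eS_pos ⟨h.2.1, h.1, h.2.2.symm⟩]
        ring
      · rw [eS_neg h, eS_neg (fun h' => h ⟨h'.2.1, h'.1, h'.2.2.symm⟩), neg_zero]
    · rw [eS_pos ⟨ha, hb, hab⟩, eS_pos ⟨hb, hd, hbd⟩, eS_pos ⟨ha, hd, hab.trans hbd⟩]
      ring

lemma Coc.self {S : IPow M T} {v : EE M T} (hv : Coc ℓ res S v) (u : T) : v.ev (u, u) = 0 := by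
  have h := hv.2.1 u u
  have h2 : v.ev (u, u) + v.ev (u, u) = 0 := by
    nth_rewrite 1 [h]
    ring
  linarith

lemma nzl_add {v w : EE M T} {c : C} (h : nzl ℓ (v + w) c) : nzl ℓ v c ∨ nzl ℓ w c := by
  obtain ⟨p, hp, hp'⟩ := h
  by_cases h0 : v.ev p = 0
  · right
    refine ⟨p, hp, fun h1 => hp' ?_⟩
    rw [add_ev, h0, h1, add_zero]
  · exact Or.inl ⟨p, hp, h0⟩

lemma nzl_smul {v : EE M T} {a : QQ M} {c : C} (h : nzl ℓ (a • v) c) : nzl ℓ v c := by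
  obtain ⟨p, hp, hp'⟩ := h
  refine ⟨p, hp, fun h1 => hp' ?_⟩
  rw [smul_ev, h1, smul_zero]

lemma not_nzl_zero {c : C} : ¬ nzl ℓ (0 : EE M T) c := by
  rintro ⟨p, _, hp'⟩
  exact hp' rfl

lemma nzl_eS {S : IPow M T} {x : T} {c : C} (h : nzl ℓ (eS ℓ res S x) c) : c = ℓ.ev x := by
  obtain ⟨⟨u, w⟩, hp, hp'⟩ := h
  have hp1 : ℓ.ev u = c := hp
  by_cases h0 : u ∈ S ∧ w ∈ S ∧ sib ℓ res u w
  · by_cases hu : u = x
    · rw [← hp1, hu]
    · by_cases hw : w = x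
      · rw [← hp1, h0.2.2.1, hw]
      · exfalso
        apply hp'
        rw [eS_pos h0, if_neg hu, if_neg hw, sub_zero]
  · exact absurd (eS_neg h0) hp'

lemma eS_ne {S : IPow M T} {u w : T} (hu : u ∈ S) (hw : w ∈ S) (h : sib ℓ res u w) (hne : u ≠ w) :
    (eS ℓ res S u).ev (u, w) = 1 := by
  rw [eS_pos ⟨hu, hw, h⟩, if_pos rfl, if_neg (fun h => hne h.symm), sub_zero]

end

end Pool.Agent.Helper93.VB
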