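import Pool.Agent.Helper93.VB.Tree1

/-!
Trees with finite levels indexed by a well-ordered set: the use of a basis.
-/

universe u v w

namespace Pool.Agent.Helper93.VB

set_option linter.unusedSectionVars false

noncomputable section

variable {M : Type u} [LZ.Structure M] [hM : ZM M]
variable {C T : Type*} [IType M C] [IType M T] [LinearOrder C] [ILt M C]
  {ℓ : IFun M T C} {res : IFun M (C × T) T}

section

variable (hT : IsTree ℓ res) {S : IPow M T} (hS : Prn ℓ res S) {B : IPow M (EE M T)}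
  (hB : IBas (QQ M) (VS ℓ res S) B)

include hT in
lemma lvl_fin (c : C) : IFin (lvl ℓ S c) := (hT.fin c).subset (fun _ hx => hx.2)

include hT hB in
lemma bet_fin (c : C) : IFin (bet ℓ res S B c) :=
  (lvl_fin hT c).bUn (fun _ hx => supp_finite hB (eS_mem hx.1))

include hT hB in
lemma nw_fin (c : C) : IFin (nw ℓ res S B c) := (bet_fin hT hB c).subset (fun _ hx => hx.1)

lemma bet_sub (c : C) : bet ℓ res S B c ⊆ B := by
  rintro b ⟨x, _, hb⟩
  exact hb.1

lemma nw_sub (c : C) : nw ℓ res S B c ⊆ B := fun b hb => bet_sub c b hb.1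

include hT hB in
lemma sS_spec (c : C) : sS ℓ res S B c ∈ VS ℓ res S ∧
    (∀ b, b ∈ nw ℓ res S B c → coord (QQ M) B b (sS ℓ res S B c) = 1) ∧
    ∀ b, b ∈ B → ¬ b ∈ nw ℓ res S B c → coord (QQ M) B b (sS ℓ res S B c) = 0 := by
  obtain ⟨s, hs, h1, h2⟩ := exists_ind (K := QQ M) hB (nw_fin hT hB c) (nw_sub c)
  have key := the_mem (S := (cmp (fun s => s ∈ VS ℓ res S ∧
    (∀ b, b ∈ nw ℓ res S B c → coord (QQ M) B b s = 1) ∧
    ∀ b, b ∈ B → ¬ b ∈ nw ℓ res S B c → coord (QQ M) B b s = 0) (by fun_prop) :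
    IPow M (EE M T))) ⟨s, ⟨hs, h1, h2⟩, by
      rintro s' ⟨hs', h1', h2'⟩
      have h3 : s' - s ∈ VS ℓ res S := hB.isub.sub hs' hs
      have h4 : s' - s = 0 := by
        refine eq_zero_of_coord (K := QQ M) hB h3 ?_
        intro b hb
        have h5 : coord (QQ M) B b s' = coord (QQ M) B b s := by
          by_cases hbn : b ∈ nw ℓ res S B c
          · rw [h1 b hbn, h1' b hbn]
          · rw [h2 b hb hbn, h2' b hb hbn]
        have h6 : s' = (s' - s) + s := by abel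
        have h7 := coord_add (K := QQ M) hB hb h3 hs
        rw [← h6, h5] at h7
        linarith
      exact sub_eq_zero.1 h4⟩
  exact key

include hT hB in
lemma exists_nw {b : EE M T} (hb : b ∈ B) : ∃ c, b ∈ nw ℓ res S B c := by
  have h1 : ∃ c, b ∈ bet ℓ res S B c := by
    by_contra hcon
    push Not at hcon
    have h2 : supp (QQ M) B b ⊆ cmp (fun b' => ¬ b' = b) (by fun_prop) := by
      have hbV : b ∈ VS ℓ res S := hB.sub b hb
      refine supp_spn (K := QQ M) hB ?_ ?_ hbV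
      · rintro _ ⟨x, hx, rfl⟩
        exact eS_mem hx
      · rintro _ ⟨x, hx, rfl⟩ b' hb' hbb
        rw [hbb] at hb'
        exact hcon (ℓ.ev x) ⟨x, ⟨hx, rfl⟩, hb'⟩
    refine h2 b ⟨hb, ?_⟩ rfl
    rw [coord_self (K := QQ M) hB hb]
    exact one_ne_zero
  obtain ⟨c, hc, hmin⟩ := hT.wf (cmp (fun c => b ∈ bet ℓ res S B c) (by fun_prop)) h1
  exact ⟨c, hc, fun d hd hbd => absurd (hmin d hbd) (not_le.2 hd)⟩

lemma fin_bdd {D : IPow M C} (hD : IFin D) (hne : ∃ c, c ∈ D) : ∃ m, m ∈ D ∧ ∀ d, d ∈ D → d ≤ m := by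
  obtain ⟨m, hm, hmin⟩ := hD.exists_minimal (cmp (fun p : C × C => p.2 < p.1) (by fun_prop))
    (fun x h => lt_irrefl _ h) (fun x y z h1 h2 => lt_trans (α := C) h2 h1) hne
  exact ⟨m, hm, fun d hd => not_lt.1 (fun h => hmin d hd h)⟩

include hT hS hB in
lemma B_infinite (hno : ¬ ∃ t, Thr ℓ res t) : ¬ IFin B := by
  intro hfin
  -- the vectors vanishing outside finitely many levels
  have hnz : ∀ v, v ∈ VS ℓ res S → IFin (cmp (fun c => nzl ℓ v c) (by fun_prop) : IPow M C) := by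
    intro v hv
    refine hv (cmp (fun v => IFin (cmp (fun c => nzl ℓ v c) (by fun_prop) : IPow M C))
      (by fun_prop)) ⟨?_, ?_, ?_⟩ ?_
    · exact ifin_empty.subset (fun c hc => absurd hc not_nzl_zero)
    · intro v w hv hw
      exact (hv.union hw).subset (fun c hc => nzl_add hc)
    · intro a v hv
      exact hv.subset (fun c hc => nzl_smul hc)
    · rintro _ ⟨x, hx, rfl⟩
      refine (ifin_singleton (ℓ.ev x)).subset (fun c hc => ?_)
      exact nzl_eS hc
  have hL := hfin.bUn (f := fun b => (cmp (fun c => nzl ℓ b c) (by fun_prop) : IPow M C))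
    (hf := by fun_prop) (fun b hb => hnz b (hB.sub b hb))
  have hall : ∀ v, v ∈ VS ℓ res S → ∀ c, nzl ℓ v c → ∃ b, b ∈ B ∧ nzl ℓ b c := by
    intro v hv
    rw [← hB.1] at hv
    refine hv (cmp (fun v => ∀ c, nzl ℓ v c → ∃ b, b ∈ B ∧ nzl ℓ b c) (by fun_prop))
      ⟨?_, ?_, ?_⟩ ?_
    · exact fun c hc => absurd hc not_nzl_zero
    · intro v w hv hw c hc
      rcases nzl_add hc with h | h
      · exact hv c h
      · exact hw c h
    · intro a v hv c hc
      exact hv c (nzl_smul hc)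
    · exact fun b hb c hc => ⟨b, hb, hc⟩
  -- all branching levels are among finitely many
  have hbr : ∀ u w, u ∈ S → w ∈ S → sib ℓ res u w → u ≠ w → ∃ b, b ∈ B ∧ nzl ℓ b (ℓ.ev u) := by
    intro u w hu hw huw hne
    refine hall (eS ℓ res S u) (eS_mem hu) _ ⟨(u, w), rfl, ?_⟩
    rw [eS_ne hu hw huw hne]
    exact one_ne_zero
  by_cases hC : ∃ c : C, True
  · obtain ⟨c0, _⟩ := hC
    obtain ⟨u, w, _, hu, hw, huw, hne⟩ := br_unbounded hT hS hno c0
    obtain ⟨m, hm, hmax⟩ := fin_bdd hL ⟨ℓ.ev u, hbr u w hu hw huw hne⟩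
    obtain ⟨u', w', hlt, hu', hw', huw', hne'⟩ := br_unbounded hT hS hno m
    exact absurd (hmax _ (hbr u' w' hu' hw' huw' hne')) (not_le.2 hlt)
  · apply hno
    have hE : ∀ c : C, False := fun c => hC ⟨c, trivial⟩
    refine ⟨⟨fun c => (hE c).elim, ?_⟩, fun c => (hE c).elim, fun c => (hE c).elim⟩
    apply im_of_graph
    have : IM M (fun _ : C × T => True) := by fun_prop
    convert this using 2 with x
    exact (hE x.1).elim

include hT hS hB in
lemma NB_infinite (hno : ¬ ∃ t, Thr ℓ res t) : ¬ IFin (NB ℓ res S B) := by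
  intro hfin
  apply B_infinite hT hS hB hno
  -- projection to the levels in `NB`
  let L := NB ℓ res S B
  have hT0 : IFin (bUn L (fun d => bet ℓ res S B d) (by fun_prop)) :=
    hfin.bUn (fun d _ => bet_fin hT hB d)
  refine hT0.subset ?_
  intro b hb
  obtain ⟨c, hc⟩ := exists_nw hT hB hb
  obtain ⟨hsV, hs1, _⟩ := sS_spec hT hB c
  let pr : EE M T → EE M T := fun v =>
    lam (fun p => open Classical in if ℓ.ev p.1 ∈ L then v.ev p else 0) (by fun_prop)
  have im_pr : IM M pr := by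
    show IM M (fun v : EE M T =>
      lam (fun p => open Classical in if ℓ.ev p.1 ∈ L then v.ev p else 0) _)
    fun_prop
  have pr_pos : ∀ (v : EE M T) p, ℓ.ev p.1 ∈ L → (pr v).ev p = v.ev p := fun v p hp => if_pos hp
  have pr_neg : ∀ (v : EE M T) p, ¬ ℓ.ev p.1 ∈ L → (pr v).ev p = 0 := fun v p hp => if_neg hp
  let G : IPow M (EE M T) := cmp (fun v => ∃ x, x ∈ S ∧ ℓ.ev x ∈ L ∧ v = eS ℓ res S x)
    (by fun_prop)
  have hpr : ∀ v, v ∈ VS ℓ res S → pr v ∈ spn (QQ M) G := by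
    intro v hv
    have im2 : IM M (fun v => pr v ∈ spn (QQ M) G) := im_mem (im_const _) im_pr
    have hG := isub_spn (K := QQ M) G
    refine hv (cmp (fun v => pr v ∈ spn (QQ M) G) im2) ⟨?_, ?_, ?_⟩ ?_
    · show pr 0 ∈ spn (QQ M) G
      have : pr 0 = 0 := by
        ext p
        by_cases hp : ℓ.ev p.1 ∈ L
        · rw [pr_pos _ _ hp]
        · rw [pr_neg _ _ hp, zero_ev]
      rw [this]
      exact hG.1
    · intro v w hv hw
      show pr (v + w) ∈ spn (QQ M) G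
      have : pr (v + w) = pr v + pr w := by
        ext p
        by_cases hp : ℓ.ev p.1 ∈ L
        · rw [pr_pos _ _ hp, add_ev, add_ev, pr_pos _ _ hp, pr_pos _ _ hp]
        · rw [pr_neg _ _ hp, add_ev, pr_neg _ _ hp, pr_neg _ _ hp, add_zero]
      rw [this]
      exact hG.2.1 _ _ hv hw
    · intro a v hv
      show pr (a • v) ∈ spn (QQ M) G
      have : pr (a • v) = a • pr v := by
        ext p
        by_cases hp : ℓ.ev p.1 ∈ L
        · rw [pr_pos _ _ hp, smul_ev, smul_ev, pr_pos _ _ hp]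
        · rw [pr_neg _ _ hp, smul_ev, pr_neg _ _ hp, smul_zero]
      rw [this]
      exact hG.2.2 _ _ hv
    · rintro _ ⟨x, hx, rfl⟩
      show pr (eS ℓ res S x) ∈ spn (QQ M) G
      by_cases hxL : ℓ.ev x ∈ L
      · have : pr (eS ℓ res S x) = eS ℓ res S x := by
          ext p
          by_cases hp : ℓ.ev p.1 ∈ L
          · rw [pr_pos _ _ hp]
          · rw [pr_neg _ _ hp]
            by_contra h0
            apply hp
            have := nzl_eS (ℓ := ℓ) (res := res) (S := S) (x := x) (c := ℓ.ev p.1)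
              ⟨p, rfl, fun h => h0 h.symm⟩
            rwa [this]
        rw [this]
        exact subset_spn _ _ ⟨x, hx, hxL, rfl⟩
      · have : pr (eS ℓ res S x) = 0 := by
          ext p
          rw [zero_ev]
          by_cases hp : ℓ.ev p.1 ∈ L
          · rw [pr_pos _ _ hp]
            by_contra h0
            have := nzl_eS (ℓ := ℓ) (res := res) (S := S) (x := x) (c := ℓ.ev p.1) ⟨p, rfl, h0⟩
            rw [this] at hp
            exact hxL hp
          · rw [pr_neg _ _ hp]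
        rw [this]
        exact hG.1
  have hps : pr (sS ℓ res S B c) = sS ℓ res S B c := by
    ext p
    by_cases hp : ℓ.ev p.1 ∈ L
    · rw [pr_pos _ _ hp]
    · rw [pr_neg _ _ hp]
      by_contra h0
      exact hp ⟨c, p, rfl, fun h => h0 h.symm⟩
  have h3 := hpr _ hsV
  rw [hps] at h3
  have h4 : supp (QQ M) B (sS ℓ res S B c) ⊆ bUn L (fun d => bet ℓ res S B d) (by fun_prop) := by
    refine supp_spn (K := QQ M) hB ?_ ?_ h3
    · rintro _ ⟨x, hx, _, rfl⟩
      exact eS_mem hx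
    · rintro _ ⟨x, hx, hxL, rfl⟩ b' hb'
      exact ⟨ℓ.ev x, hxL, x, ⟨hx, rfl⟩, hb'⟩
  refine h4 b ⟨hb, ?_⟩
  rw [hs1 b hc]
  exact one_ne_zero

include hT hS hB in
lemma NB_unbounded (hno : ¬ ∃ t, Thr ℓ res t) (c0 : C) : ∃ d, d ∈ NB ℓ res S B ∧ c0 < d := by
  by_contra hcon
  push Not at hcon
  apply NB_infinite hT hS hB hno
  refine (br_fin hT hS c0).subset ?_
  rintro d hd
  refine ⟨hcon d hd, ?_⟩
  obtain ⟨c, ⟨u, w⟩, hp, hp'⟩ := hd
  have hcoc := coc_of_mem (sS_spec hT hB c).1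
  obtain ⟨h1, h2, h3⟩ := hcoc.1 u w hp'
  refine ⟨u, w, h1, h2, hp, h3, ?_⟩
  rintro rfl
  exact hp' (hcoc.self u)

include hT hB in
lemma AB_split {d : C} (hd : d ∈ NB ℓ res S B) : ∃ y1 y2, y1 ∈ S ∧ y2 ∈ S ∧ ℓ.ev y1 = d ∧
    sib ℓ res y1 y2 ∧ y1 ∈ AB ℓ res S B ∧ ¬ y2 ∈ AB ℓ res S B := by
  obtain ⟨c, hc, hmin⟩ := hT.wf (cmp (fun c => nzl ℓ (sS ℓ res S B c) d) (by fun_prop)) hd
  have hmin' : ∀ c', c' < c → ¬ nzl ℓ (sS ℓ res S B c') d :=
    fun c' hc' h => absurd (hmin c' h) (not_le.2 hc')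
  have huniq : ∀ c', nzl ℓ (sS ℓ res S B c') d → (∀ e, e < c' → ¬ nzl ℓ (sS ℓ res S B e) d) →
      c' = c := by
    intro c' h1 h2
    rcases lt_trichotomy c' c with h | h | h
    · exact absurd h1 (hmin' c' h)
    · exact h
    · exact absurd hc (h2 c h)
  obtain ⟨⟨u, w⟩, hp, hp'⟩ := hc
  have hcoc := coc_of_mem (sS_spec hT hB c).1
  obtain ⟨hu, hw, huw⟩ := hcoc.1 u w hp'
  have hud : ℓ.ev u = d := hp
  -- a maximal sibling
  have hG : IFin (cmp (fun x => x ∈ S ∧ sib ℓ res u x) (by fun_prop) : IPow M T) :=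
    (hT.fin d).subset (fun x hx => by
      show ℓ.ev x = d
      rw [← hx.2.1, hud])
  obtain ⟨y1, ⟨hy1, huy1⟩, hmax⟩ := hG.exists_minimal
    (cmp (fun p : T × T => (p.1 ∈ S ∧ sib ℓ res u p.1) ∧ (p.2 ∈ S ∧ sib ℓ res u p.2) ∧
      0 < (sS ℓ res S B c).ev (p.1, p.2)) (by fun_prop))
    (fun x hx => by
      have h1 : 0 < (sS ℓ res S B c).ev (x, x) := hx.2.2
      rw [hcoc.self] at h1
      exact lt_irrefl _ h1)
    (fun x y z hxy hyz => by
      obtain ⟨h1, h2, h3⟩ := hxy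
      obtain ⟨h1', h2', h3'⟩ := hyz
      refine ⟨h1, h2', ?_⟩
      have h4 := hcoc.2.2 x y z h1.1 h2.1 h2'.1 (h1.2.symm.trans h2.2) (h2.2.symm.trans h2'.2)
      have h3a : 0 < (sS ℓ res S B c).ev (x, y) := h3
      have h3b : 0 < (sS ℓ res S B c).ev (y, z) := h3'
      show 0 < (sS ℓ res S B c).ev (x, z)
      rw [← h4]
      exact add_pos h3a h3b) ⟨u, hu, sib_refl u⟩
  have hy1A : y1 ∈ AB ℓ res S B := by
    refine ⟨hy1, ?_⟩
    intro c' h1 h2 x' hx' hyx'
    have hl : ℓ.ev y1 = d := by rw [← huy1.1, hud]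
    rw [hl] at h1 h2
    rw [huniq c' h1 h2]
    have h3 := hmax x' ⟨hx', huy1.trans hyx'⟩
    have h4 : ¬ 0 < (sS ℓ res S B c).ev (x', y1) := fun h => h3 ⟨⟨hx', huy1.trans hyx'⟩,
      ⟨hy1, huy1⟩, h⟩
    rw [hcoc.2.1 y1 x'] at h4
    rw [not_lt] at h4
    linarith
  have hnot : ∀ a b, a ∈ S → b ∈ S → sib ℓ res u a → sib ℓ res a b →
      (sS ℓ res S B c).ev (a, b) < 0 → ¬ a ∈ AB ℓ res S B := by
    intro a b ha hb hua hab hlt hA
    have hl : ℓ.ev a = d := by rw [← hua.1, hud]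
    have h1 := hA.2 c (by rw [hl]; exact ⟨(u, w), hp, hp'⟩) (by rw [hl]; exact hmin') b hb hab
    linarith
  rcases lt_or_gt_of_ne hp' with h | h
  · refine ⟨y1, u, hy1, hu, ?_, huy1.symm, hy1A, hnot u w hu hw (sib_refl u) huw h⟩
    rw [← huy1.1, hud]
  · refine ⟨y1, w, hy1, hw, ?_, huy1.symm.trans huw, hy1A, hnot w u hw hu huw huw.symm ?_⟩
    · rw [← huy1.1, hud]
    · rw [hcoc.2.1 u w]
      linarith

end

end

end Pool.Agent.Helper93.VB
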