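import Pool.Agent.Helper93.VB.Tree2
import Pool.Agent.Helper93.VB.Blass

/-!
Trees with finite levels indexed by a well-ordered set have threads, in models of `VB`.
-/

universe u v w

namespace Pool.Agent.Helper93.VB

set_option linter.unusedSectionVars false

noncomputable section

variable {M : Type u} [LZ.Structure M] [hM : ZM M]
variable {C T : Type*} [IType M C] [IType M T] [LinearOrder C] [ILt M C]
  {ℓ : IFun M T C} {res : IFun M (C × T) T}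

lemma lex_irrefl (w : IPow M C) : ¬ lex w w := by
  rintro ⟨d, h1, h2, _⟩
  exact h2 h1

lemma lex_trans {w w' w'' : IPow M C} (h : lex w w') (h' : lex w' w'') : lex w w'' := by
  obtain ⟨d, h1, h2, h3⟩ := h
  obtain ⟨e, h4, h5, h6⟩ := h'
  rcases lt_trichotomy d e with hde | hde | hde
  · exact ⟨d, (h6 d hde).1 h1, h2, fun f hf => (h3 f hf).trans (h6 f (hf.trans hde))⟩
  · rw [hde] at h1
    exact absurd h1 h5
  · exact ⟨e, h4, fun h => h5 ((h3 e hde).1 h), fun f hf => (h3 f (hf.trans hde)).trans (h6 f hf)⟩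

lemma lex_total (hT : IsTree ℓ res) {w w' : IPow M C} (h : w ≠ w') : lex w w' ∨ lex w' w := by
  have hex : ∃ d, ¬ (d ∈ w ↔ d ∈ w') := by
    by_contra hcon
    push Not at hcon
    exact h (IPow.ext hcon)
  obtain ⟨d, hd, hmin⟩ := hT.wf (cmp (fun d => ¬ (d ∈ w ↔ d ∈ w')) (by fun_prop)) hex
  have hlow : ∀ e, e < d → (e ∈ w ↔ e ∈ w') := by
    intro e he
    by_contra hcon
    exact absurd (hmin e hcon) (not_le.2 he)
  have hd' : ¬ (d ∈ w ↔ d ∈ w') := hd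
  by_cases h1 : d ∈ w
  · right
    exact ⟨d, h1, fun h2 => hd' ⟨fun _ => h2, fun _ => h1⟩, fun e he => (hlow e he).symm⟩
  · left
    refine ⟨d, ?_, h1, hlow⟩
    by_contra h2
    exact hd' ⟨fun h => absurd h h1, fun h => absurd h h2⟩

section

variable (hT : IsTree ℓ res) {S : IPow M T} (hS : Prn ℓ res S) {Bs : IPow M (IPow M (EE M T))}
  (hBs : ∀ B, B ∈ Bs → IBas (QQ M) (VS ℓ res S) B) (hfin : IFin Bs) (hne : ∃ B, B ∈ Bs)

include hT hS hBs hfin hne in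
lemma exists_cnd (hno : ¬ ∃ t, Thr ℓ res t) : ∃ c w, cnd ℓ res Bs S c w := by
  by_contra hcon
  push Not at hcon
  have hW : ∀ x y, x ∈ S → y ∈ S → ℓ.ev x = ℓ.ev y → ∀ w, w ∈ WS ℓ res Bs S x →
      w ∈ WS ℓ res Bs S y := by
    intro x y hx hy hxy w hw
    by_contra hw'
    exact hcon (ℓ.ev x) w ⟨⟨x, ⟨hx, rfl⟩, hw⟩, y, ⟨hy, hxy.symm⟩, hw'⟩
  -- minimal relation
  let rel : T → IPow M (IPow M (EE M T) × IPow M (EE M T)) := fun x =>
    cmp (fun p : IPow M (EE M T) × IPow M (EE M T) =>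
      p.1 ∈ Bs ∧ p.2 ∈ Bs ∧ bits ℓ res S p.1 x = bits ℓ res S p.2 x) (by fun_prop)
  have im_rel : IM M rel := by
    show IM M (fun x => cmp (fun p : IPow M (EE M T) × IPow M (EE M T) => p.1 ∈ Bs ∧ p.2 ∈ Bs ∧
      bits ℓ res S p.1 x = bits ℓ res S p.2 x) _)
    fun_prop
  have hRfin : IFin (img rel im_rel S) := by
    refine (hfin.prd hfin).pw.subset ?_
    rintro _ ⟨x, _, rfl⟩ p hp
    exact ⟨hp.1, hp.2.1⟩
  obtain ⟨B, hB⟩ := hne
  have hBb := hBs B hB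
  obtain ⟨t0, ht0⟩ : ∃ x, x ∈ S := by
    by_contra hcon'
    apply NB_infinite hT hS hBb hno
    refine ifin_empty.subset ?_
    intro d hd
    obtain ⟨y1, _, hy1, _⟩ := AB_split hT hBb hd
    exact absurd ⟨y1, hy1⟩ hcon'
  obtain ⟨_, ⟨x0, hx0, rfl⟩, hmin⟩ := hRfin.exists_minimal
    (cmp (fun p : IPow M (IPow M (EE M T) × IPow M (EE M T)) ×
      IPow M (IPow M (EE M T) × IPow M (EE M T)) => p.1 ⊆ p.2 ∧ ¬ p.2 ⊆ p.1) (by fun_prop))
    (fun x h => h.2 h.1) (fun x y z h1 h2 => ⟨fun a ha => h2.1 a (h1.1 a ha),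
      fun h => h1.2 (fun a ha => h a (h2.1 a ha))⟩) ⟨rel t0, t0, ht0, rfl⟩
  obtain ⟨d, hd, hlt⟩ := NB_unbounded hT hS hBb hno (ℓ.ev x0)
  obtain ⟨y1, y2, hy1, hy2, hyd, hsib, hA1, hA2⟩ := AB_split hT hBb hd
  obtain ⟨xd, hxd, hxdl, hxdr⟩ := hS.2.1 x0 d hx0 hlt.le
  have hy2d : ℓ.ev y2 = d := by rw [← hsib.1, hyd]
  -- bits of `y1`, `y2`
  obtain ⟨B1, hB1, hb1⟩ := hW y1 xd hy1 hxd (hyd.trans hxdl.symm) _ ⟨B, hB, rfl⟩
  obtain ⟨B2, hB2, hb2⟩ := hW y2 xd hy2 hxd (hy2d.trans hxdl.symm) _ ⟨B, hB, rfl⟩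
  change bits ℓ res S B1 xd = bits ℓ res S B y1 at hb1
  change bits ℓ res S B2 xd = bits ℓ res S B y2 at hb2
  have hdb1 : d ∈ bits ℓ res S B y1 := by
    refine ⟨hyd.ge, ?_⟩
    rw [← hyd, hT.self]
    exact hA1
  have hdb2 : ¬ d ∈ bits ℓ res S B y2 := by
    rintro ⟨_, h2⟩
    rw [← hy2d, hT.self] at h2
    exact hA2 h2
  have hlow : ∀ e, e < d → (e ∈ bits ℓ res S B y1 ↔ e ∈ bits ℓ res S B y2) := by
    intro e he
    have h1 := hsib.2 e (hyd.symm ▸ he)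
    constructor
    · rintro ⟨_, h3⟩
      exact ⟨hy2d.symm ▸ he.le, h1 ▸ h3⟩
    · rintro ⟨_, h3⟩
      exact ⟨hyd.symm ▸ he.le, h1.symm ▸ h3⟩
  have hrestr : ∀ B' e, e ≤ ℓ.ev x0 → (e ∈ bits ℓ res S B' x0 ↔ e ∈ bits ℓ res S B' xd) := by
    intro B' e he
    have h1 : res.ev (e, x0) = res.ev (e, xd) := by
      rw [← hxdr, hT.res_res e _ xd he (hxdl.symm ▸ hlt.le)]
    constructor
    · rintro ⟨_, h3⟩
      exact ⟨hxdl.symm ▸ he.trans hlt.le, h1 ▸ h3⟩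
    · rintro ⟨_, h3⟩
      exact ⟨he, h1.symm ▸ h3⟩
  apply hmin (rel xd) ⟨xd, hxd, rfl⟩
  refine ⟨?_, ?_⟩
  · rintro ⟨B', B''⟩ ⟨h1, h2, h3⟩
    refine ⟨h1, h2, ?_⟩
    have h3' : bits ℓ res S B' xd = bits ℓ res S B'' xd := h3
    show bits ℓ res S B' x0 = bits ℓ res S B'' x0
    ext e
    by_cases he : e ≤ ℓ.ev x0
    · rw [hrestr B' e he, hrestr B'' e he, h3']
    · exact ⟨fun h => absurd h.1 he, fun h => absurd h.1 he⟩
  · intro hsub
    have h3 : (B1, B2) ∈ rel x0 := by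
      refine ⟨hB1, hB2, ?_⟩
      show bits ℓ res S B1 x0 = bits ℓ res S B2 x0
      ext e
      by_cases he : e ≤ ℓ.ev x0
      · rw [hrestr B1 e he, hrestr B2 e he, hb1, hb2]
        exact hlow e (he.trans_lt hlt)
      · exact ⟨fun h => absurd h.1 he, fun h => absurd h.1 he⟩
    obtain ⟨_, _, h4⟩ := hsub _ h3
    have h4' : bits ℓ res S B1 xd = bits ℓ res S B2 xd := h4
    rw [hb1, hb2] at h4'
    rw [h4'] at hdb1
    exact hdb2 hdb1

include hT hS hBs hfin hne in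
lemma exists_mnd (hno : ¬ ∃ t, Thr ℓ res t) : ∃ c w, mnd ℓ res Bs S c w ∧
    ∀ c' w', mnd ℓ res Bs S c' w' → c' = c ∧ w' = w := by
  obtain ⟨c, ⟨w0, hw0⟩, hmin⟩ := hT.wf (cmp (fun c => ∃ w, cnd ℓ res Bs S c w) (by fun_prop))
    (exists_cnd hT hS hBs hfin hne hno)
  have hlow : ∀ c', c' < c → ∀ w', ¬ cnd ℓ res Bs S c' w' :=
    fun c' hc' w' h => absurd (hmin c' ⟨w', h⟩) (not_le.2 hc')
  have hWfin : IFin (cmp (fun w => cnd ℓ res Bs S c w) (by fun_prop) : IPow M (IPow M C)) := by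
    have h := (lvl_fin (S := S) hT c).bUn (f := fun x => WS ℓ res Bs S x) (hf := by fun_prop)
      (fun x _ => hfin.img)
    refine h.subset ?_
    rintro w ⟨⟨x, hx, hw⟩, _⟩
    exact ⟨x, hx, hw⟩
  obtain ⟨w, hw, hwmin⟩ := hWfin.exists_minimal
    (cmp (fun p : IPow M C × IPow M C => lex p.1 p.2) (by fun_prop))
    (fun x => lex_irrefl x) (fun x y z h1 h2 => lex_trans h1 h2) ⟨w0, hw0⟩
  refine ⟨c, w, ⟨hw, hlow, fun w' hw' => hwmin w' hw'⟩, ?_⟩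
  rintro c' w' ⟨h1, h2, h3⟩
  have hc : c' = c := by
    rcases lt_trichotomy c' c with h | h | h
    · exact absurd h1 (hlow c' h w')
    · exact h
    · exact absurd hw (h2 c h w)
  subst hc
  refine ⟨rfl, ?_⟩
  by_contra hne'
  rcases lex_total hT hne' with h | h
  · exact hwmin w' h1 h
  · exact h3 w hw h

include hT hS hBs hfin hne in
/-- `phi` gives a smaller pruned subtree. -/
lemma phi_spec (hno : ¬ ∃ t, Thr ℓ res t) : Prn ℓ res (phi ℓ res Bs S) ∧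
    phi ℓ res Bs S ⊆ S ∧ ¬ S ⊆ phi ℓ res Bs S := by
  obtain ⟨c, w, hm, huniq⟩ := exists_mnd hT hS hBs hfin hne hno
  have hmem : ∀ x, x ∈ phi ℓ res Bs S ↔ x ∈ S ∧ ∃ y, y ∈ lvl ℓ S c ∧ w ∈ WS ℓ res Bs S y ∧
      ((ℓ.ev x ≤ c ∧ res.ev (ℓ.ev x, y) = x) ∨ (c ≤ ℓ.ev x ∧ res.ev (c, x) = y)) := by
    intro x
    constructor
    · rintro ⟨hx, c', w', y, h1, h2, h3, h4⟩
      obtain ⟨hc', hw'⟩ := huniq c' w' h1
      subst hc' hw'
      exact ⟨hx, y, h2, h3, h4⟩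
    · rintro ⟨hx, y, h2, h3, h4⟩
      exact ⟨hx, c, w, y, hm, h2, h3, h4⟩
  obtain ⟨⟨u, hu, huw⟩, ⟨y', hy', hyw'⟩⟩ := hm.1
  -- extension
  have hext : ∀ x, x ∈ phi ℓ res Bs S → ∀ e, ℓ.ev x ≤ e →
      ∃ z, z ∈ phi ℓ res Bs S ∧ ℓ.ev z = e ∧ res.ev (ℓ.ev x, z) = x := by
    intro x hx e he
    rw [hmem] at hx
    obtain ⟨hxS, y, ⟨hy, hyc⟩, hyw, h⟩ := hx
    rcases h with ⟨h1, h2⟩ | ⟨h1, h2⟩
    · by_cases hec : e ≤ c
      · refine ⟨res.ev (e, y), ?_, hT.lev e y (hyc ▸ hec), ?_⟩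
        · rw [hmem]
          have hl : ℓ.ev (res.ev (e, y)) = e := hT.lev e y (hyc ▸ hec)
          refine ⟨hS.1 y e hy (hyc ▸ hec), y, ⟨hy, hyc⟩, hyw, Or.inl ?_⟩
          rw [hl]
          exact ⟨hec, rfl⟩
        · rw [hT.res_res _ e y he (hyc ▸ hec), h2]
      · rw [not_le] at hec
        obtain ⟨z, hz, hze, hzy⟩ := hS.2.1 y e hy (hyc ▸ hec.le)
        rw [hyc] at hzy
        refine ⟨z, ?_, hze, ?_⟩
        · rw [hmem]
          exact ⟨hz, y, ⟨hy, hyc⟩, hyw, Or.inr ⟨hze ▸ hec.le, hzy⟩⟩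
        · rw [← hT.res_res _ c z h1 (hze ▸ hec.le), hzy, h2]
    · obtain ⟨z, hz, hze, hzx⟩ := hS.2.1 x e hxS he
      refine ⟨z, ?_, hze, hzx⟩
      rw [hmem]
      refine ⟨hz, y, ⟨hy, hyc⟩, hyw, Or.inr ⟨hze ▸ h1.trans he, ?_⟩⟩
      have h3 := hT.res_res c (ℓ.ev x) z h1 (hze.symm ▸ he)
      rw [hzx] at h3
      rw [← h3, h2]
  have hresm : ∀ x, x ∈ phi ℓ res Bs S → ∀ d, d ≤ ℓ.ev x → res.ev (d, x) ∈ phi ℓ res Bs S := by
    intro x hx d hd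
    rw [hmem] at hx ⊢
    obtain ⟨hxS, y, ⟨hy, hyc⟩, hyw, h⟩ := hx
    have hl : ℓ.ev (res.ev (d, x)) = d := hT.lev d x hd
    refine ⟨hS.1 x d hxS hd, y, ⟨hy, hyc⟩, hyw, ?_⟩
    rw [hl]
    by_cases hdc : d ≤ c
    · left
      refine ⟨hdc, ?_⟩
      rcases h with ⟨h1, h2⟩ | ⟨h1, h2⟩
      · have h3 := hT.res_res d (ℓ.ev x) y hd (hyc.symm ▸ h1)
        rw [h2] at h3
        exact h3.symm
      · rw [← h2, hT.res_res d c x hdc h1]
    · right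
      rw [not_le] at hdc
      refine ⟨hdc.le, ?_⟩
      rcases h with ⟨h1, h2⟩ | ⟨h1, h2⟩
      · exact absurd (hd.trans h1) (not_le.2 hdc)
      · rw [hT.res_res c d x hdc.le hd, h2]
  have huphi : u ∈ phi ℓ res Bs S := by
    rw [hmem]
    refine ⟨hu.1, u, hu, huw, Or.inl ⟨le_of_eq hu.2, ?_⟩⟩
    exact hT.self u
  refine ⟨⟨fun x d hx hd => hresm x hx d hd, fun x e hx he => hext x hx e he, ?_⟩,
    fun x hx => hx.1, ?_⟩
  · intro e
    rcases le_total e (ℓ.ev u) with h | h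
    · exact ⟨_, hresm u huphi e h, hT.lev e u h⟩
    · obtain ⟨z, hz, hze, _⟩ := hext u huphi e h
      exact ⟨z, hz, hze⟩
  · intro hsub
    have h1 := hsub y' hy'.1
    rw [hmem] at h1
    obtain ⟨_, y, ⟨hy, hyc⟩, hyw, h⟩ := h1
    have hy'c : ℓ.ev y' = c := hy'.2
    apply hyw'
    rcases h with ⟨h1, h2⟩ | ⟨h1, h2⟩
    · rw [hy'c, ← hyc, hT.self] at h2
      rw [← h2]
      exact hyw
    · rw [← hy'c, hT.self] at h2
      rw [h2]
      exact hyw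

end

/-- Trees with finite levels indexed by a well-ordered set have threads, in models of `VB`. -/
theorem exists_thread (hVB : VB M) (hT : IsTree ℓ res) : ∃ t, Thr ℓ res t := by
  by_contra hno
  obtain ⟨mc, hmc⟩ := exists_mc hVB (IPow M (EE M T))
  -- the finite set of bases chosen for a subtree
  let bs : IPow M T → IPow M (IPow M (EE M T)) := fun S =>
    mc.ev (cmp (fun B => IBas (QQ M) (VS ℓ res S) B) (by fun_prop))
  have hbs : ∀ S, (∀ B, B ∈ bs S → IBas (QQ M) (VS ℓ res S) B) ∧ IFin (bs S) ∧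
      ∃ B, B ∈ bs S := by
    intro S
    obtain ⟨B, hB⟩ := exists_ibas (K := QQ M) hVB (VS ℓ res S) (isub_spn _)
    obtain ⟨h1, h2, h3⟩ := hmc (cmp (fun B => IBas (QQ M) (VS ℓ res S) B) (by fun_prop)) ⟨B, hB⟩
    exact ⟨fun B hB => h1 B hB, h2, h3⟩
  let cap : IPow M (IPow M T) → IPow M T := fun X =>
    cmp (fun x => ∀ S, S ∈ X → x ∈ S) (by fun_prop)
  let g : IFun M (IPow M (IPow M T)) (IPow M T) := lam (fun X => phi ℓ res (bs (cap X)) (cap X))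
    (by
      show IM M (fun X : IPow M (IPow M T) => phi ℓ res
        (mc.ev (cmp (fun B => IBas (QQ M) (VS ℓ res
          (cmp (fun x => ∀ S, S ∈ X → x ∈ S) (by fun_prop))) B) (by fun_prop)))
        (cmp (fun x => ∀ S, S ∈ X → x ∈ S) (by fun_prop)))
      fun_prop)
  let r : IPow M (IPow M T × IPow M T) := cmp (fun p => p.2 ⊆ p.1 ∧ ¬ p.1 ⊆ p.2) (by fun_prop)
  let good : IPow M (IPow M T) := cmp (fun S => Prn ℓ res S) (by fun_prop)
  refine no_upper (r := r) (good := good) (g := g) (fun x h => h.2 h.1)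
    (fun x y z h1 h2 => ⟨fun a ha => h1.1 a (h2.1 a ha),
      fun h => h2.2 (fun a ha => h a (h1.1 a ha))⟩) ?_
  intro X hX hWO
  -- the intersection of a chain of pruned subtrees is pruned
  have htot : ∀ S S', S ∈ X → S' ∈ X → S ⊆ S' ∨ S' ⊆ S := by
    intro S S' hS hS'
    rcases hWO.1 S S' hS hS' with h | h | h
    · exact Or.inr h.1
    · left
      rw [h]
      exact fun a ha => ha
    · exact Or.inl h.1
  have hfam : ∀ (c : C) (Q : IPow M T), (∀ x, x ∈ Q → ℓ.ev x = c) → (∃ x, x ∈ Q) →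
      (∀ S, S ∈ X → ∃ x, x ∈ S ∧ x ∈ Q) → ∃ x, x ∈ cap X ∧ x ∈ Q := by
    intro c Q hQc hQ hXQ
    have hQfin : IFin Q := (hT.fin c).subset (fun x hx => hQc x hx)
    obtain ⟨Y, hY, hYmin⟩ := hQfin.chain
      (insert Q (img (fun S => S ∩ Q) (by fun_prop) X)) (by
        rintro Z (rfl | ⟨S, _, rfl⟩)
        · exact fun a ha => ha
        · exact fun a ha => ha.2) ⟨Q, Or.inl rfl⟩ (by
        rintro Z Z' (rfl | ⟨S, hS, rfl⟩) (rfl | ⟨S', hS', rfl⟩)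
        · exact Or.inl (fun a ha => ha)
        · exact Or.inr (fun a ha => ha.2)
        · exact Or.inl (fun a ha => ha.2)
        · rcases htot S S' hS hS' with h | h
          · exact Or.inl (fun a ha => ⟨h a ha.1, ha.2⟩)
          · exact Or.inr (fun a ha => ⟨h a ha.1, ha.2⟩))
    have hYne : ∃ x, x ∈ Y := by
      rcases hY with rfl | ⟨S, hS, rfl⟩
      · exact hQ
      · exact hXQ S hS
    obtain ⟨x, hx⟩ := hYne
    refine ⟨x, fun S hS => ?_, ?_⟩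
    · exact (hYmin (S ∩ Q) (Or.inr ⟨S, hS, rfl⟩) x hx).1
    · exact hYmin Q (Or.inl rfl) x hx
  have hcap : Prn ℓ res (cap X) := by
    refine ⟨?_, ?_, ?_⟩
    · intro x c hx hc S hS
      exact (hX S hS).1 x c (hx S hS) hc
    · intro x c hx hc
      obtain ⟨y0, hy0, hy0'⟩ := hT.ext x c hc
      obtain ⟨y, hy, hyc, hyx⟩ := hfam c
        (cmp (fun y => ℓ.ev y = c ∧ res.ev (ℓ.ev x, y) = x) (by fun_prop)) (fun y hy => hy.1)
        ⟨y0, hy0, hy0'⟩ (fun S hS => by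
          obtain ⟨y, hy, hyc, hyx⟩ := (hX S hS).2.1 x c (hx S hS) hc
          exact ⟨y, hy, hyc, hyx⟩)
      exact ⟨y, hy, hyc, hyx⟩
    · intro c
      obtain ⟨y0, hy0⟩ := hT.ne c
      obtain ⟨y, hy, hyc⟩ := hfam c
        (cmp (fun y => ℓ.ev y = c) (by fun_prop)) (fun y hy => hy)
        ⟨y0, hy0⟩ (fun S hS => by
          obtain ⟨y, hy, hyc⟩ := (hX S hS).2.2 c
          exact ⟨y, hy, hyc⟩)
      exact ⟨y, hy, hyc⟩
  obtain ⟨h1, h2, h3⟩ := hbs (cap X)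
  obtain ⟨h4, h5, h6⟩ := phi_spec hT hcap h1 h2 h3 hno
  refine ⟨h4, fun S hS => ⟨?_, ?_⟩⟩
  · intro x hx
    exact h5 x hx S hS
  · intro hsub
    apply h6
    intro x hx
    exact hsub x (hx S hS)

end

end Pool.Agent.Helper93.VB
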