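import Pool.Agent.Helper93.VB.Fin

/-!
A choice-free form of Zorn's lemma: there is no function giving a strict upper bound to every
well-ordered chain.
-/

universe u v w

namespace Pool.Agent.Helper93.VB

set_option linter.unusedSectionVars false

noncomputable section

variable {M : Type u} [LZ.Structure M] {α β γ δ : Type*} [IType M α] [IType M β] [IType M γ]
  [IType M δ] [hM : ZM M]

/-- `C` is well-ordered by the internal relation `r`. -/
def IWO (r : IPow M (α × α)) (C : IPow M α) : Prop :=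
  (∀ x y, x ∈ C → y ∈ C → (x, y) ∈ r ∨ x = y ∨ (y, x) ∈ r) ∧
    ∀ D : IPow M α, D ⊆ C → (∃ x, x ∈ D) → ∃ x, x ∈ D ∧ ∀ y, y ∈ D → ¬ (y, x) ∈ r

@[fun_prop] lemma im_iwo {r : α → IPow M (β × β)} {C : α → IPow M β} (hr : IM M r) (hC : IM M C) :
    IM M (fun x => IWO (r x) (C x)) := by
  unfold IWO
  fun_prop

/-- initial segments -/
def seg (r : IPow M (α × α)) (C : IPow M α) (x : α) : IPow M α :=
  cmp (fun y => y ∈ C ∧ (y, x) ∈ r) (by fun_prop)

@[simp] lemma mem_seg {r : IPow M (α × α)} {C : IPow M α} {x y : α} :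
    y ∈ seg r C x ↔ y ∈ C ∧ (y, x) ∈ r := Iff.rfl

@[fun_prop] lemma im_seg {r : α → IPow M (β × β)} {C : α → IPow M β} {f : α → β} (hr : IM M r)
    (hC : IM M C) (hf : IM M f) : IM M (fun x => seg (r x) (C x) (f x)) := by
  unfold seg
  fun_prop

/-- `g`-chains -/
def GCh (r : IPow M (α × α)) (good : IPow M α) (g : IFun M (IPow M α) α) (C : IPow M α) : Prop :=
  C ⊆ good ∧ IWO r C ∧ ∀ x, x ∈ C → x = g.ev (seg r C x)

@[fun_prop] lemma im_gch {r : IPow M (β × β)} {good : IPow M β} {g : IFun M (IPow M β) β}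
    {C : α → IPow M β} (hC : IM M C) :
    IM M (fun x => GCh r good g (C x)) := by
  unfold GCh
  fun_prop

section

variable {r : IPow M (α × α)} (hirr : ∀ x, ¬ (x, x) ∈ r)
  (htr : ∀ x y z, (x, y) ∈ r → (y, z) ∈ r → (x, z) ∈ r) {good : IPow M α}
  {g : IFun M (IPow M α) α}

include hirr htr

lemma IWO.least {C : IPow M α} (hC : IWO r C) {D : IPow M α} (hD : D ⊆ C) (hne : ∃ x, x ∈ D) :
    ∃ x, x ∈ D ∧ ∀ y, y ∈ D → x = y ∨ (x, y) ∈ r := by
  obtain ⟨x, hx, h⟩ := hC.2 D hD hne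
  refine ⟨x, hx, fun y hy => ?_⟩
  rcases hC.1 x y (hD x hx) (hD y hy) with h1 | h1 | h1
  · exact Or.inr h1
  · exact Or.inl h1
  · exact absurd h1 (h y hy)

lemma gch_compare {C D : IPow M α} (hC : GCh r good g C) (hD : GCh r good g D) :
    (∀ x, x ∈ C → x ∈ D ∧ seg r C x = seg r D x) ∨
      (∀ x, x ∈ D → x ∈ C ∧ seg r D x = seg r C x) := by
  by_contra hcon
  push Not at hcon
  obtain ⟨⟨c0, hc0, hc0'⟩, ⟨d0, hd0, hd0'⟩⟩ := hcon
  -- the first point of `C` outside `E`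
  have im1 : IM M (fun x => x ∈ C ∧ ¬ (x ∈ D ∧ seg r C x = seg r D x)) := by fun_prop
  have im2 : IM M (fun x => x ∈ D ∧ ¬ (x ∈ C ∧ seg r D x = seg r C x)) := by fun_prop
  obtain ⟨c, ⟨hc, hc'⟩, hcm⟩ := hC.2.1.2
    (cmp (fun x => x ∈ C ∧ ¬ (x ∈ D ∧ seg r C x = seg r D x)) im1)
    (fun x hx => hx.1) ⟨c0, hc0, fun h => hc0' h.1 h.2⟩
  obtain ⟨d, ⟨hd, hd'⟩, hdm⟩ := hD.2.1.2
    (cmp (fun x => x ∈ D ∧ ¬ (x ∈ C ∧ seg r D x = seg r C x)) im2)
    (fun x hx => hx.1) ⟨d0, hd0, fun h => hd0' h.1 h.2⟩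
  have hcm' : ∀ x, x ∈ C → (x, c) ∈ r → x ∈ D ∧ seg r C x = seg r D x := by
    intro x hx hxc
    by_contra h
    exact hcm x ⟨hx, h⟩ hxc
  have hdm' : ∀ x, x ∈ D → (x, d) ∈ r → x ∈ C ∧ seg r D x = seg r C x := by
    intro x hx hxc
    by_contra h
    exact hdm x ⟨hx, h⟩ hxc
  -- `seg r C c = seg r D d`
  have key1 : ∀ x, x ∈ C → (x, c) ∈ r → x ∈ D ∧ (x, d) ∈ r := by
    intro x hx hxc
    obtain ⟨h1, h2⟩ := hcm' x hx hxc
    refine ⟨h1, ?_⟩
    rcases hD.2.1.1 x d h1 hd with h3 | h3 | h3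
    · exact h3
    · rw [h3] at h2 hx
      exact absurd ⟨hx, h2.symm⟩ hd'
    · exfalso
      have h4 : d ∈ seg r D x := ⟨hd, h3⟩
      rw [← h2] at h4
      have h5 := hcm' d h4.1 (htr _ _ _ h3 hxc)
      exact hd' ⟨h4.1, h5.2.symm⟩
  have key2 : ∀ x, x ∈ D → (x, d) ∈ r → x ∈ C ∧ (x, c) ∈ r := by
    intro x hx hxc
    obtain ⟨h1, h2⟩ := hdm' x hx hxc
    refine ⟨h1, ?_⟩
    rcases hC.2.1.1 x c h1 hc with h3 | h3 | h3
    · exact h3
    · rw [h3] at h2 hx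
      exact absurd ⟨hx, h2.symm⟩ hc'
    · exfalso
      have h4 : c ∈ seg r C x := ⟨hc, h3⟩
      rw [← h2] at h4
      have h5 := hdm' c h4.1 (htr _ _ _ h3 hxc)
      exact hc' ⟨h4.1, h5.2.symm⟩
  have hseg : seg r C c = seg r D d := by
    ext x
    exact ⟨fun h => key1 x h.1 h.2, fun h => key2 x h.1 h.2⟩
  have hcd : c = d := by
    rw [hC.2.2 c hc, hD.2.2 d hd, hseg]
  subst hcd
  exact hc' ⟨hd, hseg⟩

/-- No function assigns to every well-ordered chain a strict upper bound. -/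
theorem no_upper (h : ∀ C : IPow M α, C ⊆ good → IWO r C →
    g.ev C ∈ good ∧ ∀ x, x ∈ C → (x, g.ev C) ∈ r) : False := by
  -- the union of all g-chains
  let U : IPow M α := cmp (fun x => ∃ C, GCh r good g C ∧ x ∈ C) (by fun_prop)
  have hseg : ∀ C, GCh r good g C → ∀ x, x ∈ C → seg r U x = seg r C x := by
    intro C hC x hx
    ext y
    constructor
    · rintro ⟨⟨D, hD, hy⟩, hyx⟩
      rcases gch_compare hirr htr hC hD with h1 | h1
      · have h2 := (h1 x hx).2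
        rw [h2]
        exact ⟨hy, hyx⟩
      · exact ⟨(h1 y hy).1, hyx⟩
    · rintro ⟨hy, hyx⟩
      exact ⟨⟨C, hC, hy⟩, hyx⟩
  have hU : GCh r good g U := by
    refine ⟨?_, ⟨?_, ?_⟩, ?_⟩
    · rintro x ⟨C, hC, hx⟩
      exact hC.1 x hx
    · rintro x y ⟨C, hC, hx⟩ ⟨D, hD, hy⟩
      rcases gch_compare hirr htr hC hD with h1 | h1
      · exact hD.2.1.1 x y (h1 x hx).1 hy
      · exact hC.2.1.1 x y hx (h1 y hy).1
    · intro D hD hne
      obtain ⟨x, hx⟩ := hne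
      obtain ⟨C, hC, hxC⟩ := hD x hx
      obtain ⟨m, hm, hmin⟩ := hC.2.1.2 (D ∩ C) (fun y hy => hy.2) ⟨x, hx, hxC⟩
      refine ⟨m, hm.1, fun y hy hym => ?_⟩
      have h1 : y ∈ seg r U m := ⟨hD y hy, hym⟩
      rw [hseg C hC m hm.2] at h1
      exact hmin y ⟨hy, h1.1⟩ hym
    · rintro x ⟨C, hC, hx⟩
      rw [hseg C hC x hx]
      exact hC.2.2 x hx
  obtain ⟨hgU, hgU'⟩ := h U hU.1 hU.2.1
  -- extend
  have hU' : GCh r good g (insert (g.ev U) U) := by
    have hsegx : ∀ x, x ∈ U → seg r (insert (g.ev U) U) x = seg r U x := by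
      intro x hx
      ext y
      constructor
      · rintro ⟨rfl | hy, hyx⟩
        · exact absurd (htr _ _ _ hyx (hgU' x hx)) (hirr _)
        · exact ⟨hy, hyx⟩
      · rintro ⟨hy, hyx⟩
        exact ⟨Or.inr hy, hyx⟩
    have hsegg : seg r (insert (g.ev U) U) (g.ev U) = U := by
      ext y
      constructor
      · rintro ⟨rfl | hy, hyx⟩
        · exact absurd hyx (hirr _)
        · exact hy
      · intro hy
        exact ⟨Or.inr hy, hgU' y hy⟩
    refine ⟨?_, ⟨?_, ?_⟩, ?_⟩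
    · rintro x (rfl | hx)
      · exact hgU
      · exact hU.1 x hx
    · rintro x y (rfl | hx) (rfl | hy)
      · exact Or.inr (Or.inl rfl)
      · exact Or.inr (Or.inr (hgU' y hy))
      · exact Or.inl (hgU' x hx)
      · exact hU.2.1.1 x y hx hy
    · intro D hD hne
      by_cases hDU : ∃ x, x ∈ D ∩ U
      · obtain ⟨m, hm, hmin⟩ := hU.2.1.2 (D ∩ U) (fun y hy => hy.2) hDU
        refine ⟨m, hm.1, fun y hy hym => ?_⟩
        rcases hD y hy with rfl | hyU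
        · exact hirr _ (htr _ _ _ hym (hgU' m hm.2))
        · exact hmin y ⟨hy, hyU⟩ hym
      · obtain ⟨x, hx⟩ := hne
        refine ⟨x, hx, fun y hy hyx => ?_⟩
        rcases hD x hx with rfl | hxU
        · rcases hD y hy with rfl | hyU
          · exact hirr _ hyx
          · exact hDU ⟨y, hy, hyU⟩
        · exact hDU ⟨x, hx, hxU⟩
    · rintro x (rfl | hx)
      · rw [hsegg]
      · rw [hsegx x hx]
        exact hU.2.2 x hx
  have : g.ev U ∈ U := ⟨_, hU', Or.inl rfl⟩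
  exact hirr _ (hgU' _ this)

end

end

end Pool.Agent.Helper93.VB
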