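import Pool.Agent.Helper93.VB.Frac
import Pool.Agent.Helper93.VB.LinAlg
import Pool.Agent.Helper93.VB.Zorn

/-!
Trees with finite levels indexed by a well-ordered set: definitions.
-/

universe u v w

namespace Pool.Agent.Helper93.VB

set_option linter.unusedSectionVars false

noncomputable section

/-- internal linear orders -/
class ILt (M : Type u) [LZ.Structure M] [ZM M] (α : Type v) [IType M α] [LinearOrder α] : Prop where
  im : IM M (fun p : α × α => p.1 < p.2)

variable {M : Type u} [LZ.Structure M] [hM : ZM M]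

@[fun_prop] lemma im_lt {α β : Type*} [IType M α] [IType M β] [LinearOrder β] [h : ILt M β]
    {f g : α → β} (hf : IM M f) (hg : IM M g) : IM M (fun x => f x < g x) :=
  im_comp (g := fun p : β × β => p.1 < p.2) (f := fun x => (f x, g x)) h.im (im_pair hf hg)

@[fun_prop] lemma im_le {α β : Type*} [IType M α] [IType M β] [LinearOrder β] [h : ILt M β]
    {f g : α → β} (hf : IM M f) (hg : IM M g) : IM M (fun x => f x ≤ g x) := by
  simp only [← not_lt]
  fun_prop

variable {C T : Type*} [IType M C] [IType M T] [LinearOrder C] [ILt M C]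
  (ℓ : IFun M T C) (res : IFun M (C × T) T)

/-- the data of a tree -/
structure IsTree : Prop where
  wf : ∀ D : IPow M C, (∃ c, c ∈ D) → ∃ c, c ∈ D ∧ ∀ d, d ∈ D → c ≤ d
  lev : ∀ c x, c ≤ ℓ.ev x → ℓ.ev (res.ev (c, x)) = c
  self : ∀ x, res.ev (ℓ.ev x, x) = x
  res_res : ∀ d c x, d ≤ c → c ≤ ℓ.ev x → res.ev (d, res.ev (c, x)) = res.ev (d, x)
  fin : ∀ c, IFin (cmp (fun x => ℓ.ev x = c) (by fun_prop) : IPow M T)
  ne : ∀ c, ∃ x, ℓ.ev x = c
  ext : ∀ x c, ℓ.ev x ≤ c → ∃ y, ℓ.ev y = c ∧ res.ev (ℓ.ev x, y) = x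

/-- pruned subtrees -/
def Prn (S : IPow M T) : Prop :=
  (∀ x c, x ∈ S → c ≤ ℓ.ev x → res.ev (c, x) ∈ S) ∧
    (∀ x c, x ∈ S → ℓ.ev x ≤ c → ∃ y, y ∈ S ∧ ℓ.ev y = c ∧ res.ev (ℓ.ev x, y) = x) ∧
    ∀ c, ∃ x, x ∈ S ∧ ℓ.ev x = c

@[fun_prop] lemma im_prn {α : Type*} [IType M α] {f : α → IPow M T} (hf : IM M f) :
    IM M (fun x => Prn ℓ res (f x)) := by
  unfold Prn
  fun_prop

/-- level of a subtree -/
def lvl (S : IPow M T) (c : C) : IPow M T := cmp (fun x => x ∈ S ∧ ℓ.ev x = c) (by fun_prop)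

@[fun_prop] lemma im_lvl {α : Type*} [IType M α] {f : α → IPow M T} {g : α → C} (hf : IM M f)
    (hg : IM M g) : IM M (fun x => lvl ℓ (f x) (g x)) := by
  unfold lvl
  fun_prop

/-- siblings -/
def sib (x y : T) : Prop :=
  ℓ.ev x = ℓ.ev y ∧ ∀ d, d < ℓ.ev x → res.ev (d, x) = res.ev (d, y)

@[fun_prop] lemma im_sib {α : Type*} [IType M α] {f g : α → T} (hf : IM M f)
    (hg : IM M g) : IM M (fun x => sib ℓ res (f x) (g x)) := by
  unfold sib
  fun_prop

variable (M T) in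
/-- The ambient vector space. -/
abbrev EE := IFun M (T × T) (QQ M)

open Classical in
/-- the vector attached to a node -/
def eS (S : IPow M T) (x : T) : EE M T :=
  lam (fun p : T × T => if p.1 ∈ S ∧ p.2 ∈ S ∧ sib ℓ res p.1 p.2 then
    (if p.1 = x then (1 : QQ M) else 0) - (if p.2 = x then (1 : QQ M) else 0) else 0)
    (by fun_prop)

@[fun_prop] lemma im_eS {α : Type*} [IType M α] {f : α → IPow M T} {g : α → T} (hf : IM M f)
    (hg : IM M g) : IM M (fun x => eS ℓ res (f x) (g x)) := by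
  unfold eS
  fun_prop

/-- the vector space attached to a subtree -/
def VS (S : IPow M T) : IPow M (EE M T) :=
  spn (QQ M) (cmp (fun v => ∃ x, x ∈ S ∧ v = eS ℓ res S x) (by fun_prop))

@[fun_prop] lemma im_VS {α : Type*} [IType M α] {f : α → IPow M T} (hf : IM M f) :
    IM M (fun x => VS ℓ res (f x)) := by
  unfold VS
  fun_prop

/-- `v` does not vanish on level `c` -/
def nzl (v : EE M T) (c : C) : Prop := ∃ p : T × T, ℓ.ev p.1 = c ∧ ¬ v.ev p = 0

@[fun_prop] lemma im_nzl {α : Type*} [IType M α] {f : α → EE M T} {g : α → C} (hf : IM M f)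
    (hg : IM M g) : IM M (fun x => nzl ℓ (f x) (g x)) := by
  unfold nzl
  fun_prop

/-- basis vectors needed for level `c` -/
def bet (S : IPow M T) (B : IPow M (EE M T)) (c : C) : IPow M (EE M T) :=
  bUn (lvl ℓ S c) (fun x => supp (QQ M) B (eS ℓ res S x)) (by fun_prop)

@[fun_prop] lemma im_bet {α : Type*} [IType M α] {f : α → IPow M T} {g : α → IPow M (EE M T)}
    {h : α → C} (hf : IM M f) (hg : IM M g) (hh : IM M h) :
    IM M (fun x => bet ℓ res (f x) (g x) (h x)) := by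
  unfold bet
  fun_prop

/-- basis vectors needed for level `c` and not before -/
def nw (S : IPow M T) (B : IPow M (EE M T)) (c : C) : IPow M (EE M T) :=
  cmp (fun b => b ∈ bet ℓ res S B c ∧ ∀ d, d < c → ¬ b ∈ bet ℓ res S B d) (by fun_prop)

@[fun_prop] lemma im_nw {α : Type*} [IType M α] {f : α → IPow M T} {g : α → IPow M (EE M T)}
    {h : α → C} (hf : IM M f) (hg : IM M g) (hh : IM M h) :
    IM M (fun x => nw ℓ res (f x) (g x) (h x)) := by
  unfold nw
  fun_prop

/-- the sum of the new basis vectors of level `c` -/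
def sS (S : IPow M T) (B : IPow M (EE M T)) (c : C) : EE M T :=
  the (cmp (fun s => s ∈ VS ℓ res S ∧ (∀ b, b ∈ nw ℓ res S B c → coord (QQ M) B b s = 1) ∧
    ∀ b, b ∈ B → ¬ b ∈ nw ℓ res S B c → coord (QQ M) B b s = 0) (by fun_prop) :
    IPow M (EE M T))

@[fun_prop] lemma im_sS {α : Type*} [IType M α] {f : α → IPow M T} {g : α → IPow M (EE M T)}
    {h : α → C} (hf : IM M f) (hg : IM M g) (hh : IM M h) :
    IM M (fun x => sS ℓ res (f x) (g x) (h x)) := by
  unfold sS
  fun_prop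

/-- levels where some `sS` does not vanish -/
def NB (S : IPow M T) (B : IPow M (EE M T)) : IPow M C :=
  cmp (fun d => ∃ c, nzl ℓ (sS ℓ res S B c) d) (by fun_prop)

@[fun_prop] lemma im_NB {α : Type*} [IType M α] {f : α → IPow M T} {g : α → IPow M (EE M T)}
    (hf : IM M f) (hg : IM M g) : IM M (fun x => NB ℓ res (f x) (g x)) := by
  unfold NB
  fun_prop

/-- the nodes that are maximal among their siblings -/
def AB (S : IPow M T) (B : IPow M (EE M T)) : IPow M T :=
  cmp (fun x => x ∈ S ∧ ∀ c, nzl ℓ (sS ℓ res S B c) (ℓ.ev x) →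
    (∀ c', c' < c → ¬ nzl ℓ (sS ℓ res S B c') (ℓ.ev x)) →
    ∀ x', x' ∈ S → sib ℓ res x x' → 0 ≤ (sS ℓ res S B c).ev (x, x')) (by fun_prop)

@[fun_prop] lemma im_AB {α : Type*} [IType M α] {f : α → IPow M T} {g : α → IPow M (EE M T)}
    (hf : IM M f) (hg : IM M g) : IM M (fun x => AB ℓ res (f x) (g x)) := by
  unfold AB
  fun_prop

/-- the levels at which the branch of `x` is in `AB` -/
def bits (S : IPow M T) (B : IPow M (EE M T)) (x : T) : IPow M C :=
  cmp (fun d => d ≤ ℓ.ev x ∧ res.ev (d, x) ∈ AB ℓ res S B) (by fun_prop)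

@[fun_prop] lemma im_bits {α : Type*} [IType M α] {f : α → IPow M T} {g : α → IPow M (EE M T)}
    {h : α → T} (hf : IM M f) (hg : IM M g) (hh : IM M h) :
    IM M (fun x => bits ℓ res (f x) (g x) (h x)) := by
  unfold bits
  fun_prop

/-- the set of the `bits` for the bases in `Bs` -/
def WS (Bs : IPow M (IPow M (EE M T))) (S : IPow M T) (x : T) : IPow M (IPow M C) :=
  img (fun B => bits ℓ res S B x) (by fun_prop) Bs

@[fun_prop] lemma im_WS {α : Type*} [IType M α] {e : α → IPow M (IPow M (EE M T))}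
    {f : α → IPow M T} {h : α → T} (he : IM M e) (hf : IM M f) (hh : IM M h) :
    IM M (fun x => WS ℓ res (e x) (f x) (h x)) := by
  unfold WS
  fun_prop

/-- lexicographic order on subsets -/
def lex (w w' : IPow M C) : Prop :=
  ∃ d, d ∈ w' ∧ ¬ d ∈ w ∧ ∀ e, e < d → (e ∈ w ↔ e ∈ w')

@[fun_prop] lemma im_lex {α : Type*} [IType M α] {f g : α → IPow M C} (hf : IM M f)
    (hg : IM M g) : IM M (fun x => lex (f x) (g x)) := by
  unfold lex
  fun_prop

/-- `w` distinguishes nodes of level `c` -/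
def cnd (Bs : IPow M (IPow M (EE M T))) (S : IPow M T) (c : C) (w : IPow M C) : Prop :=
  (∃ x, x ∈ lvl ℓ S c ∧ w ∈ WS ℓ res Bs S x) ∧ ∃ y, y ∈ lvl ℓ S c ∧ ¬ w ∈ WS ℓ res Bs S y

@[fun_prop] lemma im_cnd {α : Type*} [IType M α] {e : α → IPow M (IPow M (EE M T))}
    {f : α → IPow M T} {g : α → C} {h : α → IPow M C} (he : IM M e) (hf : IM M f) (hg : IM M g)
    (hh : IM M h) : IM M (fun x => cnd ℓ res (e x) (f x) (g x) (h x)) := by
  unfold cnd
  fun_prop

/-- the first distinguishing pair -/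
def mnd (Bs : IPow M (IPow M (EE M T))) (S : IPow M T) (c : C) (w : IPow M C) : Prop :=
  cnd ℓ res Bs S c w ∧ (∀ c', c' < c → ∀ w', ¬ cnd ℓ res Bs S c' w') ∧
    ∀ w', cnd ℓ res Bs S c w' → ¬ lex w' w

@[fun_prop] lemma im_mnd {α : Type*} [IType M α] {e : α → IPow M (IPow M (EE M T))}
    {f : α → IPow M T} {g : α → C} {h : α → IPow M C} (he : IM M e) (hf : IM M f) (hg : IM M g)
    (hh : IM M h) : IM M (fun x => mnd ℓ res (e x) (f x) (g x) (h x)) := by
  unfold mnd
  fun_prop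

/-- the smaller subtree -/
def phi (Bs : IPow M (IPow M (EE M T))) (S : IPow M T) : IPow M T :=
  cmp (fun x => x ∈ S ∧ ∃ c w y, mnd ℓ res Bs S c w ∧ y ∈ lvl ℓ S c ∧ w ∈ WS ℓ res Bs S y ∧
    ((ℓ.ev x ≤ c ∧ res.ev (ℓ.ev x, y) = x) ∨ (c ≤ ℓ.ev x ∧ res.ev (c, x) = y))) (by fun_prop)

@[fun_prop] lemma im_phi {α : Type*} [IType M α] {e : α → IPow M (IPow M (EE M T))}
    {f : α → IPow M T} (he : IM M e) (hf : IM M f) :
    IM M (fun x => phi ℓ res (e x) (f x)) := by
  unfold phi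
  fun_prop

end

end Pool.Agent.Helper93.VB
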